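import Mathlib

open Finset

namespace Pool.Agent.Lib.MP_e14847_pr

/-- The vertex set of the square lattice. -/
abbrev V := ℤ × ℤ

/-- Sup-norm level of a lattice point. -/
def lev (x : V) : ℤ := max |x.1| |x.2|

/-- The four unit vectors. -/
def dirs : Finset V := {(1, 0), (-1, 0), (0, 1), (0, -1)}

theorem sum_dirs (f : V → ℝ) :
    ∑ e ∈ dirs, f e = f (1, 0) + f (-1, 0) + f (0, 1) + f (0, -1) := by
  unfold dirs
  rw [sum_insert (by decide), sum_insert (by decide), sum_insert (by decide), sum_singleton]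
  ring

theorem mem_dirs {e : V} : e ∈ dirs ↔ e = (1, 0) ∨ e = (-1, 0) ∨ e = (0, 1) ∨ e = (0, -1) := by
  simp [dirs]

theorem lev_nonneg (x : V) : 0 ≤ lev x := le_max_of_le_left (abs_nonneg _)

theorem lev_add_le {x e : V} (he : e ∈ dirs) : lev (x + e) ≤ lev x + 1 := by
  rcases x with ⟨a, b⟩
  rcases mem_dirs.1 he with rfl | rfl | rfl | rfl <;>
    (simp only [lev, Prod.mk_add_mk, abs_eq_max_neg]; omega)

theorem le_lev_add {x e : V} (he : e ∈ dirs) : lev x ≤ lev (x + e) + 1 := by
  rcases x with ⟨a, b⟩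
  rcases mem_dirs.1 he with rfl | rfl | rfl | rfl <;>
    (simp only [lev, Prod.mk_add_mk, abs_eq_max_neg]; omega)

/-- Conductance of the edge between two neighbours. -/
def cd (w : ℤ → ℝ) (x y : V) : ℝ := w (min (lev x) (lev y))

theorem cd_comm (w : ℤ → ℝ) (x y : V) : cd w x y = cd w y x := by
  unfold cd
  rw [min_comm]

theorem cd_pos {w : ℤ → ℝ} (hw : ∀ l, 0 < w l) (x y : V) : 0 < cd w x y := hw _

/-- Network Laplacian. -/
def Lap (w : ℤ → ℝ) (f : V → ℝ) (x : V) : ℝ :=
  ∑ e ∈ dirs, cd w x (x + e) * (f (x + e) - f x)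

theorem Lap_sub (w : ℤ → ℝ) (f g : V → ℝ) (x : V) :
    Lap w (fun y => f y - g y) x = Lap w f x - Lap w g x := by
  unfold Lap
  rw [← Finset.sum_sub_distrib]
  exact Finset.sum_congr rfl (fun e _ => by ring)

theorem Lap_add (w : ℤ → ℝ) (f g : V → ℝ) (x : V) :
    Lap w (fun y => f y + g y) x = Lap w f x + Lap w g x := by
  unfold Lap
  rw [← Finset.sum_add_distrib]
  exact Finset.sum_congr rfl (fun e _ => by ring)

theorem Lap_neg (w : ℤ → ℝ) (f : V → ℝ) (x : V) :
    Lap w (fun y => - f y) x = - Lap w f x := by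
  unfold Lap
  rw [← Finset.sum_neg_distrib]
  exact Finset.sum_congr rfl (fun e _ => by ring)

theorem Lap_const_mul (w : ℤ → ℝ) (c : ℝ) (f : V → ℝ) (x : V) :
    Lap w (fun y => c * f y) x = c * Lap w f x := by
  unfold Lap
  rw [Finset.mul_sum]
  exact Finset.sum_congr rfl (fun e _ => by ring)

theorem Lap_congr {w : ℤ → ℝ} {f g : V → ℝ} {x : V} (h0 : f x = g x)
    (h : ∀ e ∈ dirs, f (x + e) = g (x + e)) : Lap w f x = Lap w g x := by
  unfold Lap
  exact Finset.sum_congr rfl (fun e he => by rw [h0, h e he])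

/-- The box of sup-norm radius `M`. -/
noncomputable def box (M : ℤ) : Finset V := Finset.Icc (-M, -M) (M, M)

theorem mem_box {M : ℤ} {x : V} : x ∈ box M ↔ lev x ≤ M := by
  rcases x with ⟨a, b⟩
  simp only [box, lev, Finset.mem_Icc, Prod.mk_le_mk, abs_eq_max_neg]
  omega

/-- Dirichlet form in one direction. -/
noncomputable def De (w : ℤ → ℝ) (M : ℤ) (e : V) (f g : V → ℝ) : ℝ :=
  ∑ x ∈ box M, cd w x (x + e) * (f (x + e) - f x) * (g (x + e) - g x)

/-- Dirichlet form. -/
noncomputable def DD (w : ℤ → ℝ) (M : ℤ) (f g : V → ℝ) : ℝ := De w M (1, 0) f g + De w M (0, 1) f g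

theorem De_comm (w : ℤ → ℝ) (M : ℤ) (e : V) (f g : V → ℝ) : De w M e f g = De w M e g f := by
  unfold De
  exact Finset.sum_congr rfl (fun x _ => by ring)

theorem DD_comm (w : ℤ → ℝ) (M : ℤ) (f g : V → ℝ) : DD w M f g = DD w M g f := by
  unfold DD
  rw [De_comm, De_comm w M (0, 1)]

theorem DD_sub_left (w : ℤ → ℝ) (M : ℤ) (f g h : V → ℝ) :
    DD w M (fun x => f x - g x) h = DD w M f h - DD w M g h := by
  unfold DD De
  rw [sub_eq_add_neg, ← Finset.sum_add_distrib, ← Finset.sum_add_distrib,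
    ← Finset.sum_add_distrib, ← Finset.sum_neg_distrib, ← Finset.sum_add_distrib]
  exact Finset.sum_congr rfl (fun x _ => by ring)

theorem DD_const_mul_left (w : ℤ → ℝ) (M : ℤ) (c : ℝ) (f h : V → ℝ) :
    DD w M (fun x => c * f x) h = c * DD w M f h := by
  unfold DD De
  rw [← Finset.sum_add_distrib, ← Finset.sum_add_distrib, Finset.mul_sum]
  exact Finset.sum_congr rfl (fun x _ => by ring)

theorem DD_sub_right (w : ℤ → ℝ) (M : ℤ) (f g h : V → ℝ) :
    DD w M h (fun x => f x - g x) = DD w M h f - DD w M h g := by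
  rw [DD_comm, DD_sub_left, DD_comm w M f, DD_comm w M g]

theorem De_self_nonneg {w : ℤ → ℝ} (hw : ∀ l, 0 < w l) (M : ℤ) (e : V) (f : V → ℝ) :
    0 ≤ De w M e f f := by
  unfold De
  refine Finset.sum_nonneg (fun x _ => ?_)
  rw [mul_assoc]
  exact mul_nonneg (cd_pos hw _ _).le (mul_self_nonneg _)

theorem DD_self_nonneg {w : ℤ → ℝ} (hw : ∀ l, 0 < w l) (M : ℤ) (f : V → ℝ) :
    0 ≤ DD w M f f := add_nonneg (De_self_nonneg hw M _ f) (De_self_nonneg hw M _ f)

/-- Summation by parts in one direction. -/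
theorem De_parts (w : ℤ → ℝ) (M : ℤ) {e : V} (he : e ∈ dirs) (f g : V → ℝ)
    (hg : ∀ x, M ≤ lev x → g x = 0) :
    De w M e f g = - ∑ x ∈ box M, g x * (cd w x (x + e) * (f (x + e) - f x) +
      cd w x (x - e) * (f (x - e) - f x)) := by
  have h1 : De w M e f g = ∑ x ∈ box M, (cd w x (x + e) * (f (x + e) - f x)) * g (x + e) -
      ∑ x ∈ box M, (cd w x (x + e) * (f (x + e) - f x)) * g x := by
    unfold De
    rw [← Finset.sum_sub_distrib]
    exact Finset.sum_congr rfl (fun x _ => by ring)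
  have h2 : ∑ x ∈ box M, (cd w x (x + e) * (f (x + e) - f x)) * g (x + e) =
      ∑ x ∈ box M, (cd w (x - e) x * (f x - f (x - e))) * g x := by
    rw [← Finset.sum_filter_of_ne (s := box M) (p := fun x => g (x + e) ≠ 0)
      (f := fun x => (cd w x (x + e) * (f (x + e) - f x)) * g (x + e))
      (fun x _ h => right_ne_zero_of_mul h),
      ← Finset.sum_filter_of_ne (s := box M) (p := fun x => g x ≠ 0)
      (f := fun x => (cd w (x - e) x * (f x - f (x - e))) * g x)
      (fun x _ h => right_ne_zero_of_mul h)]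
    refine Finset.sum_nbij' (fun x => x + e) (fun x => x - e) ?_ ?_ ?_ ?_ ?_
    · intro x hx
      rw [Finset.mem_filter] at hx ⊢
      refine ⟨mem_box.2 ?_, hx.2⟩
      by_contra hcon
      exact hx.2 (hg _ (by omega))
    · intro x hx
      rw [Finset.mem_filter] at hx ⊢
      refine ⟨mem_box.2 ?_, by rw [sub_add_cancel]; exact hx.2⟩
      have h3 : lev x < M := by
        by_contra hcon
        exact hx.2 (hg _ (by omega))
      have h4 := le_lev_add (x := x - e) he
      have h5 := lev_add_le (x := x - e) he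
      rw [sub_add_cancel] at h4 h5
      omega
    · intro x _
      exact add_sub_cancel_right x e
    · intro x _
      exact sub_add_cancel x e
    · intro x _
      simp only [add_sub_cancel_right]
  rw [h1, h2, ← Finset.sum_sub_distrib, ← Finset.sum_neg_distrib]
  refine Finset.sum_congr rfl (fun x _ => ?_)
  rw [cd_comm w (x - e) x]
  ring

/-- Summation by parts. -/
theorem DD_parts (w : ℤ → ℝ) (M : ℤ) (f g : V → ℝ) (hg : ∀ x, M ≤ lev x → g x = 0) :
    DD w M f g = - ∑ x ∈ box M, g x * Lap w f x := by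
  unfold DD
  rw [De_parts w M (by simp [dirs]) f g hg, De_parts w M (by simp [dirs]) f g hg, ← neg_add,
    ← Finset.sum_add_distrib]
  congr 1
  refine Finset.sum_congr rfl (fun x _ => ?_)
  unfold Lap
  rw [sum_dirs]
  have e1 : x - ((1 : ℤ), (0 : ℤ)) = x + (-1, 0) := by
    rw [sub_eq_add_neg]
    rfl
  have e2 : x - ((0 : ℤ), (1 : ℤ)) = x + (0, -1) := by
    rw [sub_eq_add_neg]
    rfl
  rw [e1, e2]
  ring

/-- The maximum principle. -/
theorem max_principle {w : ℤ → ℝ} (hw : ∀ l, 0 < w l) (Ω : Finset V) (u : V → ℝ) (B : ℝ)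
    (h1 : ∀ x, x ∉ Ω → u x ≤ B) (h2 : ∀ x ∈ Ω, 0 ≤ Lap w u x) (x : V) : u x ≤ B := by
  by_contra hcon
  push Not at hcon
  have hxΩ : x ∈ Ω := by
    by_contra h
    exact absurd (h1 x h) (not_le.2 hcon)
  obtain ⟨m, hm, hmax⟩ := Finset.exists_max_image Ω u ⟨x, hxΩ⟩
  have hmB : B < u m := hcon.trans_le (hmax x hxΩ)
  have hall : ∀ y, u y ≤ u m := fun y => by
    by_cases hy : y ∈ Ω
    · exact hmax y hy
    · exact (h1 y hy).trans hmB.le
  obtain ⟨z, hz, hzmax⟩ := Finset.exists_max_image (Ω.filter (fun y => u y = u m)) (fun y => y.1)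
    ⟨m, by simp [hm]⟩
  rw [Finset.mem_filter] at hz
  have hL := h2 z hz.1
  unfold Lap at hL
  rw [sum_dirs, hz.2] at hL
  have t1 : cd w z (z + (-1, 0)) * (u (z + (-1, 0)) - u m) ≤ 0 :=
    mul_nonpos_of_nonneg_of_nonpos (cd_pos hw _ _).le (sub_nonpos.2 (hall _))
  have t2 : cd w z (z + (0, 1)) * (u (z + (0, 1)) - u m) ≤ 0 :=
    mul_nonpos_of_nonneg_of_nonpos (cd_pos hw _ _).le (sub_nonpos.2 (hall _))
  have t3 : cd w z (z + (0, -1)) * (u (z + (0, -1)) - u m) ≤ 0 :=
    mul_nonpos_of_nonneg_of_nonpos (cd_pos hw _ _).le (sub_nonpos.2 (hall _))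
  have t0 : 0 ≤ cd w z (z + (1, 0)) * (u (z + (1, 0)) - u m) := by linarith
  have t4 : u (z + (1, 0)) = u m := by
    refine le_antisymm (hall _) ?_
    have := nonneg_of_mul_nonneg_right t0 (cd_pos hw z (z + (1, 0)))
    linarith
  have t5 : z + (1, 0) ∈ Ω := by
    by_contra h
    have := h1 _ h
    rw [t4] at this
    linarith
  have t6 := hzmax (z + (1, 0)) (by rw [Finset.mem_filter]; exact ⟨t5, t4⟩)
  simp only [Prod.fst_add] at t6
  omega

theorem min_principle {w : ℤ → ℝ} (hw : ∀ l, 0 < w l) (Ω : Finset V) (u : V → ℝ) (B : ℝ)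
    (h1 : ∀ x, x ∉ Ω → B ≤ u x) (h2 : ∀ x ∈ Ω, Lap w u x ≤ 0) (x : V) : B ≤ u x := by
  have := max_principle hw Ω (fun y => - u y) (-B) (fun y hy => neg_le_neg (h1 y hy))
    (fun y hy => by rw [Lap_neg]; linarith [h2 y hy]) x
  linarith

/-- Solvability of the Dirichlet problem on finite sets. -/
theorem exists_harm {w : ℤ → ℝ} (hw : ∀ l, 0 < w l) (Ω : Finset V) (f : V → ℝ) :
    ∃ u : V → ℝ, (∀ x, x ∉ Ω → u x = f x) ∧ ∀ x ∈ Ω, Lap w u x = 0 := by
  classical
  let ext : (Ω → ℝ) → V → ℝ := fun v x => if h : x ∈ Ω then v ⟨x, h⟩ else 0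
  have ext_add : ∀ v v' : Ω → ℝ, ext (v + v') = fun x => ext v x + ext v' x := by
    intro v v'
    funext x
    simp only [ext]
    split_ifs <;> simp
  have ext_smul : ∀ (c : ℝ) (v : Ω → ℝ), ext (c • v) = fun x => c * ext v x := by
    intro c v
    funext x
    simp only [ext]
    split_ifs <;> simp
  let T : (Ω → ℝ) →ₗ[ℝ] (Ω → ℝ) :=
    { toFun := fun v x => Lap w (ext v) x
      map_add' := fun v v' => by
        funext x
        rw [ext_add, Lap_add]
        rfl
      map_smul' := fun c v => by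
        funext x
        rw [ext_smul, Lap_const_mul]
        rfl }
  have hinj : Function.Injective T := by
    rw [← LinearMap.ker_eq_bot, LinearMap.ker_eq_bot']
    intro v hv
    have hv' : ∀ x ∈ Ω, Lap w (ext v) x = 0 := fun x hx => congrFun hv ⟨x, hx⟩
    have h0 : ∀ x, x ∉ Ω → ext v x = 0 := fun x hx => by simp only [ext, dif_neg hx]
    funext x
    have e1 := max_principle hw Ω (ext v) 0 (fun y hy => (h0 y hy).le)
      (fun y hy => (hv' y hy).ge) x
    have e2 := min_principle hw Ω (ext v) 0 (fun y hy => (h0 y hy).ge)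
      (fun y hy => (hv' y hy).le) x
    have e3 : ext v x = v x := by
      simp only [ext, dif_pos x.2]
    rw [← e3]
    exact le_antisymm e1 e2
  have hsurj : Function.Surjective T := LinearMap.injective_iff_surjective.1 hinj
  obtain ⟨v, hv⟩ := hsurj (fun x => - Lap w (fun y => if y ∈ Ω then 0 else f y) x)
  refine ⟨fun y => (if y ∈ Ω then 0 else f y) + ext v y, ?_, ?_⟩
  · intro x hx
    simp only [ext, dif_neg hx, if_neg hx, add_zero]
  · intro x hx
    rw [Lap_add]
    have := congrFun hv ⟨x, hx⟩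
    simp only [T, LinearMap.coe_mk, AddHom.coe_mk] at this
    rw [this]
    ring

/-- The open annulus between levels `a` and `b`. -/
noncomputable def ann (a b : ℤ) : Finset V := (box b).filter (fun x => a < lev x ∧ lev x < b)

theorem mem_ann {a b : ℤ} {x : V} : x ∈ ann a b ↔ a < lev x ∧ lev x < b := by
  simp only [ann, Finset.mem_filter, mem_box]
  exact ⟨fun h => h.2, fun h => ⟨h.2.le, h⟩⟩

/-- Harmonic function on the annulus, `0` inside and `1` outside. -/
theorem exists_hfun {w : ℤ → ℝ} (hw : ∀ l, 0 < w l) (a b : ℤ) (hab : a < b) :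
    ∃ h : V → ℝ, (∀ x, lev x ≤ a → h x = 0) ∧ (∀ x, b ≤ lev x → h x = 1) ∧
      (∀ x, a < lev x → lev x < b → Lap w h x = 0) ∧ (∀ x, 0 ≤ h x) ∧ (∀ x, h x ≤ 1) := by
  obtain ⟨u, hu1, hu2⟩ := exists_harm hw (ann a b) (fun x => if b ≤ lev x then 1 else 0)
  have k0 : ∀ x, lev x ≤ a → u x = 0 := fun x hx => by
    rw [hu1 x (by rw [mem_ann]; omega), if_neg (by omega)]
  have k1 : ∀ x, b ≤ lev x → u x = 1 := fun x hx => by
    rw [hu1 x (by rw [mem_ann]; omega), if_pos hx]
  have kk : ∀ x, x ∉ ann a b → u x = 0 ∨ u x = 1 := fun x hx => by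
    rw [mem_ann] at hx
    by_cases h : lev x ≤ a
    · exact Or.inl (k0 x h)
    · exact Or.inr (k1 x (by omega))
  refine ⟨u, k0, k1, fun x h1 h2 => hu2 x (mem_ann.2 ⟨h1, h2⟩), fun x => ?_, fun x => ?_⟩
  · exact min_principle hw (ann a b) u 0 (fun y hy => by rcases kk y hy with h | h <;> (rw [h]; try norm_num))
      (fun y hy => (hu2 y hy).le) x
  · exact max_principle hw (ann a b) u 1 (fun y hy => by rcases kk y hy with h | h <;> (rw [h]; try norm_num))
      (fun y hy => (hu2 y hy).ge) x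

open Classical in
/-- The harmonic function on the annulus `a < lev < b` with value `0` inside, `1` outside. -/
noncomputable def hfun (w : ℤ → ℝ) (a b : ℤ) : V → ℝ :=
  if h : (∀ l, 0 < w l) ∧ a < b then Classical.choose (exists_hfun h.1 a b h.2) else 0

section hfun
variable {w : ℤ → ℝ} (hw : ∀ l, 0 < w l) {a b : ℤ} (hab : a < b)
include hw hab

theorem hfun_spec : (∀ x, lev x ≤ a → hfun w a b x = 0) ∧ (∀ x, b ≤ lev x → hfun w a b x = 1) ∧
      (∀ x, a < lev x → lev x < b → Lap w (hfun w a b) x = 0) ∧ (∀ x, 0 ≤ hfun w a b x) ∧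
      (∀ x, hfun w a b x ≤ 1) := by
  have h : (∀ l, 0 < w l) ∧ a < b := ⟨hw, hab⟩
  unfold hfun
  rw [dif_pos h]
  exact Classical.choose_spec (exists_hfun h.1 a b h.2)

theorem hfun_in {x : V} (hx : lev x ≤ a) : hfun w a b x = 0 := (hfun_spec hw hab).1 x hx
theorem hfun_out {x : V} (hx : b ≤ lev x) : hfun w a b x = 1 := (hfun_spec hw hab).2.1 x hx
theorem hfun_harm {x : V} (h1 : a < lev x) (h2 : lev x < b) : Lap w (hfun w a b) x = 0 :=
  (hfun_spec hw hab).2.2.1 x h1 h2
theorem hfun_nonneg (x : V) : 0 ≤ hfun w a b x := (hfun_spec hw hab).2.2.2.1 x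
theorem hfun_le_one (x : V) : hfun w a b x ≤ 1 := (hfun_spec hw hab).2.2.2.2 x

theorem hfun_eq_one_of_neg (ha : a < 0) (x : V) : hfun w a b x = 1 := by
  refine le_antisymm (hfun_le_one hw hab x) ?_
  refine min_principle hw (ann a b) (hfun w a b) 1 (fun y hy => ?_) (fun y hy => ?_) x
  · rw [mem_ann] at hy
    have := lev_nonneg y
    rw [hfun_out hw hab (by omega)]
  · rw [mem_ann] at hy
    rw [hfun_harm hw hab hy.1 hy.2]

end hfun

/-- Effective conductance between the levels `a` and `b`. -/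
noncomputable def Ceff (w : ℤ → ℝ) (M a b : ℤ) : ℝ := DD w M (hfun w a b) (hfun w a b)

/-- Dirichlet principle. -/
theorem dirichlet {w : ℤ → ℝ} (hw : ∀ l, 0 < w l) {M a b : ℤ} (hab : a < b) (hM : b ≤ M)
    (f : V → ℝ) (h0 : ∀ x, lev x ≤ a → f x = 0) (h1 : ∀ x, b ≤ lev x → f x = 1) :
    DD w M (hfun w a b) (hfun w a b) ≤ DD w M f f := by
  have key : DD w M (hfun w a b) (fun x => f x - hfun w a b x) = 0 := by
    rw [DD_parts w M _ _ (fun x hx => by rw [h1 x (by omega), hfun_out hw hab (by omega), sub_self])]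
    rw [neg_eq_zero]
    refine Finset.sum_eq_zero (fun x _ => ?_)
    by_cases c1 : lev x ≤ a
    · rw [h0 x c1, hfun_in hw hab c1]
      ring
    · by_cases c2 : b ≤ lev x
      · rw [h1 x c2, hfun_out hw hab c2]
        ring
      · rw [hfun_harm hw hab (by omega) (by omega), mul_zero]
  have e1 : DD w M f f = DD w M (hfun w a b) (hfun w a b) +
      2 * DD w M (hfun w a b) (fun x => f x - hfun w a b x) +
      DD w M (fun x => f x - hfun w a b x) (fun x => f x - hfun w a b x) := by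
    rw [DD_sub_left, DD_sub_right, DD_sub_right, DD_comm w M f (hfun w a b)]
    ring
  rw [e1, key]
  have := DD_self_nonneg hw M (fun x => f x - hfun w a b x)
  linarith

/-- Orthogonality of the gradients of consecutive potentials. -/
theorem DD_hfun_orth {w : ℤ → ℝ} (hw : ∀ l, 0 < w l) {M a b c : ℤ} (hab : a < b) (hbc : b < c) :
    DD w M (hfun w a b) (hfun w b c) = 0 := by
  have key : ∀ e ∈ dirs, De w M e (hfun w a b) (hfun w b c) = 0 := by
    intro e he
    unfold De
    refine Finset.sum_eq_zero (fun x _ => ?_)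
    have h1 := lev_add_le (x := x) he
    have h2 := le_lev_add (x := x) he
    by_cases c1 : lev x ≤ b ∧ lev (x + e) ≤ b
    · rw [hfun_in hw hbc c1.1, hfun_in hw hbc c1.2]
      ring
    · rw [hfun_out hw hab (x := x) (by omega), hfun_out hw hab (x := x + e) (by omega)]
      ring
  unfold DD
  rw [key _ (by simp [dirs]), key _ (by simp [dirs]), add_zero]

/-- The ring function `lam`. -/
noncomputable def lam (w : ℤ → ℝ) (a b c : ℤ) (x : V) : ℝ := hfun w a b x - hfun w b c x

section lam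
variable {w : ℤ → ℝ} (hw : ∀ l, 0 < w l) {a b c : ℤ} (hab : a < b) (hbc : b < c)
include hw hab hbc

theorem lam_in {x : V} (hx : lev x ≤ a) : lam w a b c x = 0 := by
  unfold lam
  rw [hfun_in hw hab hx, hfun_in hw hbc (by omega), sub_zero]

theorem lam_out {x : V} (hx : c ≤ lev x) : lam w a b c x = 0 := by
  unfold lam
  rw [hfun_out hw hab (by omega), hfun_out hw hbc hx, sub_self]

theorem lam_ring {x : V} (hx : lev x = b) : lam w a b c x = 1 := by
  unfold lam
  rw [hfun_out hw hab hx.ge, hfun_in hw hbc hx.le, sub_zero]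

theorem lam_le_one (x : V) : lam w a b c x ≤ 1 := by
  unfold lam
  have := hfun_le_one hw hab x
  have := hfun_nonneg hw hbc x
  linarith

theorem lam_nonneg (x : V) : 0 ≤ lam w a b c x := by
  unfold lam
  by_cases h : lev x ≤ b
  · rw [hfun_in hw hbc h]
    have := hfun_nonneg hw hab x
    linarith
  · rw [hfun_out hw hab (by omega : b ≤ lev x)]
    have := hfun_le_one hw hbc x
    linarith

theorem Lap_lam_eq_zero {x : V} (h1 : a < lev x) (h2 : lev x < c) (h3 : lev x ≠ b) :
    Lap w (lam w a b c) x = 0 := by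
  have h : Lap w (lam w a b c) x = Lap w (hfun w a b) x - Lap w (hfun w b c) x :=
    Lap_sub w _ _ x
  rw [h]
  rcases lt_or_gt_of_ne h3 with h4 | h4
  · rw [hfun_harm hw hab h1 h4]
    have : Lap w (hfun w b c) x = 0 := by
      have : Lap w (hfun w b c) x = Lap w (fun _ => (0 : ℝ)) x :=
        Lap_congr (hfun_in hw hbc (by omega)) (fun e he => hfun_in hw hbc (by
          have := lev_add_le (x := x) he
          omega))
      rw [this]
      simp [Lap]
    rw [this, sub_zero]
  · rw [hfun_harm hw hbc h4 h2]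
    have : Lap w (hfun w a b) x = 0 := by
      have : Lap w (hfun w a b) x = Lap w (fun _ => (1 : ℝ)) x :=
        Lap_congr (hfun_out hw hab (by omega)) (fun e he => hfun_out hw hab (by
          have := le_lev_add (x := x) he
          omega))
      rw [this]
      simp [Lap]
    rw [this, sub_zero]

theorem Lap_lam_ring {x : V} (hx : lev x = b) : Lap w (lam w a b c) x ≤ 0 := by
  unfold Lap
  refine Finset.sum_nonpos (fun e _ => ?_)
  rw [lam_ring hw hab hbc hx]
  exact mul_nonpos_of_nonneg_of_nonpos (cd_pos hw _ _).le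
    (sub_nonpos.2 (lam_le_one hw hab hbc _))

theorem DD_lam {M : ℤ} :
    DD w M (lam w a b c) (lam w a b c) = Ceff w M a b + Ceff w M b c := by
  have h : DD w M (lam w a b c) (lam w a b c) =
      DD w M (hfun w a b) (hfun w a b) - DD w M (hfun w a b) (hfun w b c) -
      (DD w M (hfun w b c) (hfun w a b) - DD w M (hfun w b c) (hfun w b c)) := by
    have := DD_sub_left w M (hfun w a b) (hfun w b c) (lam w a b c)
    have h2 := DD_sub_right w M (hfun w a b) (hfun w b c) (hfun w a b)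
    have h3 := DD_sub_right w M (hfun w a b) (hfun w b c) (hfun w b c)
    unfold lam at *
    rw [this, h2, h3]
  rw [h, DD_comm w M (hfun w b c) (hfun w a b), DD_hfun_orth hw hab hbc]
  unfold Ceff
  ring

theorem DD_hfun_lam {M : ℤ} : DD w M (hfun w b c) (lam w a b c) = - Ceff w M b c := by
  have h3 := DD_sub_right w M (hfun w a b) (hfun w b c) (hfun w b c)
  unfold lam
  rw [h3, DD_comm w M (hfun w b c) (hfun w a b), DD_hfun_orth hw hab hbc]
  unfold Ceff
  ring

/-- Averaging against the ring: upper form. -/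
theorem ring_le {M : ℤ} (hM : c ≤ M) (v : V → ℝ) (hv : ∀ x, lev x ≤ a ∨ c ≤ lev x → v x = 0)
    (β : ℝ) (hβ : ∀ x, lev x = b → v x ≤ β) :
    DD w M v (lam w a b c) ≤ β * (Ceff w M a b + Ceff w M b c) := by
  have h1 : 0 ≤ DD w M (fun x => β * lam w a b c x - v x) (lam w a b c) := by
    rw [DD_comm, DD_parts w M _ _ (fun x hx => by
      rw [hv x (Or.inr (by omega)), lam_out hw hab hbc (by omega)]; ring)]
    rw [neg_nonneg]
    refine Finset.sum_nonpos (fun x _ => ?_)
    by_cases c1 : lev x = b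
    · have := hβ x c1
      refine mul_nonpos_of_nonneg_of_nonpos ?_ (Lap_lam_ring hw hab hbc c1)
      rw [lam_ring hw hab hbc c1]
      linarith
    · by_cases c2 : a < lev x ∧ lev x < c
      · rw [Lap_lam_eq_zero hw hab hbc c2.1 c2.2 c1, mul_zero]
      · rw [hv x (by omega)]
        have : lam w a b c x = 0 := by
          by_cases c3 : lev x ≤ a
          · exact lam_in hw hab hbc c3
          · exact lam_out hw hab hbc (by omega)
        rw [this]
        simp
  have h2 : DD w M (fun x => β * lam w a b c x - v x) (lam w a b c) =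
      β * DD w M (lam w a b c) (lam w a b c) - DD w M v (lam w a b c) := by
    rw [DD_sub_left, DD_const_mul_left]
  rw [h2, DD_lam hw hab hbc] at h1
  linarith

/-- Averaging against the ring: lower form. -/
theorem le_ring {M : ℤ} (hM : c ≤ M) (v : V → ℝ) (hv : ∀ x, lev x ≤ a ∨ c ≤ lev x → v x = 0)
    (β : ℝ) (hβ : ∀ x, lev x = b → β ≤ v x) :
    β * (Ceff w M a b + Ceff w M b c) ≤ DD w M v (lam w a b c) := by
  have h := ring_le hw hab hbc hM (fun x => - v x) (fun x hx => by rw [hv x hx, neg_zero]) (-β)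
    (fun x hx => neg_le_neg (hβ x hx))
  have h2 : DD w M (fun x => - v x) (lam w a b c) = - DD w M v (lam w a b c) := by
    have := DD_const_mul_left w M (-1) v (lam w a b c)
    simp only [neg_mul, one_mul] at this
    exact this
  rw [h2] at h
  linarith

/-- The escape probability through the outer ring, in the mean. -/
theorem DD_u_lam {M : ℤ} (hM : c ≤ M) :
    DD w M (fun x => hfun w a c x - hfun w b c x) (lam w a b c) = Ceff w M b c := by
  rw [DD_sub_left, DD_hfun_lam hw hab hbc]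
  have : DD w M (hfun w a c) (lam w a b c) = 0 := by
    rw [DD_parts w M _ _ (fun x hx => lam_out hw hab hbc (by omega)), neg_eq_zero]
    refine Finset.sum_eq_zero (fun x _ => ?_)
    by_cases c1 : lev x ≤ a
    · rw [lam_in hw hab hbc c1, zero_mul]
    · by_cases c2 : c ≤ lev x
      · rw [lam_out hw hab hbc c2, zero_mul]
      · rw [hfun_harm hw (by omega : a < c) (by omega) (by omega), mul_zero]
  rw [this]
  ring

end lam

/-- The potential of a single vertex. -/
theorem exists_gfun {w : ℤ → ℝ} (hw : ∀ l, 0 < w l) (a c : ℤ) (p : V) (hp1 : a < lev p)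
    (hp2 : lev p < c) :
    ∃ g : V → ℝ, g p = 1 ∧ (∀ x, lev x ≤ a ∨ c ≤ lev x → g x = 0) ∧
      (∀ x, a < lev x → lev x < c → x ≠ p → Lap w g x = 0) ∧ (∀ x, 0 ≤ g x) ∧
      (∀ x, g x ≤ 1) ∧ Lap w g p ≤ 0 := by
  obtain ⟨u, hu1, hu2⟩ := exists_harm hw ((ann a c).erase p) (fun x => if x = p then 1 else 0)
  have k0 : ∀ x, lev x ≤ a ∨ c ≤ lev x → u x = 0 := fun x hx => by
    rw [hu1 x (by rw [Finset.mem_erase, mem_ann]; omega), if_neg (by rintro rfl; omega)]
  have k1 : u p = 1 := by
    rw [hu1 p (by simp), if_pos rfl]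
  have kk : ∀ x, x ∉ (ann a c).erase p → u x = 0 ∨ u x = 1 := fun x hx => by
    by_cases hxp : x = p
    · right
      rw [hxp, k1]
    · left
      rw [Finset.mem_erase, mem_ann] at hx
      exact k0 x (by by_contra h; exact hx ⟨hxp, by omega, by omega⟩)
  have kn : ∀ x, 0 ≤ u x := fun x =>
    min_principle hw _ u 0 (fun y hy => by rcases kk y hy with h | h <;> (rw [h]; try norm_num))
      (fun y hy => (hu2 y hy).le) x
  have kl : ∀ x, u x ≤ 1 := fun x =>
    max_principle hw _ u 1 (fun y hy => by rcases kk y hy with h | h <;> (rw [h]; try norm_num))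
      (fun y hy => (hu2 y hy).ge) x
  refine ⟨u, k1, k0, fun x h1 h2 h3 => hu2 x (by
    rw [Finset.mem_erase, mem_ann]; exact ⟨h3, h1, h2⟩), kn, kl, ?_⟩
  unfold Lap
  refine Finset.sum_nonpos (fun e _ => ?_)
  rw [k1]
  exact mul_nonpos_of_nonneg_of_nonpos (cd_pos hw _ _).le (sub_nonpos.2 (kl _))

/-- Reciprocity for the potential of a vertex. -/
theorem gfun_recip {w : ℤ → ℝ} {a c M : ℤ} {p : V}
    (hp2 : lev p < c) (hM : c ≤ M) {g : V → ℝ}
    (hg1 : g p = 1) (hg0 : ∀ x, lev x ≤ a ∨ c ≤ lev x → g x = 0)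
    (hgh : ∀ x, a < lev x → lev x < c → x ≠ p → Lap w g x = 0) (l : V → ℝ)
    (hl : ∀ x, lev x ≤ a ∨ c ≤ lev x → l x = 0) :
    DD w M g l = l p * DD w M g g := by
  have hb : p ∈ box M := mem_box.2 (by omega)
  have key : ∀ l : V → ℝ, (∀ x, lev x ≤ a ∨ c ≤ lev x → l x = 0) →
      DD w M g l = - (l p * Lap w g p) := by
    intro l hl
    rw [DD_parts w M _ _ (fun x hx => hl x (Or.inr (by omega)))]
    congr 1
    refine Finset.sum_eq_single_of_mem p hb (fun x _ hxp => ?_)
    by_cases c1 : a < lev x ∧ lev x < c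
    · rw [hgh x c1.1 c1.2 hxp, mul_zero]
    · rw [hl x (by omega), zero_mul]
  rw [key l hl, key g hg0, hg1]
  ring

end Pool.Agent.Lib.MP_e14847_pr
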