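import Mathlib
import Pool.Agent.Lib.MP_e14847_pr.Pot

open Finset MeasureTheory
open scoped ENNReal

namespace Pool.Agent.Lib.MP_e14847_pr

/-- Total conductance at a vertex. -/
noncomputable def piw (w : ℤ → ℝ) (x : V) : ℝ := ∑ e ∈ dirs, cd w x (x + e)

theorem piw_pos {w : ℤ → ℝ} (hw : ∀ l, 0 < w l) (x : V) : 0 < piw w x :=
  Finset.sum_pos (fun _ _ => cd_pos hw _ _) ⟨(1, 0), by simp [dirs]⟩

/-- Transition probabilities of the network walk. -/
noncomputable def Pk (w : ℤ → ℝ) (x y : V) : ℝ :=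
  if y - x ∈ dirs then cd w x y / piw w x else 0

theorem Pk_nonneg {w : ℤ → ℝ} (hw : ∀ l, 0 < w l) (x y : V) : 0 ≤ Pk w x y := by
  unfold Pk
  split_ifs
  · exact div_nonneg (cd_pos hw _ _).le (piw_pos hw _).le
  · exact le_rfl

/-- `X` is a Markov chain with transition probabilities `P` started at `x0`. -/
structure IsChain (P : V → V → ℝ) (x0 : V) {Ω : Type} [MeasurableSpace Ω] (μ : Measure Ω)
    (X : ℕ → Ω → V) : Prop where
  prob : IsProbabilityMeasure μ
  meas : ∀ n, Measurable (X n)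
  start : ∀ᵐ ω ∂μ, X 0 ω = x0
  markov : ∀ (n : ℕ) (h : ℕ → V) (y : V),
    μ {ω | (∀ i ≤ n, X i ω = h i) ∧ X (n + 1) ω = y} =
      μ {ω | ∀ i ≤ n, X i ω = h i} * ENNReal.ofReal (P (h n) y)

section chain
variable {P : V → V → ℝ} {x0 : V} {Ω : Type} [MeasurableSpace Ω] {μ : Measure Ω}
  {X : ℕ → Ω → V}

/-- The history up to time `n`. -/
def hist (X : ℕ → Ω → V) (n : ℕ) (ω : Ω) : Fin (n + 1) → V := fun i => X i ω

theorem IsChain.hist_meas (hX : IsChain P x0 μ X) (n : ℕ) : Measurable (hist X n) :=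
  measurable_pi_lambda _ (fun i => hX.meas i)

/-- One step of the chain, integrated. -/
theorem IsChain.lintegral_next (hX : IsChain P x0 μ X) (n : ℕ)
    (Φ : (Fin (n + 1) → V) → V → ℝ≥0∞) :
    ∫⁻ ω, Φ (hist X n ω) (X (n + 1) ω) ∂μ =
      ∫⁻ ω, ∑' y, ENNReal.ofReal (P (X n ω) y) * Φ (hist X n ω) y ∂μ := by
  have hm := hX.hist_meas n
  have hpair : Measurable (fun ω => (hist X n ω, X (n + 1) ω)) := hm.prodMk (hX.meas (n + 1))
  have e1 : ∫⁻ ω, Φ (hist X n ω) (X (n + 1) ω) ∂μ =
      ∫⁻ z, Φ z.1 z.2 ∂(μ.map (fun ω => (hist X n ω, X (n + 1) ω))) := by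
    rw [lintegral_map (measurable_of_countable _) hpair]
  have e2 : ∫⁻ ω, ∑' y, ENNReal.ofReal (P (X n ω) y) * Φ (hist X n ω) y ∂μ =
      ∫⁻ h, ∑' y, ENNReal.ofReal (P (h (Fin.last n)) y) * Φ h y ∂(μ.map (hist X n)) := by
    rw [lintegral_map (measurable_of_countable _) hm]
    rfl
  rw [e1, e2, lintegral_countable', lintegral_countable', ENNReal.tsum_prod']
  refine tsum_congr (fun h => ?_)
  rw [← ENNReal.tsum_mul_right]
  refine tsum_congr (fun y => ?_)
  rw [Measure.map_apply hpair (measurableSet_singleton _), Measure.map_apply hm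
    (measurableSet_singleton _)]
  set h' : ℕ → V := fun i => if hi : i < n + 1 then h ⟨i, hi⟩ else 0 with hh'
  have hset : ∀ ω, hist X n ω = h ↔ ∀ i ≤ n, X i ω = h' i := by
    intro ω
    constructor
    · intro hω i hi
      simp only [hh', dif_pos (by omega : i < n + 1)]
      rw [← hω]
      rfl
    · intro hω
      funext i
      have := hω i (by omega)
      simp only [hh', dif_pos i.2] at this
      exact this
  have hn : h' n = h (Fin.last n) := by
    simp only [hh', dif_pos (Nat.lt_succ_self n)]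
    rfl
  have s1 : (fun ω => (hist X n ω, X (n + 1) ω)) ⁻¹' {(h, y)} =
      {ω | (∀ i ≤ n, X i ω = h' i) ∧ X (n + 1) ω = y} := by
    ext ω
    simp only [Set.mem_preimage, Set.mem_singleton_iff, Prod.mk.injEq, hset, Set.mem_ofPred_eq]
  have s2 : hist X n ⁻¹' {h} = {ω | ∀ i ≤ n, X i ω = h' i} := by
    ext ω
    simp only [Set.mem_preimage, Set.mem_singleton_iff, hset, Set.mem_ofPred_eq]
  rw [s1, s2, hX.markov n h' y, hn]
  ring

end chain

/-- State of a finite automaton reading a path. -/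
def st {S : Type} (U : S → V → V → S) (s0 : S) (x : ℕ → V) : ℕ → S
  | 0 => s0
  | (n + 1) => U (st U s0 x n) (x n) (x (n + 1))

theorem st_congr {S : Type} (U : S → V → V → S) (s0 : S) (x x' : ℕ → V) (n : ℕ)
    (h : ∀ i ≤ n, x i = x' i) : st U s0 x n = st U s0 x' n := by
  induction n with
  | zero => rfl
  | succ n ih =>
    simp only [st]
    rw [ih (fun i hi => h i (by omega)), h n (by omega), h (n + 1) le_rfl]

section net
variable {w : ℤ → ℝ} {x0 : V} {Ω : Type} [MeasurableSpace Ω] {μ : Measure Ω} {X : ℕ → Ω → V}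

theorem IsChain.steps (hX : IsChain (Pk w) x0 μ X) :
    ∀ᵐ ω ∂μ, X 0 ω = x0 ∧ ∀ n, X (n + 1) ω - X n ω ∈ dirs := by
  refine hX.start.and (ae_all_iff.2 (fun n => ?_))
  have h := hX.lintegral_next n (fun h y => if y - h (Fin.last n) ∈ dirs then 0 else 1)
  have h2 : ∫⁻ ω, ∑' y, ENNReal.ofReal (Pk w (X n ω) y) *
      (if y - hist X n ω (Fin.last n) ∈ dirs then 0 else 1) ∂μ = 0 := by
    have : ∀ ω, ∑' y, ENNReal.ofReal (Pk w (X n ω) y) *
      (if y - hist X n ω (Fin.last n) ∈ dirs then 0 else 1) = (0 : ℝ≥0∞) := by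
      intro ω
      refine ENNReal.tsum_eq_zero.2 (fun y => ?_)
      have e : hist X n ω (Fin.last n) = X n ω := rfl
      rw [e]
      by_cases c : y - X n ω ∈ dirs
      · rw [if_pos c, mul_zero]
      · unfold Pk
        rw [if_neg c]
        simp
    simp only [this, lintegral_zero]
  rw [h2] at h
  have hm : Measurable (fun ω => (if X (n + 1) ω - hist X n ω (Fin.last n) ∈ dirs then 0
      else 1 : ℝ≥0∞)) := by
    have : Measurable (fun z : V × V => (if z.2 - z.1 ∈ dirs then 0 else 1 : ℝ≥0∞)) :=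
      measurable_of_countable _
    exact this.comp ((hX.meas n).prodMk (hX.meas (n + 1)))
  have h3 := (lintegral_eq_zero_iff hm).1 h
  filter_upwards [h3] with ω hω
  by_contra hcon
  have e : hist X n ω (Fin.last n) = X n ω := rfl
  rw [e] at hω
  simp only [Pi.zero_apply] at hω
  rw [if_neg hcon] at hω
  exact one_ne_zero hω

theorem tsum_Pk (hw : ∀ l, 0 < w l) (x : V) (f : V → ℝ) (hf : ∀ y, 0 ≤ f y) :
    ∑' y, ENNReal.ofReal (Pk w x y) * ENNReal.ofReal (f y) =
      ENNReal.ofReal ((∑ e ∈ dirs, cd w x (x + e) * f (x + e)) / piw w x) := by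
  rw [tsum_eq_sum (s := dirs.image (fun e => x + e)) (fun y hy => ?_)]
  · rw [Finset.sum_image (fun a _ b _ hab => add_left_cancel hab), Finset.sum_div,
      ENNReal.ofReal_sum_of_nonneg (fun e _ => div_nonneg (mul_nonneg (cd_pos hw _ _).le (hf _))
        (piw_pos hw _).le)]
    refine Finset.sum_congr rfl (fun e he => ?_)
    rw [← ENNReal.ofReal_mul (Pk_nonneg hw _ _)]
    congr 1
    unfold Pk
    rw [add_sub_cancel_left, if_pos he]
    ring
  · have : ¬ (y - x ∈ dirs) := fun h => hy (Finset.mem_image.2 ⟨y - x, h, by ring⟩)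
    unfold Pk
    rw [if_neg this]
    simp

/-- Supermartingale inequality with cost, for automata reading the path. -/
theorem IsChain.super (hw : ∀ l, 0 < w l) (hX : IsChain (Pk w) x0 μ X) {S : Type}
    (U : S → V → V → S) (s0 : S) (Inv : V → S → Prop) (φ c : V → S → ℝ)
    (hφ : ∀ x s, 0 ≤ φ x s) (hc : ∀ x s, 0 ≤ c x s) (hI0 : Inv x0 s0)
    (hI : ∀ x s, Inv x s → ∀ e ∈ dirs, Inv (x + e) (U s x (x + e)))
    (hsup : ∀ x s, Inv x s → ∑ e ∈ dirs, cd w x (x + e) * φ (x + e) (U s x (x + e)) ≤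
      piw w x * (φ x s - c x s)) (n : ℕ) :
    ∫⁻ ω, ENNReal.ofReal (φ (X n ω) (st U s0 (fun i => X i ω) n)) ∂μ +
      ∑ j ∈ range n, ∫⁻ ω, ENNReal.ofReal (c (X j ω) (st U s0 (fun i => X i ω) j)) ∂μ ≤
      ENNReal.ofReal (φ x0 s0) := by
  have hinv : ∀ᵐ ω ∂μ, X 0 ω = x0 ∧ ∀ n, Inv (X n ω) (st U s0 (fun i => X i ω) n) := by
    filter_upwards [hX.steps] with ω hω
    refine ⟨hω.1, fun n => ?_⟩
    induction n with
    | zero =>
      simp only [st]
      rw [hω.1]
      exact hI0
    | succ n ih =>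
      have := hI _ _ ih _ (hω.2 n)
      rw [show X n ω + (X (n + 1) ω - X n ω) = X (n + 1) ω by ring] at this
      exact this
  induction n with
  | zero =>
    simp only [range_zero, sum_empty, add_zero]
    have := hX.prob
    calc ∫⁻ ω, ENNReal.ofReal (φ (X 0 ω) (st U s0 (fun i => X i ω) 0)) ∂μ
        = ∫⁻ _, ENNReal.ofReal (φ x0 s0) ∂μ := by
          refine lintegral_congr_ae ?_
          filter_upwards [hinv] with ω hω
          simp only [st]
          rw [hω.1]
      _ = ENNReal.ofReal (φ x0 s0) := by simp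
      _ ≤ _ := le_rfl
  | succ n ih =>
    refine le_trans ?_ ih
    rw [Finset.sum_range_succ, ← add_assoc, add_right_comm]
    refine add_le_add_left ?_ _
    -- rewrite the next expectation
    let ext : (Fin (n + 1) → V) → ℕ → V := fun h i => if hi : i < n + 1 then h ⟨i, hi⟩ else 0
    have hext : ∀ ω i, i ≤ n → ext (hist X n ω) i = X i ω := by
      intro ω i hi
      simp only [ext, dif_pos (by omega : i < n + 1)]
      rfl
    have hst : ∀ ω, st U s0 (ext (hist X n ω)) n = st U s0 (fun i => X i ω) n :=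
      fun ω => st_congr U s0 _ _ n (fun i hi => hext ω i hi)
    have e1 := hX.lintegral_next n (fun h y => ENNReal.ofReal (φ y
      (U (st U s0 (ext h) n) (ext h n) y)))
    have e2 : ∫⁻ ω, ENNReal.ofReal (φ (X (n + 1) ω) (st U s0 (fun i => X i ω) (n + 1))) ∂μ =
        ∫⁻ ω, ENNReal.ofReal (φ (X (n + 1) ω)
      (U (st U s0 (ext (hist X n ω)) n) (ext (hist X n ω) n) (X (n + 1) ω))) ∂μ := by
      refine lintegral_congr (fun ω => ?_)
      rw [hst, hext ω n le_rfl]
      rfl
    rw [e2, e1]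
    have hcm : Measurable (fun ω => ENNReal.ofReal (c (X n ω) (st U s0 (fun i => X i ω) n))) := by
      have : (fun ω => ENNReal.ofReal (c (X n ω) (st U s0 (fun i => X i ω) n))) =
          (fun h : Fin (n + 1) → V => ENNReal.ofReal (c (ext h n) (st U s0 (ext h) n))) ∘
            hist X n := by
        funext ω
        simp only [Function.comp]
        rw [hst, hext ω n le_rfl]
      rw [this]
      exact (measurable_of_countable _).comp (hX.hist_meas n)
    rw [← lintegral_add_right _ hcm]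
    refine lintegral_mono_ae ?_
    filter_upwards [hinv] with ω hω
    rw [hst, hext ω n le_rfl]
    set s := st U s0 (fun i => X i ω) n
    have hs := hsup (X n ω) s (hω.2 n)
    rw [tsum_Pk hw (X n ω) (fun y => φ y (U s (X n ω) y)) (fun y => hφ _ _),
      ← ENNReal.ofReal_add (div_nonneg (Finset.sum_nonneg (fun e _ =>
        mul_nonneg (cd_pos hw _ _).le (hφ _ _))) (piw_pos hw _).le) (hc _ _)]
    refine ENNReal.ofReal_le_ofReal ?_
    have hp := piw_pos hw (X n ω)
    have : (∑ e ∈ dirs, cd w (X n ω) (X n ω + e) * φ (X n ω + e) (U s (X n ω) (X n ω + e))) /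
        piw w (X n ω) ≤ φ (X n ω) s - c (X n ω) s := by
      rw [div_le_iff₀ hp]
      linarith
    linarith

/-- Measurability of events depending on the state at time `n`. -/
theorem IsChain.measurable_st (hX : IsChain (Pk w) x0 μ X) {S : Type}
    (U : S → V → V → S) (s0 : S) (n : ℕ) (A : V → S → Prop) :
    MeasurableSet {ω | A (X n ω) (st U s0 (fun i => X i ω) n)} := by
  let ext : (Fin (n + 1) → V) → ℕ → V := fun h i => if hi : i < n + 1 then h ⟨i, hi⟩ else 0
  have hext : ∀ ω i, i ≤ n → ext (hist X n ω) i = X i ω := by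
    intro ω i hi
    simp only [ext, dif_pos (by omega : i < n + 1)]
    rfl
  have hst : ∀ ω, st U s0 (ext (hist X n ω)) n = st U s0 (fun i => X i ω) n :=
    fun ω => st_congr U s0 _ _ n (fun i hi => hext ω i hi)
  have : {ω | A (X n ω) (st U s0 (fun i => X i ω) n)} =
      hist X n ⁻¹' {h | A (ext h n) (st U s0 (ext h) n)} := by
    ext ω
    simp only [Set.mem_ofPred_eq, Set.mem_preimage]
    rw [hst, hext ω n le_rfl]
  rw [this]
  exact hX.hist_meas n (Set.to_countable _).measurableSet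

/-- Probability that the automaton is in a set where `φ ≥ 1`. -/
theorem IsChain.prob_le (hw : ∀ l, 0 < w l) (hX : IsChain (Pk w) x0 μ X) {S : Type}
    (U : S → V → V → S) (s0 : S) (Inv : V → S → Prop) (φ : V → S → ℝ)
    (hφ : ∀ x s, 0 ≤ φ x s) (hI0 : Inv x0 s0)
    (hI : ∀ x s, Inv x s → ∀ e ∈ dirs, Inv (x + e) (U s x (x + e)))
    (hsup : ∀ x s, Inv x s → ∑ e ∈ dirs, cd w x (x + e) * φ (x + e) (U s x (x + e)) ≤
      piw w x * φ x s) (A : V → S → Prop) (hA : ∀ x s, A x s → 1 ≤ φ x s) (n : ℕ) :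
    μ {ω | A (X n ω) (st U s0 (fun i => X i ω) n)} ≤ ENNReal.ofReal (φ x0 s0) := by
  have h := hX.super hw U s0 Inv φ (fun _ _ => 0) hφ (fun _ _ => le_rfl) hI0 hI
    (fun x s hx => by rw [sub_zero]; exact hsup x s hx) n
  refine le_trans ?_ ((le_add_right le_rfl).trans h)
  rw [← lintegral_indicator_one (hX.measurable_st U s0 n A)]
  refine lintegral_mono (fun ω => ?_)
  by_cases hω : A (X n ω) (st U s0 (fun i => X i ω) n)
  · rw [Set.indicator_of_mem (by exact hω)]
    simp only [Pi.one_apply]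
    rw [← ENNReal.ofReal_one]
    exact ENNReal.ofReal_le_ofReal (hA _ _ hω)
  · rw [Set.indicator_of_notMem (by exact hω)]
    exact zero_le

end net

end Pool.Agent.Lib.MP_e14847_pr
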