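import Mathlib

open Finset

namespace Pool.Agent.Lib.MP_e14847_pr

/-- Negative binomial weights: number of failures before the `u`-th success, success
probability `p`. -/
noncomputable def nb (p : ℝ) : ℕ → ℕ → ℝ
  | 0, 0 => 1
  | 0, (_ + 1) => 0
  | (u + 1), 0 => p * nb p u 0
  | (u + 1), (d + 1) => p * nb p u (d + 1) + (1 - p) * nb p (u + 1) d

section nb
variable {p : ℝ}

theorem nb_zero_zero : nb p 0 0 = 1 := by rw [nb]
theorem nb_zero_succ (d : ℕ) : nb p 0 (d + 1) = 0 := by rw [nb]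
theorem nb_succ_zero (u : ℕ) : nb p (u + 1) 0 = p * nb p u 0 := by rw [nb]
theorem nb_succ_succ (u d : ℕ) :
    nb p (u + 1) (d + 1) = p * nb p u (d + 1) + (1 - p) * nb p (u + 1) d := by rw [nb]

variable (h0 : 0 < p) (h1 : p ≤ 1)
include h0 h1

theorem nb_nonneg (u d : ℕ) : 0 ≤ nb p u d := by
  induction u generalizing d with
  | zero =>
    cases d with
    | zero => rw [nb_zero_zero]; norm_num
    | succ d => rw [nb_zero_succ]
  | succ u ih =>
    induction d with
    | zero => rw [nb_succ_zero]; exact mul_nonneg h0.le (ih 0)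
    | succ d ihd =>
      rw [nb_succ_succ]
      exact add_nonneg (mul_nonneg h0.le (ih _)) (mul_nonneg (by linarith) ihd)

/-- Summability against the weights `d + 1`. -/
theorem nb_summable_aux (u : ℕ) : Summable (fun d => nb p u d) ∧
    Summable (fun d => nb p u d * ((d : ℝ) + 1)) := by
  induction u with
  | zero =>
    constructor
    · refine summable_of_ne_finset_zero (s := {0}) (fun d hd => ?_)
      cases d with
      | zero => simp at hd
      | succ d => exact nb_zero_succ d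
    · refine summable_of_ne_finset_zero (s := {0}) (fun d hd => ?_)
      cases d with
      | zero => simp at hd
      | succ d => rw [nb_zero_succ, zero_mul]
  | succ u ih =>
    have hS : Summable (fun d => nb p (u + 1) d) := by
      refine summable_of_sum_range_le (c := ∑' d, nb p u d) (fun d => nb_nonneg h0 h1 _ _) ?_
      intro n
      induction n with
      | zero => simpa using tsum_nonneg (fun d => nb_nonneg h0 h1 u d)
      | succ n ihn =>
        rw [Finset.sum_range_succ']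
        have e : ∑ i ∈ range n, nb p (u + 1) (i + 1) + nb p (u + 1) 0 =
            p * (∑ i ∈ range (n + 1), nb p u i) + (1 - p) * ∑ i ∈ range n, nb p (u + 1) i := by
          rw [Finset.sum_range_succ' _ n, nb_succ_zero, Finset.mul_sum, mul_add, Finset.mul_sum]
          rw [Finset.sum_congr rfl (fun i _ => nb_succ_succ u i), Finset.sum_add_distrib]
          ring
        rw [e]
        have l1 : ∑ i ∈ range (n + 1), nb p u i ≤ ∑' d, nb p u d :=
          ih.1.sum_le_tsum _ (fun i _ => nb_nonneg h0 h1 _ _)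
        have l2 := mul_le_mul_of_nonneg_left l1 h0.le
        have l3 := mul_le_mul_of_nonneg_left ihn (by linarith : (0:ℝ) ≤ 1 - p)
        linarith
    refine ⟨hS, ?_⟩
    set A := ∑' d, nb p u d * ((d : ℝ) + 1) with hA
    set B := ∑' d, nb p (u + 1) d with hB
    have hA0 : 0 ≤ A := tsum_nonneg (fun d => mul_nonneg (nb_nonneg h0 h1 u d) (by positivity))
    have hB0 : 0 ≤ B := tsum_nonneg (fun d => nb_nonneg h0 h1 (u + 1) d)
    refine summable_of_sum_range_le (c := (p * A + (1 - p) * B) / p)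
      (fun d => mul_nonneg (nb_nonneg h0 h1 _ _) (by positivity)) ?_
    intro n
    induction n with
    | zero =>
      simp only [range_zero, sum_empty]
      have : (0:ℝ) ≤ 1 - p := by linarith
      positivity
    | succ n ihn =>
      rw [Finset.sum_range_succ']
      have e : ∑ i ∈ range n, nb p (u + 1) (i + 1) * (((i + 1 : ℕ) : ℝ) + 1) +
          nb p (u + 1) 0 * (((0 : ℕ) : ℝ) + 1) =
          p * (∑ i ∈ range (n + 1), nb p u i * ((i : ℝ) + 1)) +
          (1 - p) * (∑ i ∈ range n, nb p (u + 1) i * ((i : ℝ) + 1)) +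
          (1 - p) * ∑ i ∈ range n, nb p (u + 1) i := by
        have e1 : ∑ i ∈ range n, nb p (u + 1) (i + 1) * (((i + 1 : ℕ) : ℝ) + 1) =
            p * ∑ i ∈ range n, nb p u (i + 1) * (((i + 1 : ℕ) : ℝ) + 1) +
            (1 - p) * ∑ i ∈ range n, nb p (u + 1) i * ((i : ℝ) + 1) +
            (1 - p) * ∑ i ∈ range n, nb p (u + 1) i := by
          rw [Finset.mul_sum, Finset.mul_sum, Finset.mul_sum, ← Finset.sum_add_distrib,
            ← Finset.sum_add_distrib]
          refine Finset.sum_congr rfl (fun i _ => ?_)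
          rw [nb_succ_succ]
          push_cast
          ring
        rw [e1, Finset.sum_range_succ' _ n, nb_succ_zero]
        ring
      rw [e]
      have l1 : ∑ i ∈ range (n + 1), nb p u i * ((i : ℝ) + 1) ≤ A :=
        ih.2.sum_le_tsum _ (fun i _ => mul_nonneg (nb_nonneg h0 h1 _ _) (by positivity))
      have l4 : ∑ i ∈ range n, nb p (u + 1) i ≤ B :=
        hS.sum_le_tsum _ (fun i _ => nb_nonneg h0 h1 _ _)
      have l2 := mul_le_mul_of_nonneg_left l1 h0.le
      have l3 := mul_le_mul_of_nonneg_left ihn (by linarith : (0:ℝ) ≤ 1 - p)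
      have l5 := mul_le_mul_of_nonneg_left l4 (by linarith : (0:ℝ) ≤ 1 - p)
      have l6 : p * A + (1 - p) * ((p * A + (1 - p) * B) / p) + (1 - p) * B =
          (p * A + (1 - p) * B) / p := by
        field_simp
        ring
      linarith

/-- At most linear growth. -/
def Gr (g : ℕ → ℝ) : Prop := ∃ C, ∀ d : ℕ, |g d| ≤ C * ((d : ℝ) + 1)

theorem nb_summable {g : ℕ → ℝ} (hg : Gr g) (u : ℕ) : Summable (fun d => nb p u d * g d) := by
  obtain ⟨C, hC⟩ := hg
  refine Summable.of_norm_bounded (g := fun d => C * (nb p u d * ((d : ℝ) + 1)))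
    ((nb_summable_aux h0 h1 u).2.mul_left C) (fun d => ?_)
  rw [Real.norm_eq_abs, abs_mul, abs_of_nonneg (nb_nonneg h0 h1 u d)]
  have := mul_le_mul_of_nonneg_left (hC d) (nb_nonneg h0 h1 u d)
  linarith

omit h0 h1 in
theorem Gr.succ {g : ℕ → ℝ} (hg : Gr g) : Gr (fun d => g (d + 1)) := by
  obtain ⟨C, hC⟩ := hg
  refine ⟨2 * C, fun d => (hC (d + 1)).trans ?_⟩
  have hC0 : 0 ≤ C := by
    have := (abs_nonneg _).trans (hC 0)
    simpa using this
  push_cast
  nlinarith [mul_nonneg hC0 (Nat.cast_nonneg (α := ℝ) d)]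

omit h0 h1 in
theorem Gr.const (c : ℝ) : Gr (fun _ => c) :=
  ⟨|c|, fun d => by
    have : |c| * 1 ≤ |c| * ((d : ℝ) + 1) := mul_le_mul_of_nonneg_left (by
      have := Nat.cast_nonneg (α := ℝ) d
      linarith) (abs_nonneg c)
    linarith⟩

omit h0 h1 in
theorem Gr.add {g g' : ℕ → ℝ} (hg : Gr g) (hg' : Gr g') : Gr (fun d => g d + g' d) := by
  obtain ⟨C, hC⟩ := hg
  obtain ⟨C', hC'⟩ := hg'
  refine ⟨C + C', fun d => ?_⟩
  have := abs_add_le (g d) (g' d)
  have := hC d
  have := hC' d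
  linarith

omit h0 h1 in
theorem Gr.mul_const {g : ℕ → ℝ} (hg : Gr g) (c : ℝ) : Gr (fun d => c * g d) := by
  obtain ⟨C, hC⟩ := hg
  refine ⟨|c| * C, fun d => ?_⟩
  rw [abs_mul, mul_assoc]
  exact mul_le_mul_of_nonneg_left (hC d) (abs_nonneg c)

omit h0 h1 in
theorem Gr.lin : Gr (fun d => (d : ℝ) + 1) :=
  ⟨1, fun d => by rw [one_mul, abs_of_nonneg (by positivity)]⟩

omit h0 h1 in
theorem Gr.of_bdd {g : ℕ → ℝ} (hg0 : ∀ d, 0 ≤ g d) (hg1 : ∀ d, g d ≤ 1) : Gr g :=
  ⟨1, fun d => by
    rw [abs_of_nonneg (hg0 d)]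
    have := hg1 d
    have := Nat.cast_nonneg (α := ℝ) d
    linarith⟩

end nb

/-- Expectation under the negative binomial law. -/
noncomputable def NB (p : ℝ) (u : ℕ) (g : ℕ → ℝ) : ℝ := ∑' d, nb p u d * g d

theorem NB_zero (p : ℝ) (g : ℕ → ℝ) : NB p 0 g = g 0 := by
  unfold NB
  rw [tsum_eq_single 0 (fun d hd => ?_), nb_zero_zero, one_mul]
  cases d with
  | zero => exact absurd rfl hd
  | succ d => rw [nb_zero_succ, zero_mul]

section NB
variable {p : ℝ} (h0 : 0 < p) (h1 : p ≤ 1)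
include h0 h1

theorem NB_rec {g : ℕ → ℝ} (hg : Gr g) (u : ℕ) :
    NB p (u + 1) g = p * NB p u g + (1 - p) * NB p (u + 1) (fun d => g (d + 1)) := by
  unfold NB
  have s1 := nb_summable h0 h1 hg (u + 1)
  have s2 := nb_summable h0 h1 hg u
  have s3 := nb_summable h0 h1 hg.succ (u + 1)
  rw [s1.tsum_eq_zero_add, s2.tsum_eq_zero_add, nb_succ_zero, mul_add, ← tsum_mul_left,
    ← tsum_mul_left]
  have s4 := (summable_nat_add_iff 1).2 s2
  have e : ∑' d, nb p (u + 1) (d + 1) * g (d + 1) =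
      ∑' d, (p * (nb p u (d + 1) * g (d + 1)) + (1 - p) * (nb p (u + 1) d * g (d + 1))) := by
    refine tsum_congr (fun d => ?_)
    rw [nb_succ_succ]
    ring
  rw [e, (s4.mul_left p).tsum_add (s3.mul_left (1 - p))]
  ring

theorem NB_mono {g g' : ℕ → ℝ} (hg : Gr g) (hg' : Gr g') (h : ∀ d, g d ≤ g' d) (u : ℕ) :
    NB p u g ≤ NB p u g' :=
  (nb_summable h0 h1 hg u).tsum_le_tsum
    (fun d => mul_le_mul_of_nonneg_left (h d) (nb_nonneg h0 h1 u d))
    (nb_summable h0 h1 hg' u)

theorem NB_add {g g' : ℕ → ℝ} (hg : Gr g) (hg' : Gr g') (u : ℕ) :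
    NB p u (fun d => g d + g' d) = NB p u g + NB p u g' := by
  unfold NB
  rw [← (nb_summable h0 h1 hg u).tsum_add (nb_summable h0 h1 hg' u)]
  exact tsum_congr (fun d => by ring)

omit h0 h1 in
theorem NB_mul (c : ℝ) (g : ℕ → ℝ) (u : ℕ) : NB p u (fun d => c * g d) = c * NB p u g := by
  unfold NB
  rw [← tsum_mul_left]
  exact tsum_congr (fun d => by ring)

theorem NB_const (c : ℝ) (u : ℕ) : NB p u (fun _ => c) = c := by
  induction u with
  | zero => rw [NB_zero]
  | succ u ih =>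
    have := NB_rec h0 h1 (Gr.const c) u
    rw [ih] at this
    have h2 : p * NB p (u + 1) (fun _ => c) = p * c := by linarith
    exact mul_left_cancel₀ h0.ne' h2

theorem NB_lin (u : ℕ) : NB p u (fun d => (d : ℝ) + 1) = 1 + u * ((1 - p) / p) := by
  induction u with
  | zero => rw [NB_zero]; simp
  | succ u ih =>
    have h := NB_rec h0 h1 Gr.lin u
    have e : NB p (u + 1) (fun d => ((d + 1 : ℕ) : ℝ) + 1) =
        NB p (u + 1) (fun d => (d : ℝ) + 1) + 1 := by
      have e1 := NB_add h0 h1 Gr.lin (Gr.const 1) (u + 1)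
      rw [NB_const h0 h1 1 (u + 1)] at e1
      rw [← e1]
      congr 1
      funext d
      push_cast
      rfl
    rw [e, ih] at h
    have h2 : p * NB p (u + 1) (fun d => (d : ℝ) + 1) = p * (1 + ((u + 1 : ℕ) : ℝ) * ((1 - p) / p)) := by
      push_cast
      have : p * (1 + ((u : ℝ) + 1) * ((1 - p) / p)) = p * (1 + u * ((1 - p) / p)) + (1 - p) := by
        field_simp
        ring
      rw [this]
      linarith
    exact mul_left_cancel₀ h0.ne' h2

theorem NB_pow {s : ℝ} (hs0 : 0 ≤ s) (hs1 : s ≤ 1) (u : ℕ) :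
    NB p u (fun d => s ^ d) = (p / (1 - (1 - p) * s)) ^ u := by
  have hpos : 0 < 1 - (1 - p) * s := by nlinarith
  have hgr : Gr (fun d => s ^ d) :=
    Gr.of_bdd (fun d => pow_nonneg hs0 d) (fun d => pow_le_one₀ hs0 hs1)
  induction u with
  | zero => rw [NB_zero]; simp
  | succ u ih =>
    have h := NB_rec h0 h1 hgr u
    have e : NB p (u + 1) (fun d => s ^ (d + 1)) = s * NB p (u + 1) (fun d => s ^ d) := by
      rw [← NB_mul]
      congr 1
      funext d
      rw [pow_succ]
      ring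
    rw [e, ih] at h
    have h2 : (1 - (1 - p) * s) * NB p (u + 1) (fun d => s ^ d) =
        p * (p / (1 - (1 - p) * s)) ^ u := by linarith
    rw [pow_succ, mul_div_assoc', eq_div_iff hpos.ne', mul_comm _ (1 - (1 - p) * s), h2]
    ring

theorem NB_nonneg {g : ℕ → ℝ} (hg : ∀ d, 0 ≤ g d) (u : ℕ) : 0 ≤ NB p u g :=
  tsum_nonneg (fun d => mul_nonneg (nb_nonneg h0 h1 u d) (hg d))

theorem NB_le_one {g : ℕ → ℝ} (hg : ∀ d, 0 ≤ g d) (hg1 : ∀ d, g d ≤ 1) (u : ℕ) :
    NB p u g ≤ 1 := by
  rw [← NB_const h0 h1 1 u]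
  exact NB_mono h0 h1 (Gr.of_bdd hg hg1) (Gr.const 1) hg1 u

theorem NB_anti_u {g : ℕ → ℝ} (hg0 : ∀ d, 0 ≤ g d) (hg1 : ∀ d, g d ≤ 1)
    (hanti : ∀ d, g (d + 1) ≤ g d) (u : ℕ) : NB p (u + 1) g ≤ NB p u g := by
  have hgr := Gr.of_bdd hg0 hg1
  have h := NB_rec h0 h1 hgr u
  have h2 := NB_mono h0 h1 hgr.succ hgr hanti (u + 1)
  have h3 := mul_le_mul_of_nonneg_left h2 (by linarith : (0:ℝ) ≤ 1 - p)
  have h4 : p * NB p (u + 1) g ≤ p * NB p u g := by linarith
  exact le_of_mul_le_mul_left h4 h0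

end NB

/-- Harmonic numbers. -/
noncomputable def Hs (n : ℕ) : ℝ := ∑ i ∈ range n, 1 / ((i : ℝ) + 1)

theorem Hs_succ (n : ℕ) : Hs (n + 1) = Hs n + 1 / ((n : ℝ) + 1) := by
  unfold Hs
  rw [Finset.sum_range_succ]

theorem Hs_zero : Hs 0 = 0 := by simp [Hs]

theorem Hs_eq (n : ℕ) : Hs n = (harmonic n : ℝ) := by
  unfold Hs harmonic
  push_cast
  exact Finset.sum_congr rfl (fun i _ => by rw [one_div])

theorem log_le_Hs (n : ℕ) : Real.log ((n : ℝ) + 1) ≤ Hs n := by
  rw [Hs_eq]
  have := log_add_one_le_harmonic n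
  exact_mod_cast this

theorem Hs_le (n : ℕ) : Hs n ≤ 1 + Real.log ((n : ℝ) + 1) := by
  rw [Hs_eq]
  refine (harmonic_le_one_add_log n).trans ?_
  have : Real.log (n : ℝ) ≤ Real.log ((n : ℝ) + 1) := by
    rcases Nat.eq_zero_or_pos n with h | h
    · subst h; simp
    · exact Real.log_le_log (by exact_mod_cast h) (by linarith)
  linarith

theorem Hs_nonneg (n : ℕ) : 0 ≤ Hs n := Finset.sum_nonneg (fun i _ => by positivity)

theorem Gr_Hs : Gr Hs := ⟨1, fun d => by
  rw [abs_of_nonneg (Hs_nonneg d), one_mul]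
  unfold Hs
  have : ∑ i ∈ range d, 1 / ((i : ℝ) + 1) ≤ ∑ i ∈ range d, (1 : ℝ) := by
    refine Finset.sum_le_sum (fun i _ => ?_)
    rw [div_le_one (by positivity)]
    have := Nat.cast_nonneg (α := ℝ) i
    linarith
  rw [Finset.sum_const, card_range, nsmul_eq_mul, mul_one] at this
  linarith⟩

theorem Gr_inv : Gr (fun d : ℕ => 1 / ((d : ℝ) + 1)) :=
  Gr.of_bdd (fun d => by positivity) (fun d => by
    rw [div_le_one (by positivity)]
    have := Nat.cast_nonneg (α := ℝ) d
    linarith)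

theorem nb_formula (p : ℝ) (u d : ℕ) :
    nb p (u + 1) d = ((d + u).choose u : ℝ) * p ^ (u + 1) * (1 - p) ^ d := by
  induction u generalizing d with
  | zero =>
    induction d with
    | zero => rw [nb_succ_zero, nb_zero_zero]; simp
    | succ d ih =>
      rw [nb_succ_succ, nb_zero_succ, ih]
      simp only [Nat.choose_zero_right, Nat.cast_one, pow_succ]
      ring
  | succ u ih =>
    induction d with
    | zero =>
      rw [nb_succ_zero, ih]
      simp only [zero_add, Nat.choose_self, Nat.cast_one, pow_succ]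
      ring
    | succ d ihd =>
      rw [nb_succ_succ, ih, ihd]
      have e : ((d + 1 + (u + 1)).choose (u + 1) : ℝ) =
          ((d + 1 + u).choose u : ℝ) + ((d + (u + 1)).choose (u + 1) : ℝ) := by
        have : (d + 1 + (u + 1)) = (d + 1 + u) + 1 := by ring
        rw [this, Nat.choose_succ_succ']
        have h2 : d + (u + 1) = d + 1 + u := by ring
        rw [h2]
        push_cast
        ring
      rw [e]
      ring

theorem nb_zero_col (p : ℝ) (u : ℕ) : nb p u 0 = p ^ u := by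
  induction u with
  | zero => rw [nb_zero_zero, pow_zero]
  | succ u ih => rw [nb_succ_zero, ih, pow_succ]; ring

theorem nb_shift (p : ℝ) (u d : ℕ) :
    ((d : ℝ) + 1) * (p * nb p (u + 1) (d + 1)) = (1 - p) * ((u : ℝ) + 1) * nb p (u + 2) d := by
  rw [nb_formula, nb_formula]
  have e : ((d : ℝ) + 1) * ((d + 1 + u).choose u : ℝ) =
      ((u : ℝ) + 1) * ((d + (u + 1)).choose (u + 1) : ℝ) := by
    have h2 : d + (u + 1) = d + 1 + u := by ring
    rw [h2]
    have h3 := Nat.choose_succ_right_eq (d + 1 + u) u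
    have h4 : d + 1 + u - u = d + 1 := by omega
    rw [h4] at h3
    have h5 : (((d + 1 + u).choose (u + 1) * (u + 1) : ℕ) : ℝ) =
        (((d + 1 + u).choose u * (d + 1) : ℕ) : ℝ) := by rw [h3]
    push_cast at h5
    linarith
  calc ((d : ℝ) + 1) * (p * (((d + 1 + u).choose u : ℝ) * p ^ (u + 1) * (1 - p) ^ (d + 1)))
      = (((d : ℝ) + 1) * ((d + 1 + u).choose u : ℝ)) * p ^ (u + 2) * (1 - p) ^ (d + 1) := by ring
    _ = _ := by
      rw [e]
      ring

theorem NB_inv {p : ℝ} (h0 : 0 < p) (h1 : p < 1) (u : ℕ) :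
    NB p (u + 2) (fun d : ℕ => 1 / ((d : ℝ) + 1)) =
      p / ((1 - p) * ((u : ℝ) + 1)) * (1 - p ^ (u + 1)) := by
  have hq : 0 < 1 - p := by linarith
  have e : ∀ d : ℕ, nb p (u + 2) d * (1 / ((d : ℝ) + 1)) =
      p / ((1 - p) * ((u : ℝ) + 1)) * nb p (u + 1) (d + 1) := by
    intro d
    have := nb_shift p u d
    field_simp
    linarith
  unfold NB
  rw [tsum_congr e, tsum_mul_left]
  have s := (nb_summable_aux h0 h1.le (u + 1)).1
  have t := NB_const h0 h1.le 1 (u + 1)
  unfold NB at t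
  simp only [mul_one] at t
  rw [s.tsum_eq_zero_add, nb_zero_col] at t
  congr 1
  linarith

theorem NB_inv_one {p : ℝ} (h0 : 0 < p) (h1 : p < 1) :
    NB p 1 (fun d : ℕ => 1 / ((d : ℝ) + 1)) = p / (1 - p) * (- Real.log p) := by
  have hq : 0 < 1 - p := by linarith
  have hs := Real.hasSum_pow_div_log_of_abs_lt_one (x := 1 - p) (by rw [abs_of_pos hq]; linarith)
  rw [sub_sub_cancel] at hs
  unfold NB
  rw [← hs.tsum_eq, ← tsum_mul_left]
  refine tsum_congr (fun d => ?_)
  have h := nb_formula p 0 d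
  rw [zero_add] at h
  rw [h]
  simp only [Nat.choose_zero_right, Nat.cast_one, pow_one]
  field_simp
  ring

theorem NB_Hs {p : ℝ} (h0 : 0 < p) (h1 : p < 1) (u : ℕ) :
    NB p (u + 1) Hs = - Real.log p + ∑ i ∈ range u, (1 - p ^ (i + 1)) / ((i : ℝ) + 1) := by
  have hq : 0 < 1 - p := by linarith
  have step : ∀ u, NB p (u + 1) Hs = NB p u Hs +
      (1 - p) / p * NB p (u + 1) (fun d : ℕ => 1 / ((d : ℝ) + 1)) := by
    intro u
    have h := NB_rec h0 h1.le Gr_Hs u
    have e : NB p (u + 1) (fun d => Hs (d + 1)) =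
        NB p (u + 1) Hs + NB p (u + 1) (fun d : ℕ => 1 / ((d : ℝ) + 1)) := by
      rw [← NB_add h0 h1.le Gr_Hs Gr_inv]
      congr 1
      funext d
      exact Hs_succ d
    rw [e] at h
    have h2 : p * NB p (u + 1) Hs = p * (NB p u Hs +
        (1 - p) / p * NB p (u + 1) (fun d : ℕ => 1 / ((d : ℝ) + 1))) := by
      have : p * (NB p u Hs + (1 - p) / p * NB p (u + 1) (fun d : ℕ => 1 / ((d : ℝ) + 1))) =
        p * NB p u Hs + (1 - p) * NB p (u + 1) (fun d : ℕ => 1 / ((d : ℝ) + 1)) := by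
        field_simp
      rw [this]
      linarith
    exact mul_left_cancel₀ h0.ne' h2
  induction u with
  | zero =>
    rw [step 0, NB_zero, Hs_zero, zero_add, NB_inv_one h0 h1]
    simp only [range_zero, sum_empty, add_zero]
    field_simp
  | succ u ih =>
    rw [step (u + 1), ih, Finset.sum_range_succ, NB_inv h0 h1 u]
    field_simp
    ring

theorem NB_Hs_ge {p : ℝ} (h0 : 0 < p) (h1 : p < 1) (u : ℕ) :
    Hs u + Real.log (1 - p) - Real.log p ≤ NB p (u + 1) Hs := by
  rw [NB_Hs h0 h1]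
  have hs := Real.hasSum_pow_div_log_of_abs_lt_one (x := p) (by rw [abs_of_pos h0]; exact h1)
  have l := hs.summable.sum_le_tsum (range u) (fun i _ => by positivity)
  rw [hs.tsum_eq] at l
  have e : ∑ i ∈ range u, (1 - p ^ (i + 1)) / ((i : ℝ) + 1) =
      Hs u - ∑ i ∈ range u, p ^ (i + 1) / ((i : ℝ) + 1) := by
    unfold Hs
    rw [← Finset.sum_sub_distrib]
    exact Finset.sum_congr rfl (fun i _ => by ring)
  rw [e]
  linarith

/-- The value function: probability that in the end some level `i ≤ j` has a total count below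
the threshold, given current counts `D`, position `κ` and `d` future crossings at level `j`. -/
noncomputable def RR (p : ℕ → ℝ) (thr : ℕ → ℕ) (κ : ℕ) (D : ℕ → ℕ) : ℕ → ℕ → ℝ
  | 0, d => if D 0 + d < thr 0 then 1 else 0
  | (j + 1), d => if D (j + 1) + d < thr (j + 1) then 1 else
      NB (p (j + 1)) (d + if κ ≤ j + 1 then 1 else 0) (RR p thr κ D j)

section RR
variable {p : ℕ → ℝ} (hp0 : ∀ k, 0 < p k) (hp1 : ∀ k, p k ≤ 1) {thr : ℕ → ℕ}
include hp0 hp1

theorem RR_bdd (κ : ℕ) (D : ℕ → ℕ) (j d : ℕ) :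
    0 ≤ RR p thr κ D j d ∧ RR p thr κ D j d ≤ 1 := by
  induction j generalizing d with
  | zero => rw [RR]; split_ifs <;> norm_num
  | succ j ih =>
    rw [RR]
    split_ifs
    · norm_num
    · exact ⟨NB_nonneg (hp0 _) (hp1 _) (fun d => (ih d).1) _,
        NB_le_one (hp0 _) (hp1 _) (fun d => (ih d).1) (fun d => (ih d).2) _⟩
    · exact ⟨NB_nonneg (hp0 _) (hp1 _) (fun d => (ih d).1) _,
        NB_le_one (hp0 _) (hp1 _) (fun d => (ih d).1) (fun d => (ih d).2) _⟩

theorem RR_gr (κ : ℕ) (D : ℕ → ℕ) (j : ℕ) : Gr (RR p thr κ D j) :=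
  Gr.of_bdd (fun d => (RR_bdd hp0 hp1 κ D j d).1) (fun d => (RR_bdd hp0 hp1 κ D j d).2)

theorem RR_anti (κ : ℕ) (D : ℕ → ℕ) (j d : ℕ) :
    RR p thr κ D j (d + 1) ≤ RR p thr κ D j d := by
  induction j generalizing d with
  | zero =>
    rw [RR, RR]
    split_ifs with c1 c2 c2
    · exact le_rfl
    · omega
    · norm_num
    · exact le_rfl
  | succ j ih =>
    by_cases c2 : D (j + 1) + d < thr (j + 1)
    · have : RR p thr κ D (j + 1) d = 1 := by rw [RR, if_pos c2]
      rw [this]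
      exact (RR_bdd hp0 hp1 κ D (j + 1) (d + 1)).2
    · have c1 : ¬ D (j + 1) + (d + 1) < thr (j + 1) := by omega
      rw [RR, RR, if_neg c1, if_neg c2]
      have := NB_anti_u (hp0 (j + 1)) (hp1 (j + 1)) (fun d => (RR_bdd hp0 hp1 (thr := thr) κ D j d).1)
        (fun d => (RR_bdd hp0 hp1 κ D j d).2) ih (d + if κ ≤ j + 1 then 1 else 0)
      rw [show d + 1 + (if κ ≤ j + 1 then 1 else 0) = (d + if κ ≤ j + 1 then 1 else 0) + 1 by ring]
      exact this

theorem RR_mono_pos (κ : ℕ) (D : ℕ → ℕ) (j d : ℕ) :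
    RR p thr κ D j d ≤ RR p thr (κ + 1) D j d := by
  induction j generalizing d with
  | zero => rw [RR, RR]
  | succ j ih =>
    rw [RR, RR]
    by_cases c : D (j + 1) + d < thr (j + 1)
    · rw [if_pos c, if_pos c]
    · rw [if_neg c, if_neg c]
      refine (NB_mono (hp0 _) (hp1 _) (RR_gr hp0 hp1 κ D j) (RR_gr hp0 hp1 (κ + 1) D j) ih _).trans ?_
      by_cases c1 : κ + 1 ≤ j + 1
      · rw [if_pos c1, if_pos (by omega : κ ≤ j + 1)]
      · rw [if_neg c1]
        by_cases c2 : κ ≤ j + 1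
        · rw [if_pos c2]
          exact NB_anti_u (hp0 _) (hp1 _) (fun d => (RR_bdd hp0 hp1 (κ + 1) D j d).1)
            (fun d => (RR_bdd hp0 hp1 (κ + 1) D j d).2) (RR_anti hp0 hp1 (κ + 1) D j) _
        · rw [if_neg c2]

theorem RR_anti_D (κ : ℕ) (D D' : ℕ → ℕ) (hD : ∀ k, D k ≤ D' k) (j d : ℕ) :
    RR p thr κ D' j d ≤ RR p thr κ D j d := by
  induction j generalizing d with
  | zero =>
    have := hD 0
    rw [RR, RR]
    split_ifs with c1 c2 c2
    · exact le_rfl
    · omega
    · norm_num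
    · exact le_rfl
  | succ j ih =>
    by_cases c2 : D (j + 1) + d < thr (j + 1)
    · have : RR p thr κ D (j + 1) d = 1 := by rw [RR, if_pos c2]
      rw [this]
      exact (RR_bdd hp0 hp1 κ D' (j + 1) d).2
    · have c1 : ¬ D' (j + 1) + d < thr (j + 1) := by
        have := hD (j + 1)
        omega
      rw [RR, RR, if_neg c1, if_neg c2]
      exact NB_mono (hp0 _) (hp1 _) (RR_gr hp0 hp1 κ D' j) (RR_gr hp0 hp1 κ D j) ih _

omit hp0 hp1 in
theorem RR_final (κ : ℕ) (D : ℕ → ℕ) (j : ℕ) (hj : j < κ) (h : ∃ i, i ≤ j ∧ D i < thr i) :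
    RR p thr κ D j 0 = 1 := by
  induction j with
  | zero =>
    obtain ⟨i, hi, h⟩ := h
    obtain rfl : i = 0 := by omega
    rw [RR, if_pos (by simpa using h)]
  | succ j ih =>
    rw [RR]
    by_cases c : D (j + 1) + 0 < thr (j + 1)
    · rw [if_pos c]
    · rw [if_neg c, if_neg (by omega), add_zero, NB_zero]
      refine ih (by omega) ?_
      obtain ⟨i, hi, h⟩ := h
      rcases Nat.lt_or_ge i (j + 1) with h' | h'
      · exact ⟨i, by omega, h⟩
      · obtain rfl : i = j + 1 := by omega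
        exact absurd (by simpa using h) c

omit hp0 hp1 in
theorem RR_zero_one (D : ℕ → ℕ) (j : ℕ) : RR p thr 0 D j = RR p thr 1 D j := by
  induction j with
  | zero => funext d; rw [RR, RR]
  | succ j ih =>
    funext d
    rw [RR, RR, ih, if_pos (Nat.zero_le _), if_pos (by omega : 1 ≤ j + 1)]

/-- Increase the count at one level. -/
def bump (D : ℕ → ℕ) (k : ℕ) : ℕ → ℕ := fun i => if i = k then D i + 1 else D i

theorem RR_step (k N : ℕ) (hkN : k + 1 ≤ N) (D : ℕ → ℕ) (d : ℕ) :
    RR p thr (k + 1) D N d = p (k + 1) * RR p thr (k + 2) D N d +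
      (1 - p (k + 1)) * RR p thr k (bump D k) N d := by
  have low : ∀ j, j < k → RR p thr (k + 1) D j = RR p thr (k + 2) D j ∧
      RR p thr (k + 1) D j = RR p thr k (bump D k) j := by
    intro j
    induction j with
    | zero =>
      intro hj
      refine ⟨by funext d; rw [RR, RR], ?_⟩
      funext d
      rw [RR, RR]
      have : bump D k 0 = D 0 := by
        unfold bump
        rw [if_neg (by omega)]
      rw [this]
    | succ j ih =>
      intro hj
      obtain ⟨i1, i2⟩ := ih (by omega)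
      have hb : bump D k (j + 1) = D (j + 1) := by
        unfold bump
        rw [if_neg (by omega)]
      constructor
      · funext d
        rw [RR, RR, i1, if_neg (by omega : ¬ k + 1 ≤ j + 1), if_neg (by omega : ¬ k + 2 ≤ j + 1)]
      · funext d
        rw [RR, RR, i2, hb, if_neg (by omega : ¬ k + 1 ≤ j + 1), if_neg (by omega : ¬ k ≤ j + 1)]
  have mid : RR p thr (k + 1) D k = RR p thr (k + 2) D k ∧
      ∀ d, RR p thr k (bump D k) k d = RR p thr (k + 1) D k (d + 1) := by
    cases k with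
    | zero =>
      refine ⟨by funext d; rw [RR, RR], fun d => ?_⟩
      rw [RR, RR]
      have : bump D 0 0 = D 0 + 1 := by simp [bump]
      rw [this, show D 0 + 1 + d = D 0 + (d + 1) by ring]
    | succ k =>
      obtain ⟨i1, i2⟩ := low k (by omega)
      have hb : bump D (k + 1) (k + 1) = D (k + 1) + 1 := by simp [bump]
      constructor
      · funext d
        rw [RR, RR, i1, if_neg (by omega : ¬ k + 1 + 1 ≤ k + 1),
          if_neg (by omega : ¬ k + 1 + 2 ≤ k + 1)]
      · intro d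
        rw [RR, RR, ← i2, hb, if_neg (by omega : ¬ k + 1 + 1 ≤ k + 1), if_pos le_rfl,
          show D (k + 1) + 1 + d = D (k + 1) + (d + 1) by ring]
  have top : ∀ j, k ≤ j → ∀ d, RR p thr (k + 1) D (j + 1) d =
      p (k + 1) * RR p thr (k + 2) D (j + 1) d +
      (1 - p (k + 1)) * RR p thr k (bump D k) (j + 1) d := by
    intro j hj
    induction j, hj using Nat.le_induction with
    | base =>
      intro d
      have hb : bump D k (k + 1) = D (k + 1) := by simp [bump]
      rw [RR, RR, RR, hb]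
      by_cases c : D (k + 1) + d < thr (k + 1)
      · rw [if_pos c, if_pos c, if_pos c]
        ring
      · rw [if_neg c, if_neg c, if_neg c, if_pos le_rfl, if_neg (by omega : ¬ k + 2 ≤ k + 1),
          if_pos (by omega : k ≤ k + 1), ← mid.1]
        have e : RR p thr k (bump D k) k = fun d => RR p thr (k + 1) D k (d + 1) := by
          funext d
          exact mid.2 d
        rw [e, add_zero]
        exact NB_rec (hp0 _) (hp1 _) (RR_gr hp0 hp1 _ _ _) d
    | succ j hj ih =>
      intro d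
      have hb : bump D k (j + 1 + 1) = D (j + 1 + 1) := by
        unfold bump
        rw [if_neg (by omega)]
      rw [RR, RR, RR, hb]
      by_cases c : D (j + 1 + 1) + d < thr (j + 1 + 1)
      · rw [if_pos c, if_pos c, if_pos c]
        ring
      · rw [if_neg c, if_neg c, if_neg c, if_pos (by omega : k + 1 ≤ j + 1 + 1),
          if_pos (by omega : k + 2 ≤ j + 1 + 1), if_pos (by omega : k ≤ j + 1 + 1)]
        have e : RR p thr (k + 1) D (j + 1) = fun d => p (k + 1) * RR p thr (k + 2) D (j + 1) d +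
            (1 - p (k + 1)) * RR p thr k (bump D k) (j + 1) d := by
          funext d
          exact ih d
        rw [e, NB_add (hp0 _) (hp1 _) ((RR_gr hp0 hp1 _ _ _).mul_const _)
          ((RR_gr hp0 hp1 _ _ _).mul_const _), NB_mul, NB_mul]
  obtain ⟨n, rfl⟩ : ∃ n, N = n + 1 := ⟨N - 1, by omega⟩
  exact top n (by omega) d

end RR

end Pool.Agent.Lib.MP_e14847_pr
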