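import Mathlib
import Pool.Agent.Lib.MP_e14847_pr.Chain
import Pool.Agent.Lib.MP_e14847_pr.RayKnight

open Finset MeasureTheory
open scoped ENNReal

namespace Pool.Agent.Lib.MP_e14847_pr

/-- State: index of the last ring visited and the numbers of inward crossings. -/
abbrev SA := ℕ × (ℕ → ℕ)

/-- Update of the ring state when the walk arrives at `y`. -/
def upd (R : ℕ → ℤ) (N : ℕ) (s : SA) (y : V) : SA :=
  if s.1 = N + 1 then s
  else if lev y = R (s.1 + 2) then (s.1 + 1, s.2)
  else if lev y = R s.1 then (s.1 - 1, bump s.2 (s.1 - 1))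
  else s

/-- The ring automaton. -/
def UA (R : ℕ → ℤ) (N : ℕ) : SA → V → V → SA := fun s _ y => upd R N s y

/-- The invariant of the ring automaton. -/
def InvA (R : ℕ → ℤ) (N : ℕ) (x : V) (s : SA) : Prop :=
  s.1 = N + 1 ∨ (s.1 ≤ N ∧ R s.1 < lev x ∧ lev x < R (s.1 + 2))

theorem Lap_eq (w : ℤ → ℝ) (f : V → ℝ) (x : V) :
    ∑ e ∈ dirs, cd w x (x + e) * f (x + e) = Lap w f x + piw w x * f x := by
  unfold Lap piw
  rw [Finset.sum_mul, ← Finset.sum_add_distrib]
  exact Finset.sum_congr rfl (fun e _ => by ring)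

section
variable {R : ℕ → ℤ} (hR : StrictMono R) (hR0 : R 0 = -1) {N : ℕ}
include hR hR0

theorem InvA_start {x0 : V} (hx0 : lev x0 < R 2) : InvA R N x0 (0, fun _ => 0) :=
  Or.inr ⟨Nat.zero_le _, by simp only [hR0]; have := lev_nonneg x0; omega, hx0⟩

theorem InvA_step {x : V} {s : SA} (h : InvA R N x s) {e : V} (he : e ∈ dirs) :
    InvA R N (x + e) (upd R N s (x + e)) := by
  unfold InvA at h
  unfold upd
  by_cases c0 : s.1 = N + 1
  · rw [if_pos c0]
    exact Or.inl c0
  · rw [if_neg c0]
    obtain ⟨h1, h2, h3⟩ : s.1 ≤ N ∧ R s.1 < lev x ∧ lev x < R (s.1 + 2) := by tauto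
    have l1 := lev_add_le (x := x) he
    have l2 := le_lev_add (x := x) he
    by_cases c1 : lev (x + e) = R (s.1 + 2)
    · rw [if_pos c1]
      unfold InvA
      simp only
      by_cases c2 : s.1 + 1 = N + 1
      · exact Or.inl c2
      · refine Or.inr ⟨by omega, ?_, ?_⟩
        · rw [c1]
          exact hR (by omega)
        · rw [c1]
          exact hR (by omega)
    · rw [if_neg c1]
      by_cases c3 : lev (x + e) = R s.1
      · rw [if_pos c3]
        unfold InvA
        simp only
        have hs0 : s.1 ≠ 0 := by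
          intro h0
          rw [h0, hR0] at c3
          have := lev_nonneg (x + e)
          omega
        refine Or.inr ⟨by omega, ?_, ?_⟩
        · rw [c3]
          exact hR (by omega)
        · rw [c3]
          exact hR (by omega)
      · rw [if_neg c3]
        exact Or.inr ⟨h1, by omega, by omega⟩

end

/-! ### Local times -/

section E2
variable {w : ℤ → ℝ} (hw : ∀ l, 0 < w l) {R : ℕ → ℤ} (hR : StrictMono R) (hR0 : R 0 = -1) {N : ℕ}
  {p : ℕ → ℝ} (hp0 : ∀ k, 0 < p k) (hp1 : ∀ k, p k ≤ 1) (thr : ℕ → ℕ)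
  (hu : ∀ κ, 1 ≤ κ → κ ≤ N → ∀ z, lev z = R (κ + 1) → hfun w (R κ) (R (κ + 2)) z ≤ p κ)

/-- The value function along the walk. -/
noncomputable def phi2 (w : ℤ → ℝ) (R : ℕ → ℤ) (N : ℕ) (p : ℕ → ℝ) (thr : ℕ → ℕ) (x : V)
    (s : SA) : ℝ :=
  if s.1 = N + 1 then RR p thr (N + 1) s.2 N 0
  else hfun w (R s.1) (R (s.1 + 2)) x * RR p thr (s.1 + 1) s.2 N 0 +
    (1 - hfun w (R s.1) (R (s.1 + 2)) x) * RR p thr (s.1 - 1) (bump s.2 (s.1 - 1)) N 0

include hp0 hp1 in
theorem RR_down_le_up (κ : ℕ) (D : ℕ → ℕ) (j d : ℕ) :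
    RR p thr (κ - 1) (bump D (κ - 1)) j d ≤ RR p thr (κ + 1) D j d := by
  have h1 : RR p thr (κ - 1) (bump D (κ - 1)) j d ≤ RR p thr (κ - 1) D j d :=
    RR_anti_D hp0 hp1 (κ - 1) D (bump D (κ - 1)) (fun k => by
      unfold bump
      split_ifs <;> omega) j d
  refine h1.trans ?_
  rcases Nat.eq_zero_or_pos κ with h | h
  · subst h
    exact RR_mono_pos hp0 hp1 0 D j d
  · have h2 := RR_mono_pos hp0 hp1 (thr := thr) (κ - 1) D j d
    have h3 := RR_mono_pos hp0 hp1 (thr := thr) κ D j d
    rw [Nat.sub_add_cancel h] at h2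
    exact h2.trans h3

include hw hR hp0 hp1 in
theorem phi2_nonneg (x : V) (s : SA) : 0 ≤ phi2 w R N p thr x s := by
  unfold phi2
  split_ifs with c
  · exact (RR_bdd hp0 hp1 _ _ _ _).1
  · have h1 := hfun_nonneg hw (hR (show s.1 < s.1 + 2 by omega)) x
    have h2 := hfun_le_one hw (hR (show s.1 < s.1 + 2 by omega)) x
    exact add_nonneg (mul_nonneg h1 (RR_bdd hp0 hp1 _ _ _ _).1)
      (mul_nonneg (by linarith) (RR_bdd hp0 hp1 _ _ _ _).1)

include hw hR hR0 hp0 hp1 hu in
theorem phi2_ring (s : SA) (hs : s.1 ≤ N + 1) (z : V) (hz : lev z = R (s.1 + 1)) :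
    phi2 w R N p thr z s ≤ RR p thr s.1 s.2 N 0 := by
  unfold phi2
  by_cases c : s.1 = N + 1
  · rw [if_pos c, c]
  · rw [if_neg c]
    obtain ⟨κ, D⟩ := s
    simp only at *
    rcases Nat.eq_zero_or_pos κ with h | h
    · subst h
      rw [hfun_eq_one_of_neg hw (hR (show 0 < 0 + 2 by omega)) (by rw [hR0]; norm_num)]
      simp only [one_mul, sub_self, zero_mul, add_zero, zero_add]
      rw [RR_zero_one]
    · have h1 := hu κ h (by omega) z hz
      obtain ⟨k, rfl⟩ : ∃ k, κ = k + 1 := ⟨κ - 1, by omega⟩
      have h2 := RR_step hp0 hp1 (thr := thr) k N (by omega) D 0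
      have h3 := RR_down_le_up hp0 hp1 thr (k + 1) D N 0
      rw [show k + 1 - 1 = k by omega] at h3 ⊢
      rw [h2]
      have h4 := mul_le_mul_of_nonneg_right h1 (sub_nonneg.2 h3)
      rw [show k + 1 + 1 = k + 2 by ring] at *
      linarith

include hw hR hR0 hp0 hp1 hu in
theorem phi2_super (x : V) (s : SA) (hI : InvA R N x s) :
    ∑ e ∈ dirs, cd w x (x + e) * phi2 w R N p thr (x + e) (UA R N s x (x + e)) ≤
      piw w x * phi2 w R N p thr x s := by
  unfold InvA at hI
  by_cases c0 : s.1 = N + 1
  · have e1 : ∀ y, phi2 w R N p thr y (UA R N s x y) = RR p thr (N + 1) s.2 N 0 := fun y => by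
      unfold UA upd phi2
      rw [if_pos c0, if_pos c0]
    have e2 : phi2 w R N p thr x s = RR p thr (N + 1) s.2 N 0 := by
      unfold phi2
      rw [if_pos c0]
    rw [Finset.sum_congr rfl (fun e _ => by rw [e1]), e2, ← Finset.sum_mul]
    rfl
  · obtain ⟨h1, h2, h3⟩ : s.1 ≤ N ∧ R s.1 < lev x ∧ lev x < R (s.1 + 2) := by tauto
    have hRR : R s.1 < R (s.1 + 2) := hR (by omega)
    set u := hfun w (R s.1) (R (s.1 + 2)) with hu'
    set Vp := RR p thr (s.1 + 1) s.2 N 0 with hVp
    set Vm := RR p thr (s.1 - 1) (bump s.2 (s.1 - 1)) N 0 with hVm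
    have pt : ∀ e ∈ dirs, phi2 w R N p thr (x + e) (UA R N s x (x + e)) ≤
        u (x + e) * Vp + (1 - u (x + e)) * Vm := by
      intro e he
      have l1 := lev_add_le (x := x) he
      have l2 := le_lev_add (x := x) he
      unfold UA upd
      rw [if_neg c0]
      by_cases c1 : lev (x + e) = R (s.1 + 2)
      · rw [if_pos c1, hu', hfun_out hw hRR c1.ge]
        have := phi2_ring hw hR hR0 hp0 hp1 thr hu (s.1 + 1, s.2) (by simp only; omega) (x + e)
          (by simp only; rw [c1])
        simp only at this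
        rw [one_mul, sub_self, zero_mul, add_zero]
        exact this
      · rw [if_neg c1]
        by_cases c2 : lev (x + e) = R s.1
        · have hs0 : s.1 ≠ 0 := by
            intro h0
            rw [h0, hR0] at c2
            have := lev_nonneg (x + e)
            omega
          rw [if_pos c2, hu', hfun_in hw hRR c2.le]
          have := phi2_ring hw hR hR0 hp0 hp1 thr hu (s.1 - 1, bump s.2 (s.1 - 1))
            (by simp only; omega) (x + e) (by simp only; rw [c2]; congr 1; omega)
          simp only at this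
          rw [zero_mul, sub_zero, one_mul, zero_add]
          exact this
        · rw [if_neg c2]
          unfold phi2
          rw [if_neg c0]
    have hphi : phi2 w R N p thr x s = u x * Vp + (1 - u x) * Vm := by
      unfold phi2
      rw [if_neg c0]
    calc ∑ e ∈ dirs, cd w x (x + e) * phi2 w R N p thr (x + e) (UA R N s x (x + e))
        ≤ ∑ e ∈ dirs, cd w x (x + e) * (u (x + e) * Vp + (1 - u (x + e)) * Vm) :=
          Finset.sum_le_sum (fun e he => mul_le_mul_of_nonneg_left (pt e he) (cd_pos hw _ _).le)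
      _ = (∑ e ∈ dirs, cd w x (x + e) * u (x + e)) * (Vp - Vm) + piw w x * Vm := by
          unfold piw
          rw [Finset.sum_mul, Finset.sum_mul, ← Finset.sum_add_distrib]
          exact Finset.sum_congr rfl (fun e _ => by ring)
      _ = piw w x * phi2 w R N p thr x s := by
          rw [Lap_eq, hu', hfun_harm hw hRR h2 h3, hphi]
          ring

include hw hR hR0 hp0 hp1 hu in
/-- Probability that some local time is too small when the walk leaves. -/
theorem local_time_bound {x0 : V} {Ω : Type} [MeasurableSpace Ω] {μ : Measure Ω} {X : ℕ → Ω → V}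
    (hX : IsChain (Pk w) x0 μ X) (hx0 : lev x0 < R 2) (n : ℕ) :
    μ {ω | (st (UA R N) (0, fun _ => 0) (fun i => X i ω) n).1 = N + 1 ∧
      ∃ i, i ≤ N ∧ (st (UA R N) (0, fun _ => 0) (fun i => X i ω) n).2 i < thr i} ≤
      ENNReal.ofReal (RR p thr 0 (fun _ => 0) N 0) := by
  have h := hX.prob_le hw (UA R N) (0, fun _ => 0) (InvA R N) (phi2 w R N p thr)
    (fun x s => phi2_nonneg hw hR hp0 hp1 thr x s) (InvA_start hR hR0 hx0)
    (fun x s hI e he => InvA_step hR hR0 hI he)
    (fun x s hI => phi2_super hw hR hR0 hp0 hp1 thr hu x s hI)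
    (fun _ s => s.1 = N + 1 ∧ ∃ i, i ≤ N ∧ s.2 i < thr i) (fun x s hs => by
      unfold phi2
      rw [if_pos hs.1, RR_final (N + 1) s.2 N (by omega) hs.2]) n
  refine h.trans (ENNReal.ofReal_le_ofReal ?_)
  unfold phi2
  simp only
  rw [if_neg (by omega), hfun_eq_one_of_neg hw (hR (show 0 < 0 + 2 by omega)) (by rw [hR0]; norm_num)]
  simp only [one_mul, sub_self, zero_mul, add_zero, zero_add]
  rw [RR_zero_one]

end E2

/-! ### Covering one edge -/

/-- The pair `x, y` is the unordered edge `a, b`. -/
def IsEdge (a b x y : V) : Prop := (x = a ∧ y = b) ∨ (x = b ∧ y = a)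

instance (a b x y : V) : Decidable (IsEdge a b x y) := by unfold IsEdge; infer_instance

/-- The ring automaton with a flag for an edge. -/
def UB (R : ℕ → ℤ) (N : ℕ) (a b : V) : SA × Bool → V → V → SA × Bool :=
  fun s x y => (upd R N s.1 y, s.2 || decide (IsEdge a b x y))

theorem st_UB_fst (R : ℕ → ℤ) (N : ℕ) (a b : V) (x : ℕ → V) (n : ℕ) :
    (st (UB R N a b) ((0, fun _ => 0), false) x n).1 = st (UA R N) (0, fun _ => 0) x n := by
  induction n with
  | zero => rfl
  | succ n ih =>
    simp only [st, UB, UA] at ih ⊢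
    rw [ih]

theorem st_UB_snd (R : ℕ → ℤ) (N : ℕ) (a b : V) (x : ℕ → V) (n : ℕ) :
    (st (UB R N a b) ((0, fun _ => 0), false) x n).2 = true ↔
      ∃ i < n, IsEdge a b (x i) (x (i + 1)) := by
  induction n with
  | zero => simp [st]
  | succ n ih =>
    have e : (st (UB R N a b) ((0, fun _ => 0), false) x (n + 1)).2 =
        ((st (UB R N a b) ((0, fun _ => 0), false) x n).2 ||
          decide (IsEdge a b (x n) (x (n + 1)))) := rfl
    rw [e, Bool.or_eq_true, ih, decide_eq_true_iff]
    constructor
    · rintro (⟨i, hi, h⟩ | h)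
      · exact ⟨i, by omega, h⟩
      · exact ⟨n, by omega, h⟩
    · rintro ⟨i, hi, h⟩
      rcases Nat.lt_or_ge i n with h' | h'
      · exact Or.inl ⟨i, h', h⟩
      · obtain rfl : i = n := by omega
        exact Or.inr h

section E1
variable {w : ℤ → ℝ} (hw : ∀ l, 0 < w l) {R : ℕ → ℤ} (hR : StrictMono R) (hR0 : R 0 = -1) {N : ℕ}
  {a b : V} {κ : ℕ} (hκ : κ ≤ N) {ψ : V → ℝ} {α : ℝ} {T : ℕ} (hα0 : 0 ≤ α) (hα1 : α ≤ 1)
  (hψ0 : ∀ x, 0 ≤ ψ x) (hψ1 : ∀ x, ψ x ≤ 1) (hψα : ∀ z, lev z = R (κ + 1) → α ≤ ψ z)
  (hψout : ∀ x, lev x ≤ R κ ∨ R (κ + 2) ≤ lev x → ψ x = 0)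
  (hψsub : ∀ x, R κ < lev x → lev x < R (κ + 2) →
    piw w x * ψ x ≤ ∑ e ∈ dirs, cd w x (x + e) * (if IsEdge a b x (x + e) then 1 else ψ (x + e)))

/-- The supersolution for one uncovered edge. -/
noncomputable def phi1 (κ : ℕ) (ψ : V → ℝ) (α : ℝ) (T : ℕ) (x : V) (s : SA × Bool) : ℝ :=
  if s.2 = true then 0 else (1 - α) ^ (T - s.1.2 κ) * (if s.1.1 = κ then 1 - ψ x else 1)

include hα1 hψ1 in
theorem phi1_nonneg (x : V) (s : SA × Bool) : 0 ≤ phi1 κ ψ α T x s := by
  unfold phi1
  split_ifs with c1 c2
  · exact le_rfl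
  · exact mul_nonneg (pow_nonneg (by linarith) _) (by linarith [hψ1 x])
  · exact mul_nonneg (pow_nonneg (by linarith) _) zero_le_one

include hw hR hR0 hκ hα0 hα1 hψ0 hψ1 hψα hψout hψsub in
theorem phi1_super (x : V) (s : SA × Bool) (hI : InvA R N x s.1) :
    ∑ e ∈ dirs, cd w x (x + e) * phi1 κ ψ α T (x + e) (UB R N a b s x (x + e)) ≤
      piw w x * phi1 κ ψ α T x s := by
  have hα1' : (0 : ℝ) ≤ 1 - α := by linarith
  have hpw : ∀ k, 0 ≤ (1 - α) ^ k := fun k => pow_nonneg hα1' k
  by_cases c0 : s.2 = true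
  · have e1 : ∀ y, phi1 κ ψ α T y (UB R N a b s x y) = 0 := fun y => by
      unfold phi1 UB
      rw [if_pos (by simp [c0])]
    have e2 : phi1 κ ψ α T x s = 0 := by
      unfold phi1
      rw [if_pos c0]
    rw [Finset.sum_congr rfl (fun e _ => by rw [e1, mul_zero]), e2]
    simp
  have c0' : s.2 = false := by simpa using c0
  obtain ⟨⟨k, D⟩, fl⟩ := s
  simp only at c0' hI
  subst c0'
  -- bound after a step when the new state is described
  have flagged : ∀ y (s1 : SA), IsEdge a b x y →
      phi1 κ ψ α T y (s1, false || decide (IsEdge a b x y)) = 0 := by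
    intro y s1 h
    unfold phi1
    rw [if_pos (by simp [h])]
  have unflagged : ∀ y (s1 : SA), ¬ IsEdge a b x y →
      phi1 κ ψ α T y (s1, false || decide (IsEdge a b x y)) =
        (1 - α) ^ (T - s1.2 κ) * (if s1.1 = κ then 1 - ψ y else 1) := by
    intro y s1 h
    unfold phi1
    rw [if_neg (by simp [h])]
  by_cases cN : k = N + 1
  · -- frozen
    have hkκ : k ≠ κ := by omega
    have e2 : phi1 κ ψ α T x ((k, D), false) = (1 - α) ^ (T - D κ) := by
      unfold phi1
      simp only [if_neg hkκ, mul_one]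
      rw [if_neg (by simp)]
    rw [e2]
    unfold piw
    rw [Finset.sum_mul]
    refine Finset.sum_le_sum (fun e _ => mul_le_mul_of_nonneg_left ?_ (cd_pos hw _ _).le)
    unfold UB
    have e3 : upd R N (k, D) (x + e) = (k, D) := by
      unfold upd
      rw [if_pos cN]
    simp only [e3]
    by_cases c : IsEdge a b x (x + e)
    · rw [flagged _ _ c]
      exact hpw _
    · rw [unflagged _ _ c]
      simp only [if_neg hkκ, mul_one]
      exact le_rfl
  have hI' : k ≤ N ∧ R k < lev x ∧ lev x < R (k + 2) := by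
    unfold InvA at hI
    simp only at hI
    tauto
  obtain ⟨h1, h2, h3⟩ := hI'
  by_cases cκ : k = κ
  · -- the walk is in an excursion from the ring
    subst cκ
    have e2 : phi1 k ψ α T x ((k, D), false) = (1 - α) ^ (T - D k) * (1 - ψ x) := by
      unfold phi1
      simp
    rw [e2]
    have pt : ∀ e ∈ dirs, phi1 k ψ α T (x + e) (UB R N a b ((k, D), false) x (x + e)) ≤
        (1 - α) ^ (T - D k) * (1 - (if IsEdge a b x (x + e) then 1 else ψ (x + e))) := by
      intro e he
      unfold UB
      simp only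
      by_cases c : IsEdge a b x (x + e)
      · rw [flagged _ _ c, if_pos c]
        simp
      · rw [unflagged _ _ c, if_neg c]
        unfold upd
        simp only
        rw [if_neg cN]
        by_cases c1 : lev (x + e) = R (k + 2)
        · rw [if_pos c1, hψout _ (Or.inr c1.ge)]
          simp only
          rw [if_neg (by omega)]
          simp
        · rw [if_neg c1]
          by_cases c2 : lev (x + e) = R k
          · have hs0 : k ≠ 0 := by
              intro h0
              rw [h0, hR0] at c2
              have := lev_nonneg (x + e)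
              omega
            rw [if_pos c2, hψout _ (Or.inl c2.le)]
            simp only
            have : bump D (k - 1) k = D k := by
              unfold bump
              rw [if_neg (by omega)]
            rw [this, if_neg (by omega)]
            simp
          · rw [if_neg c2]
            simp
    have hs := hψsub x h2 h3
    calc ∑ e ∈ dirs, cd w x (x + e) * phi1 k ψ α T (x + e) (UB R N a b ((k, D), false) x (x + e))
        ≤ ∑ e ∈ dirs, cd w x (x + e) * ((1 - α) ^ (T - D k) *
          (1 - (if IsEdge a b x (x + e) then 1 else ψ (x + e)))) :=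
          Finset.sum_le_sum (fun e he => mul_le_mul_of_nonneg_left (pt e he) (cd_pos hw _ _).le)
      _ = (1 - α) ^ (T - D k) * (piw w x - ∑ e ∈ dirs, cd w x (x + e) *
          (if IsEdge a b x (x + e) then 1 else ψ (x + e))) := by
          unfold piw
          rw [← Finset.sum_sub_distrib, Finset.mul_sum]
          exact Finset.sum_congr rfl (fun e _ => by ring)
      _ ≤ (1 - α) ^ (T - D k) * (piw w x - piw w x * ψ x) :=
          mul_le_mul_of_nonneg_left (by linarith) (hpw _)
      _ = _ := by ring
  · -- elsewhere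
    have e2 : phi1 κ ψ α T x ((k, D), false) = (1 - α) ^ (T - D κ) := by
      unfold phi1
      simp only [if_neg cκ, mul_one]
      rw [if_neg (by simp)]
    rw [e2]
    unfold piw
    rw [Finset.sum_mul]
    refine Finset.sum_le_sum (fun e he => mul_le_mul_of_nonneg_left ?_ (cd_pos hw _ _).le)
    unfold UB
    simp only
    by_cases c : IsEdge a b x (x + e)
    · rw [flagged _ _ c]
      exact hpw _
    · rw [unflagged _ _ c]
      have hψx := hψ0 (x + e)
      unfold upd
      simp only
      rw [if_neg cN]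
      by_cases c1 : lev (x + e) = R (k + 2)
      · rw [if_pos c1]
        simp only
        split_ifs
        · exact mul_le_of_le_one_right (hpw _) (by linarith)
        · rw [mul_one]
      · rw [if_neg c1]
        by_cases c2 : lev (x + e) = R k
        · have hs0 : k ≠ 0 := by
            intro h0
            rw [h0, hR0] at c2
            have := lev_nonneg (x + e)
            omega
          rw [if_pos c2]
          simp only
          by_cases c3 : k - 1 = κ
          · rw [if_pos c3]
            have hb : bump D (k - 1) κ = D κ + 1 := by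
              unfold bump
              rw [if_pos c3.symm]
            rw [hb]
            have hz := hψα (x + e) (by rw [c2]; congr 1; omega)
            rcases Nat.lt_or_ge (D κ) T with h4 | h4
            · have e5 : T - D κ = (T - (D κ + 1)) + 1 := by omega
              rw [e5, pow_succ]
              exact mul_le_mul_of_nonneg_left (by linarith) (hpw _)
            · rw [show T - (D κ + 1) = 0 by omega, show T - D κ = 0 by omega]
              simp only [pow_zero, one_mul]
              linarith
          · rw [if_neg c3]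
            have hb : bump D (k - 1) κ = D κ := by
              unfold bump
              rw [if_neg (fun h => c3 h.symm)]
            rw [hb, mul_one]
        · rw [if_neg c2]
          simp only [if_neg cκ, mul_one]
          exact le_rfl

include hw hR hR0 hκ hα0 hα1 hψ0 hψ1 hψα hψout hψsub in
/-- An edge is unlikely to be missed when the local time is large. -/
theorem edge_bound {x0 : V} {Ω : Type} [MeasurableSpace Ω] {μ : Measure Ω} {X : ℕ → Ω → V}
    (hX : IsChain (Pk w) x0 μ X) (hx0 : lev x0 < R 2) (n : ℕ) :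
    μ {ω | (st (UA R N) (0, fun _ => 0) (fun i => X i ω) n).1 = N + 1 ∧
      T ≤ (st (UA R N) (0, fun _ => 0) (fun i => X i ω) n).2 κ ∧
      ¬ ∃ i < n, IsEdge a b (X i ω) (X (i + 1) ω)} ≤ ENNReal.ofReal ((1 - α) ^ T) := by
  have h := hX.prob_le hw (UB R N a b) ((0, fun _ => 0), false) (fun x s => InvA R N x s.1)
    (phi1 κ ψ α T)
    (fun x s => phi1_nonneg hα1 hψ1 x s) (InvA_start hR hR0 hx0)
    (fun x s hI e he => InvA_step hR hR0 hI he)
    (fun x s hI => phi1_super hw hR hR0 hκ hα0 hα1 hψ0 hψ1 hψα hψout hψsub x s hI)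
    (fun _ s => s.1.1 = N + 1 ∧ T ≤ s.1.2 κ ∧ ¬ s.2 = true) (fun x s hs => by
      unfold phi1
      rw [if_neg hs.2.2, if_neg (by omega), show T - s.1.2 κ = 0 by omega]
      simp) n
  refine le_trans (measure_mono (fun ω hω => ?_)) (h.trans (ENNReal.ofReal_le_ofReal ?_))
  · simp only [Set.mem_ofPred_eq] at hω ⊢
    rw [st_UB_fst, st_UB_snd]
    exact hω
  · unfold phi1
    rw [if_neg (by simp)]
    simp only [Nat.sub_zero]
    split_ifs
    · exact mul_le_of_le_one_right (pow_nonneg (by linarith) _) (by linarith [hψ0 x0])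
    · rw [mul_one]

end E1

/-! ### Leaving the finite region -/

section exit
variable {w : ℤ → ℝ} (hw : ∀ l, 0 < w l) (hw1 : ∀ l, w l ≤ 2 * w (l + 1))
  (hw2 : ∀ l, w (l + 1) ≤ 2 * w l)

include hw1 hw2 in
theorem cd_bounds (hw : ∀ l, 0 < w l) (x : V) {e : V} (he : e ∈ dirs) :
    w (lev x) ≤ 2 * cd w x (x + e) ∧ cd w x (x + e) ≤ 2 * w (lev x) := by
  have l1 := lev_add_le (x := x) he
  have l2 := le_lev_add (x := x) he
  have h0 := hw (lev x)
  unfold cd
  by_cases c : lev x ≤ lev (x + e)
  · rw [min_eq_left c]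
    constructor <;> linarith
  · have : min (lev x) (lev (x + e)) = lev x - 1 := by omega
    rw [this]
    have a1 := hw1 (lev x - 1)
    have a2 := hw2 (lev x - 1)
    rw [sub_add_cancel] at a1 a2
    exact ⟨a2, a1⟩

include hw hw1 hw2 in
theorem piw_le (x : V) : piw w x ≤ 8 * w (lev x) := by
  unfold piw
  rw [sum_dirs]
  have h1 := (cd_bounds hw1 hw2 hw x (e := (1, 0)) (by simp [dirs])).2
  have h2 := (cd_bounds hw1 hw2 hw x (e := (-1, 0)) (by simp [dirs])).2
  have h3 := (cd_bounds hw1 hw2 hw x (e := (0, 1)) (by simp [dirs])).2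
  have h4 := (cd_bounds hw1 hw2 hw x (e := (0, -1)) (by simp [dirs])).2
  linarith

theorem exists_out (x : V) : ∃ e ∈ dirs, lev (x + e) = lev x + 1 := by
  obtain ⟨a, b⟩ := x
  rcases le_or_gt (|a|) (|b|) with h | h
  · rcases le_total 0 b with h' | h'
    · exact ⟨(0, 1), by simp [dirs], by simp only [lev, Prod.mk_add_mk, abs_eq_max_neg] at *; omega⟩
    · exact ⟨(0, -1), by simp [dirs], by simp only [lev, Prod.mk_add_mk, abs_eq_max_neg] at *; omega⟩
  · rcases le_total 0 a with h' | h'
    · exact ⟨(1, 0), by simp [dirs], by simp only [lev, Prod.mk_add_mk, abs_eq_max_neg] at *; omega⟩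
    · exact ⟨(-1, 0), by simp [dirs], by simp only [lev, Prod.mk_add_mk, abs_eq_max_neg] at *; omega⟩

include hw hw1 hw2 in
theorem exit_bound {R : ℕ → ℤ} (hR : StrictMono R) (hR0 : R 0 = -1) {N : ℕ}
    {x0 : V} {Ω : Type} [MeasurableSpace Ω] {μ : Measure Ω} {X : ℕ → Ω → V}
    (hX : IsChain (Pk w) x0 μ X) (hx0 : lev x0 < R 2) :
    ∃ K : ℝ, ∀ n : ℕ, (n : ℝ≥0∞) * μ {ω | ¬ (st (UA R N) (0, fun _ => 0) (fun i => X i ω) n).1 = N + 1} ≤
      ENNReal.ofReal K := by
  set B : ℤ := R (N + 2) with hB
  have hB0 : 0 ≤ B := by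
    have : R 0 < R (N + 2) := hR (by omega)
    rw [hR0] at this
    omega
  set g : V → ℝ := fun x => (16 : ℝ) ^ (lev x).toNat with hg
  set K : ℝ := (16 : ℝ) ^ B.toNat with hK
  set φ : V → SA → ℝ := fun x s => if s.1 = N + 1 then 0 else max 0 (K - g x) with hφ
  set c : V → SA → ℝ := fun x s => if s.1 = N + 1 then 0 else 1 with hc
  refine ⟨φ x0 (0, fun _ => 0), fun n => ?_⟩
  have gle : ∀ x, lev x ≤ B → g x ≤ K := fun x hx => by
    simp only [hg, hK]
    exact pow_le_pow_right₀ (by norm_num) (by omega)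
  have key := hX.super hw (UA R N) (0, fun _ => 0) (InvA R N) φ c
    (fun x s => by simp only [hφ]; split_ifs; exacts [le_rfl, le_max_left _ _])
    (fun x s => by simp only [hc]; split_ifs <;> norm_num)
    (InvA_start hR hR0 hx0) (fun x s hI e he => InvA_step hR hR0 hI he) (fun x s hI => by
      by_cases c0 : s.1 = N + 1
      · have e1 : ∀ y, φ y (UA R N s x y) = 0 := fun y => by
          simp only [hφ]
          unfold UA upd
          rw [if_pos c0, if_pos c0]
        rw [Finset.sum_congr rfl (fun e _ => by rw [e1, mul_zero])]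
        simp only [hφ, hc, if_pos c0]
        simp
      · obtain ⟨h1, h2, h3⟩ : s.1 ≤ N ∧ R s.1 < lev x ∧ lev x < R (s.1 + 2) := by
          unfold InvA at hI
          tauto
        have hxB : lev x < B := lt_of_lt_of_le h3 (hR.monotone (by omega))
        have pt : ∀ e ∈ dirs, φ (x + e) (UA R N s x (x + e)) ≤ K - g (x + e) := by
          intro e he
          have l1 := lev_add_le (x := x) he
          have := gle (x + e) (by omega)
          simp only [hφ]
          split_ifs
          · linarith
          · exact max_le (by linarith) le_rfl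
        have hx : φ x s - c x s = K - g x - 1 := by
          have := gle x hxB.le
          simp only [hφ, hc, if_neg c0]
          rw [max_eq_right (by linarith)]
        rw [hx]
        obtain ⟨e0, he0, hout⟩ := exists_out x
        have hg0 : ∀ y, 0 ≤ g y := fun y => by simp only [hg]; positivity
        have hsum : piw w x * (g x + 1) ≤ ∑ e ∈ dirs, cd w x (x + e) * g (x + e) := by
          have s1 : cd w x (x + e0) * g (x + e0) ≤ ∑ e ∈ dirs, cd w x (x + e) * g (x + e) :=
            Finset.single_le_sum (f := fun e => cd w x (x + e) * g (x + e))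
              (fun e _ => mul_nonneg (cd_pos hw _ _).le (hg0 _)) he0
          have s2 : cd w x (x + e0) = w (lev x) := by
            unfold cd
            rw [hout, min_eq_left (by omega)]
          have s3 : g (x + e0) = 16 * g x := by
            simp only [hg]
            rw [hout, show (lev x + 1).toNat = (lev x).toNat + 1 by have := lev_nonneg x; omega,
              pow_succ]
            ring
          have s4 := piw_le hw hw1 hw2 x
          have s5 : 1 ≤ g x := by
            simp only [hg]
            exact one_le_pow₀ (by norm_num)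
          have s6 := piw_pos hw x
          rw [s2, s3] at s1
          have s7 : piw w x * (g x + 1) ≤ piw w x * (2 * g x) :=
            mul_le_mul_of_nonneg_left (by linarith) s6.le
          have s8 : piw w x * (2 * g x) ≤ 8 * w (lev x) * (2 * g x) :=
            mul_le_mul_of_nonneg_right s4 (by linarith)
          linarith
        calc ∑ e ∈ dirs, cd w x (x + e) * φ (x + e) (UA R N s x (x + e))
            ≤ ∑ e ∈ dirs, cd w x (x + e) * (K - g (x + e)) :=
              Finset.sum_le_sum (fun e he => mul_le_mul_of_nonneg_left (pt e he) (cd_pos hw _ _).le)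
          _ = piw w x * K - ∑ e ∈ dirs, cd w x (x + e) * g (x + e) := by
              unfold piw
              rw [Finset.sum_mul, ← Finset.sum_sub_distrib]
              exact Finset.sum_congr rfl (fun e _ => by ring)
          _ ≤ piw w x * (K - g x - 1) := by linarith) n
  refine le_trans ?_ ((le_add_left le_rfl).trans key)
  have hmono : ∀ (x : ℕ → V) (j n : ℕ), j ≤ n →
      (st (UA R N) (0, fun _ => 0) x j).1 = N + 1 → (st (UA R N) (0, fun _ => 0) x n).1 = N + 1 := by
    intro x j n hjn h
    induction n, hjn using Nat.le_induction with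
    | base => exact h
    | succ n _ ih =>
      simp only [st]
      unfold UA upd
      rw [if_pos (by exact ih)]
      exact ih
  have e : ∀ j ∈ range n, μ {ω | ¬ (st (UA R N) (0, fun _ => 0) (fun i => X i ω) n).1 = N + 1} ≤
      ∫⁻ ω, ENNReal.ofReal (c (X j ω) (st (UA R N) (0, fun _ => 0) (fun i => X i ω) j)) ∂μ := by
    intro j hj
    rw [← lintegral_indicator_one (hX.measurable_st (UA R N) (0, fun _ => 0) n
      (fun _ s => ¬ s.1 = N + 1))]
    refine lintegral_mono (fun ω => ?_)
    by_cases hω : ¬ (st (UA R N) (0, fun _ => 0) (fun i => X i ω) n).1 = N + 1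
    · rw [Set.indicator_of_mem (by exact hω)]
      have : ¬ (st (UA R N) (0, fun _ => 0) (fun i => X i ω) j).1 = N + 1 := fun h =>
        hω (hmono _ j n (by have := mem_range.1 hj; omega) h)
      simp only [hc, if_neg this]
      simp
    · rw [Set.indicator_of_notMem (by exact hω)]
      exact zero_le
  have := Finset.sum_le_sum e
  rw [Finset.sum_const, card_range, nsmul_eq_mul] at this
  exact this

end exit

end Pool.Agent.Lib.MP_e14847_pr
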