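import Mathlib
import Pool.Agent.Lib.MP_e14847_pr.Pot

open Finset

namespace Pool.Agent.Lib.MP_e14847_pr

section dirsum
variable {w : ℤ → ℝ} (hw : ∀ l, 0 < w l) (M : ℤ) (f : V → ℝ)
include hw

theorem sum_dir_le (e : V) (S : Finset V) (hS : ∀ x ∈ S, lev x ≤ M) :
    ∑ x ∈ S, cd w x (x + e) * (f (x + e) - f x) ^ 2 ≤ De w M e f f := by
  unfold De
  have h : ∀ x, cd w x (x + e) * (f (x + e) - f x) ^ 2 =
      cd w x (x + e) * (f (x + e) - f x) * (f (x + e) - f x) := fun x => by ring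
  rw [Finset.sum_congr rfl (fun x _ => h x)]
  refine Finset.sum_le_sum_of_subset_of_nonneg (fun x hx => mem_box.2 (hS x hx)) ?_
  intro x _ _
  rw [← h]
  exact mul_nonneg (cd_pos hw _ _).le (sq_nonneg _)

theorem sum_dir_neg_le (e : V) (S : Finset V) (hS : ∀ x ∈ S, lev (x + -e) ≤ M) :
    ∑ x ∈ S, cd w x (x + -e) * (f (x + -e) - f x) ^ 2 ≤ De w M e f f := by
  have h := sum_dir_le hw M f e (S.image (fun x => x + -e)) (fun x hx => by
    rw [Finset.mem_image] at hx
    obtain ⟨y, hy, rfl⟩ := hx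
    exact hS y hy)
  rw [Finset.sum_image (fun x _ y _ hxy => add_right_cancel hxy)] at h
  refine le_trans (le_of_eq ?_) h
  refine Finset.sum_congr rfl (fun x _ => ?_)
  rw [neg_add_cancel_right, cd_comm]
  ring

theorem sum_dir_le' (e e0 : V) (he : e = e0 ∨ e = -e0) (S : Finset V)
    (hS : ∀ x ∈ S, lev x ≤ M ∧ lev (x + e) ≤ M) :
    ∑ x ∈ S, cd w x (x + e) * (f (x + e) - f x) ^ 2 ≤ De w M e0 f f := by
  rcases he with rfl | rfl
  · exact sum_dir_le hw M f e S (fun x hx => (hS x hx).1)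
  · exact sum_dir_neg_le hw M f e0 S (fun x hx => (hS x hx).2)

end dirsum

/-- Cauchy–Schwarz along a straight path. -/
theorem path_sq {w : ℤ → ℝ} (f : V → ℝ) (e : V) (pt : ℕ → V)
    (h1 : ∀ i, pt (i + 1) = pt i + e) (n : ℕ) (β : ℝ) (hb : 0 ≤ β)
    (hβ : ∀ i < n, β ≤ cd w (pt i) (pt i + e)) :
    β * (f (pt n) - f (pt 0)) ^ 2 ≤
      n * ∑ i ∈ range n, cd w (pt i) (pt i + e) * (f (pt i + e) - f (pt i)) ^ 2 := by
  have h2 : f (pt n) - f (pt 0) = ∑ i ∈ range n, (f (pt i + e) - f (pt i)) := by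
    rw [← Finset.sum_range_sub (fun i => f (pt i))]
    exact Finset.sum_congr rfl (fun i _ => by rw [h1])
  calc β * (f (pt n) - f (pt 0)) ^ 2
        ≤ β * (n * ∑ i ∈ range n, (f (pt i + e) - f (pt i)) ^ 2) := by
          refine mul_le_mul_of_nonneg_left ?_ hb
          rw [h2]
          have := sq_sum_le_card_mul_sum_sq (s := range n) (f := fun i => f (pt i + e) - f (pt i))
          rwa [card_range] at this
      _ = n * ∑ i ∈ range n, β * (f (pt i + e) - f (pt i)) ^ 2 := by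
          rw [← Finset.mul_sum]
          ring
      _ ≤ _ := by
          refine mul_le_mul_of_nonneg_left ?_ (Nat.cast_nonneg _)
          refine Finset.sum_le_sum (fun i hi => ?_)
          exact mul_le_mul_of_nonneg_right (hβ i (mem_range.1 hi)) (sq_nonneg _)

/-- Oscillation along a straight segment inside one level. -/
theorem line_osc {w : ℤ → ℝ} (hw : ∀ l, 0 < w l) (M r : ℤ) (hM : r ≤ M) (f : V → ℝ) (e e0 : V)
    (he : e = e0 ∨ e = -e0) (he0 : e0 = (1, 0) ∨ e0 = (0, 1))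
    (pt : ℕ → V) (h1 : ∀ i, pt (i + 1) = pt i + e) (hinj : Function.Injective pt) (n : ℕ)
    (hlev : ∀ i ≤ n, lev (pt i) = r) :
    w r * (f (pt n) - f (pt 0)) ^ 2 ≤ n * DD w M f f := by
  have h2 := path_sq f e pt h1 n (w r) (hw r).le (fun i hi => by
    unfold cd
    rw [← h1, hlev i hi.le, hlev (i + 1) hi, min_self])
  refine h2.trans (mul_le_mul_of_nonneg_left ?_ (Nat.cast_nonneg _))
  have h3 := sum_dir_le' hw M f e e0 he ((range n).image pt) (fun x hx => by
    rw [Finset.mem_image] at hx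
    obtain ⟨i, hi, rfl⟩ := hx
    rw [← h1, hlev i (mem_range.1 hi).le, hlev (i + 1) (mem_range.1 hi)]
    exact ⟨hM, hM⟩)
  rw [Finset.sum_image (fun x _ y _ hxy => hinj hxy)] at h3
  refine h3.trans ?_
  have a1 := De_self_nonneg hw M (1, 0) f
  have a2 := De_self_nonneg hw M (0, 1) f
  unfold DD
  rcases he0 with rfl | rfl <;> linarith

theorem osc_hor {w : ℤ → ℝ} (hw : ∀ l, 0 < w l) (M r : ℤ) (hM : r ≤ M) (f : V → ℝ)
    (s t1 t2 : ℤ) (hs : |s| = r) (h1 : |t1| ≤ r) (h2 : |t2| ≤ r) :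
    w r * (f (t1, s) - f (t2, s)) ^ 2 ≤ 2 * r * DD w M f f := by
  wlog h : t1 ≤ t2 generalizing t1 t2
  · have := this t2 t1 h2 h1 (le_of_not_ge h)
    rw [show (f (t1, s) - f (t2, s)) ^ 2 = (f (t2, s) - f (t1, s)) ^ 2 by ring]
    exact this
  have h3 := line_osc hw M r hM f (1, 0) (1, 0) (Or.inl rfl) (Or.inl rfl)
    (fun i => (t1 + i, s)) (fun i => by
      simp only [Prod.mk_add_mk, add_zero, Nat.cast_add, Nat.cast_one]
      ring_nf) (fun i j hij => by
      simp only [Prod.mk.injEq, add_right_inj, Nat.cast_inj, and_true] at hij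
      exact hij) (t2 - t1).toNat (fun i hi => by
      simp only [lev, hs]
      rw [abs_eq_max_neg] at h1 h2 ⊢
      omega)
  have h4 : (((t2 - t1).toNat : ℤ) : ℤ) = t2 - t1 := Int.toNat_of_nonneg (by omega)
  simp only [Nat.cast_zero, add_zero] at h3
  rw [h4, show t1 + (t2 - t1) = t2 by ring] at h3
  rw [show (f (t1, s) - f (t2, s)) ^ 2 = (f (t2, s) - f (t1, s)) ^ 2 by ring]
  refine h3.trans (mul_le_mul_of_nonneg_right ?_ (DD_self_nonneg hw M f))
  have h5 : (((t2 - t1).toNat : ℤ) : ℝ) ≤ ((2 * r : ℤ) : ℝ) := by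
    rw [h4]
    refine Int.cast_le.2 ?_
    rw [abs_eq_max_neg] at h1 h2
    omega
  push_cast at h5
  exact h5

theorem osc_ver {w : ℤ → ℝ} (hw : ∀ l, 0 < w l) (M r : ℤ) (hM : r ≤ M) (f : V → ℝ)
    (s t1 t2 : ℤ) (hs : |s| = r) (h1 : |t1| ≤ r) (h2 : |t2| ≤ r) :
    w r * (f (s, t1) - f (s, t2)) ^ 2 ≤ 2 * r * DD w M f f := by
  wlog h : t1 ≤ t2 generalizing t1 t2
  · have := this t2 t1 h2 h1 (le_of_not_ge h)
    rw [show (f (s, t1) - f (s, t2)) ^ 2 = (f (s, t2) - f (s, t1)) ^ 2 by ring]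
    exact this
  have h3 := line_osc hw M r hM f (0, 1) (0, 1) (Or.inl rfl) (Or.inr rfl)
    (fun i => (s, t1 + i)) (fun i => by
      simp only [Prod.mk_add_mk, add_zero, Nat.cast_add, Nat.cast_one]
      ring_nf) (fun i j hij => by
      simp only [Prod.mk.injEq, add_right_inj, Nat.cast_inj, true_and] at hij
      exact hij) (t2 - t1).toNat (fun i hi => by
      simp only [lev, hs]
      rw [abs_eq_max_neg] at h1 h2 ⊢
      omega)
  have h4 : (((t2 - t1).toNat : ℤ) : ℤ) = t2 - t1 := Int.toNat_of_nonneg (by omega)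
  simp only [Nat.cast_zero, add_zero] at h3
  rw [h4, show t1 + (t2 - t1) = t2 by ring] at h3
  rw [show (f (s, t1) - f (s, t2)) ^ 2 = (f (s, t2) - f (s, t1)) ^ 2 by ring]
  refine h3.trans (mul_le_mul_of_nonneg_right ?_ (DD_self_nonneg hw M f))
  have h5 : (((t2 - t1).toNat : ℤ) : ℝ) ≤ ((2 * r : ℤ) : ℝ) := by
    rw [h4]
    refine Int.cast_le.2 ?_
    rw [abs_eq_max_neg] at h1 h2
    omega
  push_cast at h5
  exact h5

/-- Oscillation on a ring, towards the corner. -/
theorem osc_corner {w : ℤ → ℝ} (hw : ∀ l, 0 < w l) (M r : ℤ) (hM : r ≤ M) (f : V → ℝ)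
    (z : V) (hz : lev z = r) :
    w r * (f z - f (r, r)) ^ 2 ≤ 8 * r * DD w M f f := by
  obtain ⟨a, b⟩ := z
  have hr : 0 ≤ r := by rw [← hz]; exact lev_nonneg _
  have hrr : |r| = r := abs_of_nonneg hr
  simp only [lev] at hz
  have ha : |a| ≤ r := by omega
  have hb : |b| ≤ r := by omega
  have hD := DD_self_nonneg hw M f
  have hwr := hw r
  have hrD : 0 ≤ (r : ℝ) * DD w M f f := mul_nonneg (by exact_mod_cast hr) hD
  have comb : ∀ u v t : ℝ, w r * (u - v) ^ 2 ≤ 2 * r * DD w M f f →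
      w r * (v - t) ^ 2 ≤ 2 * r * DD w M f f → w r * (u - t) ^ 2 ≤ 8 * r * DD w M f f := by
    intro u v t h1 h2
    have h3 : (u - t) ^ 2 ≤ 2 * (u - v) ^ 2 + 2 * (v - t) ^ 2 := by
      nlinarith [sq_nonneg ((u - v) - (v - t))]
    have h4 := mul_le_mul_of_nonneg_left h3 hwr.le
    linarith
  rcases le_or_gt (|a|) (|b|) with h | h
  · -- horizontal side
    have hb' : |b| = r := by omega
    have h1 := osc_hor hw M r hM f b a r hb' ha hrr.le
    have h2 := osc_ver hw M r hM f r b r hrr hb hrr.le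
    exact comb _ _ _ h1 h2
  · have ha' : |a| = r := by omega
    have h1 := osc_ver hw M r hM f a b r ha' hb hrr.le
    have h2 := osc_hor hw M r hM f r a r hrr ha hrr.le
    exact comb _ _ _ h1 h2

/-- Oscillation on a ring. -/
theorem osc_ring {w : ℤ → ℝ} (hw : ∀ l, 0 < w l) (M r : ℤ) (hM : r ≤ M) (f : V → ℝ)
    (z z' : V) (hz : lev z = r) (hz' : lev z' = r) :
    w r * (f z - f z') ^ 2 ≤ 32 * r * DD w M f f := by
  have h1 := osc_corner hw M r hM f z hz
  have h2 := osc_corner hw M r hM f z' hz'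
  have h3 : (f z - f z') ^ 2 ≤ 2 * (f z - f (r, r)) ^ 2 + 2 * (f z' - f (r, r)) ^ 2 := by
    nlinarith [sq_nonneg ((f z - f (r, r)) + (f z' - f (r, r)))]
  have h4 := mul_le_mul_of_nonneg_left h3 (hw r).le
  linarith

/-- Lower bound for the effective conductance between two levels (columns). -/
theorem column_lower {w : ℤ → ℝ} (hw : ∀ l, 0 < w l) (M a b : ℤ) (ha : 0 ≤ a) (hab : a < b)
    (hM : b ≤ M) (f : V → ℝ) (h0 : ∀ x, lev x ≤ a → f x = 0) (h1 : ∀ x, b ≤ lev x → f x = 1)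
    (β : ℝ) (hβ0 : 0 ≤ β) (hβ : ∀ l, a ≤ l → l < b → β ≤ w l) :
    (2 * a + 1) * β ≤ (b - a) * DD w M f f := by
  set n : ℕ := (b - a).toNat with hn
  have hnb : (n : ℤ) = b - a := Int.toNat_of_nonneg (by omega)
  have hcol : ∀ t ∈ Finset.Icc (-a) a, β ≤ (b - a) * ∑ i ∈ range n,
      cd w (t, a + i) ((t, a + i) + (0, 1)) * (f ((t, a + i) + (0, 1)) - f (t, a + i)) ^ 2 := by
    intro t ht
    rw [Finset.mem_Icc] at ht
    have hl : ∀ i : ℕ, lev (t, a + (i : ℤ)) = a + i := fun i => by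
      simp only [lev, abs_eq_max_neg]
      omega
    have h2 := path_sq (w := w) f (0, 1) (fun i : ℕ => ((t, a + (i : ℤ)) : V)) (fun i => by
      simp only [Prod.mk_add_mk, add_zero, Nat.cast_add, Nat.cast_one]
      ring_nf) n β hβ0 (fun i hi => by
      have e : ((t, a + (i : ℤ)) : V) + (0, 1) = (t, a + ((i + 1 : ℕ) : ℤ)) := by
        simp only [Prod.mk_add_mk, add_zero, Nat.cast_add, Nat.cast_one]
        ring_nf
      unfold cd
      rw [e, hl, hl]
      refine hβ _ ?_ ?_ <;> push_cast <;> omega)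
    rw [h1 (t, a + (n : ℤ)) (by rw [hl]; omega), h0 (t, a + ((0 : ℕ) : ℤ)) (by rw [hl]; simp)] at h2
    have h3 : (n : ℝ) = b - a := by
      have : ((n : ℤ) : ℝ) = ((b - a : ℤ) : ℝ) := by rw [hnb]
      push_cast at this
      exact this
    rw [h3] at h2
    simpa using h2
  have hsum := Finset.sum_le_sum hcol
  rw [Finset.sum_const, nsmul_eq_mul, ← Finset.mul_sum] at hsum
  have hcard : ((Finset.Icc (-a) a).card : ℝ) = 2 * a + 1 := by
    rw [Int.card_Icc]
    have : ((a + 1 - -a).toNat : ℤ) = 2 * a + 1 := by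
      rw [Int.toNat_of_nonneg (by omega)]
      ring
    have h2 : (((a + 1 - -a).toNat : ℤ) : ℝ) = ((2 * a + 1 : ℤ) : ℝ) := by rw [this]
    push_cast at h2
    exact h2
  rw [hcard] at hsum
  refine hsum.trans (mul_le_mul_of_nonneg_left ?_ (by
    have : (a : ℝ) < b := by exact_mod_cast hab
    linarith))
  have h5 := sum_dir_le hw M f (0, 1) (((Finset.Icc (-a) a) ×ˢ (range n)).image
    (fun p => ((p.1, a + (p.2 : ℤ)) : V))) (fun x hx => by
      rw [Finset.mem_image] at hx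
      obtain ⟨⟨t, i⟩, hp, rfl⟩ := hx
      rw [Finset.mem_product, Finset.mem_Icc, Finset.mem_range] at hp
      simp only [lev, abs_eq_max_neg] at hp ⊢
      omega)
  rw [Finset.sum_image (fun x _ y _ hxy => by
    obtain ⟨x1, x2⟩ := x
    obtain ⟨y1, y2⟩ := y
    simp only [Prod.mk.injEq, add_right_inj, Nat.cast_inj] at hxy ⊢
    exact hxy), Finset.sum_product] at h5
  refine h5.trans ?_
  have a1 := De_self_nonneg hw M (1, 0) f
  unfold DD
  linarith

/-- Size of a closed annulus. -/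
theorem card_box {M : ℤ} (hM : 0 ≤ M) : ((box M).card : ℝ) = (2 * M + 1) ^ 2 := by
  unfold box
  have h : (Finset.Icc ((-M, -M) : V) (M, M)) = (Finset.Icc (-M) M) ×ˢ (Finset.Icc (-M) M) := by
    ext ⟨a, b⟩
    simp only [Finset.mem_Icc, Prod.mk_le_mk, Finset.mem_product]
    omega
  rw [h, Finset.card_product, Int.card_Icc]
  have : ((M + 1 - -M).toNat : ℤ) = 2 * M + 1 := by
    rw [Int.toNat_of_nonneg (by omega)]
    ring
  have h2 : (((M + 1 - -M).toNat : ℤ) : ℝ) = ((2 * M + 1 : ℤ) : ℝ) := by rw [this]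
  push_cast at h2
  have h3 : ((M + 1 - -M).toNat : ℝ) = 2 * M + 1 := h2
  rw [Nat.cast_mul, h3]
  ring

/-- Upper bound for the effective conductance (ramp test function). -/
theorem ramp_upper {w : ℤ → ℝ} (hw : ∀ l, 0 < w l) (M a b s F : ℤ) (h0 : 0 ≤ a) (has : a ≤ s)
    (hF : 1 ≤ F) (hsb : s + F ≤ b) (hM : b ≤ M) (β : ℝ)
    (hβ : ∀ l, s ≤ l → l < s + F → w l ≤ β) :
    Ceff w M a b * F ≤ 32 * b * β := by
  have hab : a < b := by omega
  have hFr : (0 : ℝ) < F := by exact_mod_cast (by omega : 0 < F)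
  set φ : V → ℝ := fun x => max (min (((lev x - s : ℤ) : ℝ) / F) 1) 0 with hφ
  have hφ0 : ∀ x, lev x ≤ s → φ x = 0 := fun x hx => by
    simp only [hφ]
    have : ((lev x - s : ℤ) : ℝ) / F ≤ 0 :=
      div_nonpos_of_nonpos_of_nonneg (by exact_mod_cast (by omega : lev x - s ≤ 0)) hFr.le
    rw [min_eq_left (by linarith), max_eq_right this]
  have hφ1 : ∀ x, s + F ≤ lev x → φ x = 1 := fun x hx => by
    simp only [hφ]
    have : 1 ≤ ((lev x - s : ℤ) : ℝ) / F := by
      rw [le_div_iff₀ hFr, one_mul]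
      exact_mod_cast (by omega : F ≤ lev x - s)
    rw [min_eq_right this]
    norm_num
  have hdir := dirichlet hw hab hM φ (fun x hx => hφ0 x (by omega)) (fun x hx => hφ1 x (by omega))
  have hβ0 : 0 ≤ β := (hw s).le.trans (hβ s le_rfl (by omega))
  -- Lipschitz
  have hlip : ∀ x e : V, e ∈ dirs → (φ (x + e) - φ x) ^ 2 ≤ 1 / F ^ 2 := by
    intro x e he
    have h1 := lev_add_le (x := x) he
    have h2 := le_lev_add (x := x) he
    have h3 : |((lev (x + e) - s : ℤ) : ℝ) / F - ((lev x - s : ℤ) : ℝ) / F| ≤ 1 / F := by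
      rw [← sub_div, abs_div, abs_of_pos hFr]
      refine div_le_div_of_nonneg_right ?_ hFr.le
      rw [← Int.cast_sub, ← Int.cast_abs]
      have : |lev (x + e) - s - (lev x - s)| ≤ 1 := by
        rw [abs_eq_max_neg]
        omega
      exact_mod_cast this
    have h4 : |φ (x + e) - φ x| ≤ 1 / F := by
      refine le_trans ?_ h3
      simp only [hφ]
      refine (abs_max_sub_max_le_abs _ _ _).trans ?_
      refine (abs_min_sub_min_le_max _ _ _ _).trans ?_
      rw [sub_self, abs_zero]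
      exact max_le le_rfl (abs_nonneg _)
    calc (φ (x + e) - φ x) ^ 2 = |φ (x + e) - φ x| ^ 2 := (sq_abs _).symm
      _ ≤ (1 / F) ^ 2 := pow_le_pow_left₀ (abs_nonneg _) h4 2
      _ = 1 / F ^ 2 := by rw [div_pow, one_pow]
  have hterm : ∀ e ∈ dirs, De w M e φ φ ≤
      ((box (s + F)).card - (box (s - 1)).card : ℝ) * (β / F ^ 2) := by
    intro e he
    have hsub : box (s - 1) ⊆ box (s + F) := fun x hx => by
      rw [mem_box] at hx ⊢
      omega
    have hsub2 : box (s + F) ⊆ box M := fun x hx => by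
      rw [mem_box] at hx ⊢
      omega
    have h5 : De w M e φ φ = ∑ x ∈ (box (s + F)) \ (box (s - 1)),
        cd w x (x + e) * (φ (x + e) - φ x) * (φ (x + e) - φ x) := by
      unfold De
      symm
      refine Finset.sum_subset (Finset.sdiff_subset.trans hsub2) ?_
      intro x _ hx2
      rw [Finset.mem_sdiff, mem_box, mem_box] at hx2
      have h1 := lev_add_le (x := x) he
      have h2 := le_lev_add (x := x) he
      by_cases hc : lev x ≤ s - 1
      · rw [hφ0 x (by omega), hφ0 (x + e) (by omega)]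
        ring
      · rw [hφ1 x (by omega), hφ1 (x + e) (by omega)]
        ring
    rw [h5]
    have h6 : ∀ x ∈ (box (s + F)) \ (box (s - 1)),
        cd w x (x + e) * (φ (x + e) - φ x) * (φ (x + e) - φ x) ≤ β / F ^ 2 := by
      intro x _
      have h1 := lev_add_le (x := x) he
      have h2 := le_lev_add (x := x) he
      by_cases hc : s ≤ min (lev x) (lev (x + e)) ∧ min (lev x) (lev (x + e)) < s + F
      · have h7 : cd w x (x + e) ≤ β := hβ _ hc.1 hc.2
        have h8 : cd w x (x + e) * (φ (x + e) - φ x) ^ 2 ≤ β * (1 / F ^ 2) :=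
          mul_le_mul h7 (hlip x e he) (sq_nonneg _) hβ0
        calc cd w x (x + e) * (φ (x + e) - φ x) * (φ (x + e) - φ x)
            = cd w x (x + e) * (φ (x + e) - φ x) ^ 2 := by ring
          _ ≤ β * (1 / F ^ 2) := h8
          _ = β / F ^ 2 := by ring
      · have h9 : φ (x + e) - φ x = 0 := by
          by_cases hc2 : min (lev x) (lev (x + e)) < s
          · rw [hφ0 x (by omega), hφ0 (x + e) (by omega), sub_self]
          · rw [hφ1 x (by omega), hφ1 (x + e) (by omega), sub_self]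
        rw [h9, mul_zero]
        positivity
    refine (Finset.sum_le_card_nsmul _ _ _ h6).trans (le_of_eq ?_)
    rw [nsmul_eq_mul, Finset.card_sdiff_of_subset hsub, Nat.cast_sub (Finset.card_le_card hsub)]
  have htot : DD w M φ φ ≤ 2 * (((box (s + F)).card - (box (s - 1)).card : ℝ) * (β / F ^ 2)) := by
    unfold DD
    have := hterm (1, 0) (by simp [dirs])
    have := hterm (0, 1) (by simp [dirs])
    linarith
  have hcard : ((box (s + F)).card - (box (s - 1)).card : ℝ) ≤ 16 * b * F := by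
    have hFr1 : (1 : ℝ) ≤ F := by exact_mod_cast hF
    have hsb' : (s : ℝ) + F ≤ b := by exact_mod_cast hsb
    have hs0 : (0 : ℝ) ≤ s := by exact_mod_cast (by omega : 0 ≤ s)
    rw [card_box (by omega)]
    push_cast
    rcases Int.lt_or_le 0 s with hs | hs
    · rw [card_box (by omega)]
      push_cast
      have : (1 : ℝ) ≤ s := by exact_mod_cast hs
      nlinarith
    · have hs' : s = 0 := by omega
      subst hs'
      have : (0 : ℝ) ≤ (box (0 - 1)).card := Nat.cast_nonneg _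
      push_cast at *
      nlinarith
  have hfin : Ceff w M a b ≤ 2 * ((16 * b * F) * (β / F ^ 2)) := by
    refine hdir.trans (htot.trans ?_)
    refine mul_le_mul_of_nonneg_left (mul_le_mul_of_nonneg_right hcard (by positivity))
      (by norm_num)
  calc Ceff w M a b * F ≤ 2 * ((16 * b * F) * (β / F ^ 2)) * F :=
        mul_le_mul_of_nonneg_right hfin hFr.le
    _ = 32 * b * β := by
        field_simp
        ring

/-- One step of the cone estimate. -/
theorem cone_row (v : ℕ → ℕ → ℝ) (j : ℕ) :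
    ((∑ s ∈ range (j + 1), v s j) / (j + 1) - (∑ s ∈ range (j + 2), v s (j + 1)) / (j + 2)) ^ 2 ≤
      2 / (j + 1) * ∑ s ∈ range (j + 1), ((v s (j + 1) - v s j) ^ 2 +
        (v (s + 1) (j + 1) - v s (j + 1)) ^ 2) := by
  set A : ℝ := (∑ s ∈ range (j + 1), v s j) / (j + 1) with hA
  set B : ℝ := (∑ s ∈ range (j + 2), v s (j + 1)) / (j + 2) with hB
  have hj1 : (0 : ℝ) < j + 1 := by positivity
  have hj2 : (0 : ℝ) < j + 2 := by positivity
  have e1 : ∑ s ∈ range (j + 1), ((j : ℝ) + 1 - s) * v s (j + 1) +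
      ∑ s ∈ range (j + 1), ((s : ℝ) + 1) * v (s + 1) (j + 1) =
      (j + 1) * ∑ s ∈ range (j + 2), v s (j + 1) := by
    have a1 : ∑ s ∈ range (j + 1), ((j : ℝ) + 1 - s) * v s (j + 1) =
        ∑ s ∈ range (j + 2), ((j : ℝ) + 1 - s) * v s (j + 1) := by
      rw [Finset.sum_range_succ _ (j + 1)]
      push_cast
      ring
    have a2 : ∑ s ∈ range (j + 1), ((s : ℝ) + 1) * v (s + 1) (j + 1) =
        ∑ s ∈ range (j + 2), (s : ℝ) * v s (j + 1) := by
      rw [Finset.sum_range_succ' _ (j + 1)]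
      push_cast
      ring
    rw [a1, a2, ← Finset.sum_add_distrib, Finset.mul_sum]
    exact Finset.sum_congr rfl (fun s _ => by ring)
  have e2 : (j + 1) * (A - B) = ∑ s ∈ range (j + 1),
      ((v s j - v s (j + 1)) + (((s : ℝ) + 1) / (j + 2)) * (v s (j + 1) - v (s + 1) (j + 1))) := by
    have b1 : ∑ s ∈ range (j + 1),
        ((v s j - v s (j + 1)) + (((s : ℝ) + 1) / (j + 2)) * (v s (j + 1) - v (s + 1) (j + 1))) =
        ∑ s ∈ range (j + 1), v s j - (1 / (j + 2)) * (∑ s ∈ range (j + 1), ((j : ℝ) + 1 - s) * v s (j + 1) +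
      ∑ s ∈ range (j + 1), ((s : ℝ) + 1) * v (s + 1) (j + 1)) := by
      rw [← Finset.sum_add_distrib, Finset.mul_sum, ← Finset.sum_sub_distrib]
      refine Finset.sum_congr rfl (fun s _ => ?_)
      field_simp
      ring
    rw [b1, e1, hA, hB]
    field_simp
  have e3 : ((j + 1) * (A - B)) ^ 2 ≤ (j + 1) * ∑ s ∈ range (j + 1),
      (2 * ((v s (j + 1) - v s j) ^ 2 + (v (s + 1) (j + 1) - v s (j + 1)) ^ 2)) := by
    rw [e2]
    have c1 := sq_sum_le_card_mul_sum_sq (s := range (j + 1)) (f := fun s =>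
      ((v s j - v s (j + 1)) + (((s : ℝ) + 1) / (j + 2)) * (v s (j + 1) - v (s + 1) (j + 1))))
    rw [card_range] at c1
    push_cast at c1
    refine c1.trans (mul_le_mul_of_nonneg_left (Finset.sum_le_sum (fun s hs => ?_)) hj1.le)
    have hs' : s < j + 1 := mem_range.1 hs
    have d1 : ((s : ℝ) + 1) / (j + 2) ≤ 1 := by
      rw [div_le_one hj2]
      have : (s : ℝ) < j + 1 := by exact_mod_cast hs'
      linarith
    have d0 : 0 ≤ ((s : ℝ) + 1) / (j + 2) := by positivity
    set κ := ((s : ℝ) + 1) / (j + 2)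
    set α := v s j - v s (j + 1)
    set γ := v s (j + 1) - v (s + 1) (j + 1)
    have f1 : (v s (j + 1) - v s j) ^ 2 = α ^ 2 := by ring
    have f2 : (v (s + 1) (j + 1) - v s (j + 1)) ^ 2 = γ ^ 2 := by ring
    rw [f1, f2]
    have f3 : (κ * γ) ^ 2 ≤ γ ^ 2 := by
      rw [mul_pow]
      have : κ ^ 2 ≤ 1 := pow_le_one₀ d0 d1
      nlinarith [sq_nonneg γ]
    nlinarith [sq_nonneg (α - κ * γ)]
  rw [← Finset.mul_sum] at e3
  have e4 : ((j + 1 : ℝ) * (A - B)) ^ 2 = (j + 1) * ((j + 1) * (A - B) ^ 2) := by ring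
  rw [e4] at e3
  have e5 := le_of_mul_le_mul_left e3 hj1
  rw [div_mul_eq_mul_div, le_div_iff₀ hj1]
  linarith

/-- The cone estimate, in coordinates. -/
theorem cone_coord {w : ℤ → ℝ} (hw : ∀ l, 0 < w l) (M q : ℤ) (J : ℕ) (f : V → ℝ)
    (pt : ℕ → ℕ → V) (e e' e0 e0' : V) (he : e = e0 ∨ e = -e0) (he' : e' = e0' ∨ e' = -e0')
    (hsum : De w M e0 f f + De w M e0' f f = DD w M f f)
    (h1 : ∀ s j, pt (s + 1) j = pt s j + e) (h2 : ∀ s j, pt s (j + 1) = pt s j + e')
    (hinj : ∀ s j s' j', pt s j = pt s' j' → s = s' ∧ j = j')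
    (hlev : ∀ s j, s ≤ j → lev (pt s j) = q + j) (hM : q + J ≤ M)
    (ω : ℕ → ℝ) (hω0 : ∀ j, 0 < ω j) (hω : ∀ j < J, ω j ≤ w (q + j) ∧ ω j ≤ w (q + j + 1))
    (hf : ∀ x, q + J ≤ lev x → f x = 0) :
    f (pt 0 0) ^ 2 ≤ (∑ j ∈ range J, 2 / ((j + 1) * ω j)) * DD w M f f := by
  set A : ℕ → ℝ := fun j => (∑ s ∈ range (j + 1), f (pt s j)) / (j + 1) with hA
  have hA0 : A 0 = f (pt 0 0) := by simp [hA]
  have hAJ : A J = 0 := by
    simp only [hA]
    rw [Finset.sum_eq_zero (fun s hs => ?_), zero_div]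
    exact hf _ (by rw [hlev s J (by have := mem_range.1 hs; omega)])
  have htel : f (pt 0 0) = ∑ j ∈ range J, (A j - A (j + 1)) := by
    rw [Finset.sum_range_sub', hA0, hAJ, sub_zero]
  set G : ℕ → ℝ := fun j => ∑ s ∈ range (j + 1),
    (cd w (pt s j) (pt s j + e') * (f (pt s j + e') - f (pt s j)) ^ 2 +
     cd w (pt s (j + 1)) (pt s (j + 1) + e) * (f (pt s (j + 1) + e) - f (pt s (j + 1))) ^ 2) with hG
  have hG0 : ∀ j, 0 ≤ G j := fun j => Finset.sum_nonneg (fun s _ =>
    add_nonneg (mul_nonneg (cd_pos hw _ _).le (sq_nonneg _))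
      (mul_nonneg (cd_pos hw _ _).le (sq_nonneg _)))
  have hrow : ∀ j ∈ range J, (A j - A (j + 1)) ^ 2 ≤ (2 / ((j + 1) * ω j)) * G j := by
    intro j hj
    have hjJ : j < J := mem_range.1 hj
    have r1 := cone_row (fun s j => f (pt s j)) j
    have r2 : A (j + 1) = (∑ s ∈ range (j + 2), f (pt s (j + 1))) / (j + 2) := by
      simp only [hA]
      push_cast
      ring_nf
    rw [r2]
    refine r1.trans ?_
    have r3 : ω j * ∑ s ∈ range (j + 1), ((f (pt s (j + 1)) - f (pt s j)) ^ 2 +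
        (f (pt (s + 1) (j + 1)) - f (pt s (j + 1))) ^ 2) ≤ G j := by
      rw [Finset.mul_sum]
      refine Finset.sum_le_sum (fun s hs => ?_)
      have hs' : s ≤ j := by have := mem_range.1 hs; omega
      rw [mul_add]
      refine add_le_add ?_ ?_
      · rw [h2]
        refine mul_le_mul_of_nonneg_right ?_ (sq_nonneg _)
        unfold cd
        rw [← h2, hlev s j hs', hlev s (j + 1) (by omega)]
        rw [min_eq_left (by push_cast; omega)]
        exact (hω j hjJ).1
      · rw [h1]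
        refine mul_le_mul_of_nonneg_right ?_ (sq_nonneg _)
        unfold cd
        rw [← h1, hlev s (j + 1) (by omega), hlev (s + 1) (j + 1) (by omega), min_self]
        have := (hω j hjJ).2
        push_cast
        rw [← add_assoc]
        exact this
    have r4 : 2 / ((j : ℝ) + 1) * ∑ s ∈ range (j + 1), ((f (pt s (j + 1)) - f (pt s j)) ^ 2 +
        (f (pt (s + 1) (j + 1)) - f (pt s (j + 1))) ^ 2) = 2 / ((j + 1) * ω j) *
        (ω j * ∑ s ∈ range (j + 1), ((f (pt s (j + 1)) - f (pt s j)) ^ 2 +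
        (f (pt (s + 1) (j + 1)) - f (pt s (j + 1))) ^ 2)) := by
      have := (hω0 j).ne'
      field_simp
    rw [r4]
    refine mul_le_mul_of_nonneg_left r3 ?_
    have := hω0 j
    positivity
  rw [htel]
  refine (Finset.sum_sq_le_sum_mul_sum_of_sq_le_mul (range J) (fun j _ => ?_)
    (fun j _ => hG0 j) hrow).trans ?_
  · have := hω0 j
    positivity
  refine mul_le_mul_of_nonneg_left ?_ (Finset.sum_nonneg (fun j _ => by
    have := hω0 j
    positivity))
  -- total energy
  have g1 : ∑ j ∈ range J, G j = ∑ j ∈ range J, ∑ s ∈ range (j + 1),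
      cd w (pt s j) (pt s j + e') * (f (pt s j + e') - f (pt s j)) ^ 2 +
      ∑ j ∈ range J, ∑ s ∈ range (j + 1),
      cd w (pt s (j + 1)) (pt s (j + 1) + e) * (f (pt s (j + 1) + e) - f (pt s (j + 1))) ^ 2 := by
    rw [← Finset.sum_add_distrib]
    refine Finset.sum_congr rfl (fun j _ => ?_)
    rw [← Finset.sum_add_distrib]
  have g2 : ∑ j ∈ range J, ∑ s ∈ range (j + 1),
      cd w (pt s j) (pt s j + e') * (f (pt s j + e') - f (pt s j)) ^ 2 ≤ De w M e0' f f := by
    have t := sum_dir_le' hw M f e' e0' he' (((range J).sigma (fun j => range (j + 1))).image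
      (fun p => pt p.2 p.1)) (fun x hx => by
        rw [Finset.mem_image] at hx
        obtain ⟨⟨j, s⟩, hp, rfl⟩ := hx
        rw [Finset.mem_sigma, mem_range, mem_range] at hp
        simp only at hp ⊢
        rw [← h2, hlev s j (by omega), hlev s (j + 1) (by omega)]
        push_cast
        omega)
    rw [Finset.sum_image (fun x _ y _ hxy => by
      obtain ⟨x1, x2⟩ := x
      obtain ⟨y1, y2⟩ := y
      obtain ⟨r1, r2⟩ := hinj _ _ _ _ hxy
      simp only at r1 r2
      subst r1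
      subst r2
      rfl), Finset.sum_sigma] at t
    exact t
  have g3 : ∑ j ∈ range J, ∑ s ∈ range (j + 1),
      cd w (pt s (j + 1)) (pt s (j + 1) + e) * (f (pt s (j + 1) + e) - f (pt s (j + 1))) ^ 2 ≤
      De w M e0 f f := by
    have t := sum_dir_le' hw M f e e0 he (((range J).sigma (fun j => range (j + 1))).image
      (fun p => pt p.2 (p.1 + 1))) (fun x hx => by
        rw [Finset.mem_image] at hx
        obtain ⟨⟨j, s⟩, hp, rfl⟩ := hx
        rw [Finset.mem_sigma, mem_range, mem_range] at hp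
        simp only at hp ⊢
        rw [← h1, hlev s (j + 1) (by omega), hlev (s + 1) (j + 1) (by omega)]
        push_cast
        omega)
    rw [Finset.sum_image (fun x _ y _ hxy => by
      obtain ⟨x1, x2⟩ := x
      obtain ⟨y1, y2⟩ := y
      obtain ⟨r1, r2⟩ := hinj _ _ _ _ hxy
      simp only [Nat.add_right_cancel_iff] at r1 r2
      subst r1
      subst r2
      rfl), Finset.sum_sigma] at t
    exact t
  rw [g1]
  linarith

/-- The cone estimate. -/
theorem cone {w : ℤ → ℝ} (hw : ∀ l, 0 < w l) (M : ℤ) (J : ℕ) (f : V → ℝ) (p : V)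
    (hM : lev p + J ≤ M)
    (ω : ℕ → ℝ) (hω0 : ∀ j, 0 < ω j)
    (hω : ∀ j < J, ω j ≤ w (lev p + j) ∧ ω j ≤ w (lev p + j + 1))
    (hf : ∀ x, lev p + J ≤ lev x → f x = 0) :
    f p ^ 2 ≤ (∑ j ∈ range J, 2 / ((j + 1) * ω j)) * DD w M f f := by
  obtain ⟨a, b⟩ := p
  rcases le_or_gt (|a|) (|b|) with hab | hab
  · -- vertical cone
    obtain ⟨σ, hσ, hσb⟩ : ∃ σ : ℤ, (σ = 1 ∨ σ = -1) ∧ |b| = σ * b := by
      rcases le_total 0 b with h | h
      · exact ⟨1, Or.inl rfl, by rw [abs_of_nonneg h, one_mul]⟩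
      · exact ⟨-1, Or.inr rfl, by rw [abs_of_nonpos h]; ring⟩
    obtain ⟨τ, hτ, hτa⟩ : ∃ τ : ℤ, (τ = 1 ∨ τ = -1) ∧ |a| = -(τ * a) := by
      rcases le_total 0 a with h | h
      · exact ⟨-1, Or.inr rfl, by rw [abs_of_nonneg h]; ring⟩
      · exact ⟨1, Or.inl rfl, by rw [abs_of_nonpos h]; ring⟩
    have := cone_coord hw M (lev (a, b)) J f (fun s j => (a + τ * s, b + σ * j)) (τ, 0) (0, σ)
      (1, 0) (0, 1) (by rcases hτ with rfl | rfl <;> simp) (by rcases hσ with rfl | rfl <;> simp)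
      rfl (fun s j => by
        simp only [Prod.mk_add_mk, add_zero]
        push_cast
        ring_nf) (fun s j => by
        simp only [Prod.mk_add_mk, add_zero]
        push_cast
        ring_nf) (fun s j s' j' h => by
        simp only [Prod.mk.injEq, add_right_inj] at h
        rcases hτ with rfl | rfl <;> rcases hσ with rfl | rfl <;> constructor <;> omega)
      (fun s j hsj => by
        simp only [lev]
        rcases hτ with rfl | rfl <;> rcases hσ with rfl | rfl <;>
          (rw [abs_eq_max_neg] at *; rw [abs_eq_max_neg] at *; rw [abs_eq_max_neg, abs_eq_max_neg]; omega))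
      hM ω hω0 hω hf
    simpa using this
  · -- horizontal cone
    obtain ⟨σ, hσ, hσb⟩ : ∃ σ : ℤ, (σ = 1 ∨ σ = -1) ∧ |a| = σ * a := by
      rcases le_total 0 a with h | h
      · exact ⟨1, Or.inl rfl, by rw [abs_of_nonneg h, one_mul]⟩
      · exact ⟨-1, Or.inr rfl, by rw [abs_of_nonpos h]; ring⟩
    obtain ⟨τ, hτ, hτa⟩ : ∃ τ : ℤ, (τ = 1 ∨ τ = -1) ∧ |b| = -(τ * b) := by
      rcases le_total 0 b with h | h
      · exact ⟨-1, Or.inr rfl, by rw [abs_of_nonneg h]; ring⟩
      · exact ⟨1, Or.inl rfl, by rw [abs_of_nonpos h]; ring⟩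
    have := cone_coord hw M (lev (a, b)) J f (fun s j => (a + σ * j, b + τ * s)) (0, τ) (σ, 0)
      (0, 1) (1, 0) (by rcases hτ with rfl | rfl <;> simp) (by rcases hσ with rfl | rfl <;> simp)
      (by unfold DD; ring) (fun s j => by
        simp only [Prod.mk_add_mk, add_zero]
        push_cast
        ring_nf) (fun s j => by
        simp only [Prod.mk_add_mk, add_zero]
        push_cast
        ring_nf) (fun s j s' j' h => by
        simp only [Prod.mk.injEq, add_right_inj] at h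
        rcases hτ with rfl | rfl <;> rcases hσ with rfl | rfl <;> constructor <;> omega)
      (fun s j hsj => by
        simp only [lev]
        rcases hτ with rfl | rfl <;> rcases hσ with rfl | rfl <;>
          (rw [abs_eq_max_neg] at *; rw [abs_eq_max_neg] at *; rw [abs_eq_max_neg, abs_eq_max_neg]; omega))
      hM ω hω0 hω hf
    simpa using this

end Pool.Agent.Lib.MP_e14847_pr
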