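import Mathlib

open Finset

namespace Pool.Agent.Lib.MP_e14847_pr

/-- Levels of the rings. -/
def rr : ℕ → ℕ
  | 0 => 2 ^ 20
  | (n + 1) => rr n + 512 * (Nat.log 2 (rr n) + 1)

/-- Binary length of the radius. -/
def io (n : ℕ) : ℕ := Nat.log 2 (rr n) + 1

/-- Binary length of the binary length. -/
def jo (n : ℕ) : ℕ := Nat.log 2 (io n) + 1

/-- Rounded logarithm of the cost factor. -/
def tt (n : ℕ) : ℕ := Nat.clog 2 (io n * jo n)

theorem rr_zero : rr 0 = 2 ^ 20 := by rw [rr]

theorem rr_succ (n : ℕ) : rr (n + 1) = rr n + 512 * io n := by rw [rr, io]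

attribute [irreducible] rr

theorem rr_ge (n : ℕ) : 2 ^ 20 + n ≤ rr n := by
  induction n with
  | zero => simp [rr_zero]
  | succ n ih =>
    rw [rr_succ]
    have : 1 ≤ io n := by unfold io; omega
    omega

theorem rr_lt (n : ℕ) : rr n < rr (n + 1) := by
  rw [rr_succ]
  have : 1 ≤ io n := by unfold io; omega
  omega

theorem rr_strictMono : StrictMono rr := strictMono_nat_of_lt_succ rr_lt

theorem rr_lt_pow (n : ℕ) : rr n < 2 ^ io n := Nat.lt_pow_succ_log_self (by norm_num) _

theorem pow_le_rr (n : ℕ) : 2 ^ io n ≤ 2 * rr n := by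
  have h : 2 ^ Nat.log 2 (rr n) ≤ rr n := Nat.pow_log_le_self 2 (by have := rr_ge n; omega)
  unfold io
  rw [pow_succ]
  omega

theorem io_ge (n : ℕ) : 21 ≤ io n := by
  have h := rr_lt_pow n
  have h2 := rr_ge n
  have h3 : 2 ^ 20 < 2 ^ io n := by omega
  have := (Nat.pow_lt_pow_iff_right (by norm_num : 1 < 2)).1 h3
  omega

theorem jo_ge (n : ℕ) : 5 ≤ jo n := by
  unfold jo
  have h : Nat.log 2 16 ≤ Nat.log 2 (io n) := Nat.log_mono_right (by have := io_ge n; omega)
  have h2 : Nat.log 2 16 = 4 := by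
    rw [show (16 : ℕ) = 2 ^ 4 by norm_num, Nat.log_pow (by norm_num)]
  omega

theorem io_lt_pow (n : ℕ) : io n < 2 ^ jo n := Nat.lt_pow_succ_log_self (by norm_num) _

theorem pow_le_io (n : ℕ) : 2 ^ jo n ≤ 2 * io n := by
  have h : 2 ^ Nat.log 2 (io n) ≤ io n := Nat.pow_log_le_self 2 (by have := io_ge n; omega)
  unfold jo
  rw [pow_succ]
  omega

theorem io_mono (n : ℕ) : io n ≤ io (n + 1) := by
  unfold io
  have := Nat.log_mono_right (b := 2) (rr_lt n).le
  omega

theorem jo_mono (n : ℕ) : jo n ≤ jo (n + 1) := by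
  unfold jo
  have := Nat.log_mono_right (b := 2) (io_mono n)
  omega

/-- `2048 * k ≤ 2 ^ k` for large `k`. -/
theorem pow_big (k : ℕ) (hk : 21 ≤ k) : 2048 * k ≤ 2 ^ k := by
  induction k, hk using Nat.le_induction with
  | base => norm_num
  | succ k hk ih =>
    rw [pow_succ]
    omega

theorem io_le_rr (n : ℕ) : 1024 * io n ≤ rr n := by
  have h1 := pow_big (io n) (io_ge n)
  have h2 := pow_le_rr n
  omega

theorem rr_succ_le (n : ℕ) : rr (n + 1) ≤ 2 * rr n := by
  rw [rr_succ]
  have := io_le_rr n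
  omega

theorem io_succ_le (n : ℕ) : io (n + 1) ≤ io n + 1 := by
  have h1 := pow_le_rr (n + 1)
  have h2 := rr_succ_le n
  have h3 := rr_lt_pow n
  have h4 : 2 ^ io (n + 1) < 2 ^ (io n + 2) := by
    rw [pow_add]
    omega
  have := (Nat.pow_lt_pow_iff_right (by norm_num : 1 < 2)).1 h4
  omega

theorem jo_succ_le (n : ℕ) : jo (n + 1) ≤ jo n + 1 := by
  have h1 := pow_le_io (n + 1)
  have h2 := io_succ_le n
  have h3 := io_lt_pow n
  have h5 := io_ge n
  have h4 : 2 ^ jo (n + 1) < 2 ^ (jo n + 2) := by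
    rw [pow_add]
    omega
  have := (Nat.pow_lt_pow_iff_right (by norm_num : 1 < 2)).1 h4
  omega

theorem jo_le_io (n : ℕ) : jo n ≤ io n := by
  have h1 := pow_le_io n
  have h2 : jo n < 2 ^ jo n := Nat.lt_two_pow_self
  have h3 : 2 * jo n ≤ 2 ^ jo n := by
    have : ∀ k, 1 ≤ k → 2 * k ≤ 2 ^ k := by
      intro k hk
      induction k, hk using Nat.le_induction with
      | base => norm_num
      | succ k hk ih => rw [pow_succ]; omega
    exact this _ (by have := jo_ge n; omega)
  omega

theorem le_pow_tt (n : ℕ) : io n * jo n ≤ 2 ^ tt n := Nat.le_pow_clog (by norm_num) _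

theorem pow_tt_le (n : ℕ) : 2 ^ tt n ≤ 2 * (io n * jo n) := by
  have h1 : 1 < io n * jo n := by
    have := io_ge n
    have := jo_ge n
    nlinarith
  have h := Nat.pow_pred_clog_lt_self (b := 2) (by norm_num) h1
  have h3 : 0 < Nat.clog 2 (io n * jo n) := Nat.clog_pos (by norm_num) h1
  unfold tt
  obtain ⟨k, hk⟩ : ∃ k, Nat.clog 2 (io n * jo n) = k + 1 := ⟨_, (Nat.succ_pred_eq_of_pos h3).symm⟩
  rw [hk] at h ⊢
  simp only [Nat.pred_eq_sub_one, Nat.add_sub_cancel] at h
  rw [pow_succ]
  omega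

theorem tt_mono (n : ℕ) : tt n ≤ tt (n + 1) :=
  Nat.clog_mono_right 2 (Nat.mul_le_mul (io_mono n) (jo_mono n))

theorem tt_succ_le (n : ℕ) : tt (n + 1) ≤ tt n + 2 := by
  have h1 := pow_tt_le (n + 1)
  have h2 := le_pow_tt n
  have h3 : io (n + 1) * jo (n + 1) < 4 * (io n * jo n) := by
    have a := io_succ_le n
    have b := jo_succ_le n
    have c := io_ge n
    have d := jo_ge n
    have : io (n + 1) * jo (n + 1) ≤ (io n + 1) * (jo n + 1) := Nat.mul_le_mul a b
    nlinarith
  have h4 : 2 ^ tt (n + 1) < 2 ^ (tt n + 3) := by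
    rw [pow_add]
    omega
  have := (Nat.pow_lt_pow_iff_right (by norm_num : 1 < 2)).1 h4
  omega

/-- Elementary contribution of a strip. -/
noncomputable def ss (n : ℕ) : ℝ := 512 * (io n : ℝ) / ((rr n : ℝ) * 2 ^ tt n)

theorem rr_pos (n : ℕ) : (0 : ℝ) < rr n := by
  have := rr_ge n
  exact_mod_cast (by omega : 0 < rr n)

theorem io_pos (n : ℕ) : (0 : ℝ) < io n := by
  have := io_ge n
  exact_mod_cast (by omega : 0 < io n)

theorem jo_pos (n : ℕ) : (0 : ℝ) < jo n := by
  have := jo_ge n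
  exact_mod_cast (by omega : 0 < jo n)

theorem ss_pos (n : ℕ) : 0 < ss n := by
  have := rr_pos n
  have := io_pos n
  unfold ss
  positivity

theorem ss_le_one (n : ℕ) : ss n ≤ 1 := by
  have h1 := rr_pos n
  unfold ss
  rw [div_le_one (by positivity)]
  have h2 : 512 * io n ≤ rr n * 2 ^ tt n := by
    have := io_le_rr n
    have : rr n * 1 ≤ rr n * 2 ^ tt n := Nat.mul_le_mul_left _ Nat.one_le_two_pow
    omega
  exact_mod_cast h2

theorem ss_ge (n : ℕ) : 256 / ((rr n : ℝ) * jo n) ≤ ss n := by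
  have h1 := rr_pos n
  have h2 := io_pos n
  have h3 := jo_pos n
  unfold ss
  rw [div_le_div_iff₀ (by positivity) (by positivity)]
  have h4 : (2 : ℝ) ^ tt n ≤ 2 * (io n * jo n) := by exact_mod_cast pow_tt_le n
  calc 256 * ((rr n : ℝ) * 2 ^ tt n) ≤ 256 * ((rr n : ℝ) * (2 * (io n * jo n))) := by gcongr
    _ = 512 * (io n : ℝ) * ((rr n : ℝ) * jo n) := by ring

/-- Partial sums. -/
noncomputable def SS (n : ℕ) : ℝ := ∑ i ∈ range n, ss i

theorem SS_succ (n : ℕ) : SS (n + 1) = SS n + ss n := by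
  unfold SS
  rw [Finset.sum_range_succ]

theorem SS_zero : SS 0 = 0 := by simp [SS]

theorem SS_mono : Monotone SS := monotone_nat_of_le_succ (fun n => by
  rw [SS_succ]
  have := ss_pos n
  linarith)

theorem SS_le (n : ℕ) : SS n ≤ n := by
  unfold SS
  calc ∑ i ∈ range n, ss i ≤ ∑ i ∈ range n, (1 : ℝ) := Finset.sum_le_sum (fun i _ => ss_le_one i)
    _ = n := by simp

theorem log_rr_ge (n : ℕ) : 12 ≤ Real.log (rr n) := by
  have h1 : (2 : ℝ) ^ 20 ≤ rr n := by
    have := rr_ge n
    exact_mod_cast (by omega : 2 ^ 20 ≤ rr n)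
  have h2 : Real.log ((2 : ℝ) ^ 20) ≤ Real.log (rr n) := Real.log_le_log (by positivity) h1
  rw [Real.log_pow] at h2
  have := Real.log_two_gt_d9
  push_cast at h2
  linarith

theorem loglog_rr_ge (n : ℕ) : 2 ≤ Real.log (Real.log (rr n)) := by
  have h1 := log_rr_ge n
  have h2 : Real.log 12 ≤ Real.log (Real.log (rr n)) := Real.log_le_log (by norm_num) h1
  have h3 : (2 : ℝ) ≤ Real.log 12 := by
    rw [Real.le_log_iff_exp_le (by norm_num)]
    have : Real.exp 2 = Real.exp 1 * Real.exp 1 := by rw [← Real.exp_add]; norm_num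
    rw [this]
    have := Real.exp_one_lt_d9
    have := Real.exp_pos 1
    nlinarith
  linarith

theorem natlog_le {n : ℕ} (hn : 1 ≤ n) : (Nat.log 2 n : ℝ) * Real.log 2 ≤ Real.log n := by
  have h : ((2 : ℕ) ^ Nat.log 2 n : ℕ) ≤ n := Nat.pow_log_le_self 2 (by omega)
  have h2 : ((2 : ℝ) ^ Nat.log 2 n) ≤ n := by exact_mod_cast h
  have h3 := Real.log_le_log (by positivity) h2
  rw [Real.log_pow] at h3
  exact h3

theorem io_le_log (n : ℕ) : (io n : ℝ) ≤ 3 * Real.log (rr n) := by
  have h := natlog_le (n := rr n) (by have := rr_ge n; omega)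
  have h1 := log_rr_ge n
  have h2 := Real.log_two_gt_d9
  unfold io
  push_cast
  have h3 : (Nat.log 2 (rr n) : ℝ) * 0.5 ≤ (Nat.log 2 (rr n) : ℝ) * Real.log 2 :=
    mul_le_mul_of_nonneg_left (by linarith) (Nat.cast_nonneg _)
  linarith

theorem jo_le_loglog (n : ℕ) : (jo n : ℝ) ≤ 4 * Real.log (Real.log (rr n)) := by
  have h := natlog_le (n := io n) (by have := io_ge n; omega)
  have h1 := loglog_rr_ge n
  have h0 := log_rr_ge n
  have h2 := Real.log_two_gt_d9
  have h5 : Real.log (io n) ≤ Real.log 3 + Real.log (Real.log (rr n)) := by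
    rw [← Real.log_mul (by norm_num) (by positivity)]
    exact Real.log_le_log (io_pos n) (io_le_log n)
  have h6 : Real.log 3 ≤ 3 / 2 := by
    rw [Real.log_le_iff_le_exp (by norm_num)]
    have : (1 : ℝ) + 3 / 2 + (3 / 2) ^ 2 / 2 ≤ Real.exp (3 / 2) :=
      Real.quadratic_le_exp_of_nonneg (by norm_num)
    linarith
  unfold jo
  push_cast
  have h3 : (Nat.log 2 (io n) : ℝ) * 0.5 ≤ (Nat.log 2 (io n) : ℝ) * Real.log 2 :=
    mul_le_mul_of_nonneg_left (by linarith) (Nat.cast_nonneg _)
  linarith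

theorem log_ratio_le {a b : ℝ} (ha : 0 < a) (hab : a ≤ b) :
    Real.log b - Real.log a ≤ (b - a) / a := by
  have hb : 0 < b := ha.trans_le hab
  rw [← Real.log_div hb.ne' ha.ne']
  have := Real.log_le_sub_one_of_pos (div_pos hb ha)
  have e : b / a - 1 = (b - a) / a := by field_simp
  linarith

theorem SS_lower (n : ℕ) : Real.log (Real.log (Real.log (rr n))) -
    Real.log (Real.log (Real.log (rr 0))) ≤ 24 * SS n := by
  induction n with
  | zero => simp [SS_zero]
  | succ n ih =>
    have h1 := log_rr_ge n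
    have h2 := loglog_rr_ge n
    have hr := rr_pos n
    have hlt : (rr n : ℝ) ≤ rr (n + 1) := by exact_mod_cast (rr_lt n).le
    have d1 := log_ratio_le hr hlt
    have l1 : Real.log (rr n) ≤ Real.log (rr (n + 1)) := Real.log_le_log hr hlt
    have d2 := log_ratio_le (by linarith : 0 < Real.log (rr n)) l1
    have l2 : Real.log (Real.log (rr n)) ≤ Real.log (Real.log (rr (n + 1))) :=
      Real.log_le_log (by linarith) l1
    have d3 := log_ratio_le (by linarith : 0 < Real.log (Real.log (rr n))) l2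
    have e1 : (rr (n + 1) : ℝ) - rr n = 512 * io n := by
      rw [rr_succ]
      push_cast
      ring
    rw [e1] at d1
    have hio := io_le_log n
    have hjo := jo_le_loglog n
    have hs := ss_ge n
    have hi0 := io_pos n
    have hj0 := jo_pos n
    have d4 : Real.log (Real.log (Real.log (rr (n + 1)))) - Real.log (Real.log (Real.log (rr n))) ≤
        24 * ss n := by
      refine d3.trans ?_
      have s1 : (Real.log (Real.log (rr (n + 1))) - Real.log (Real.log (rr n))) /
          Real.log (Real.log (rr n)) ≤ (512 * io n / rr n / Real.log (rr n)) /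
          Real.log (Real.log (rr n)) := by
        refine div_le_div_of_nonneg_right (d2.trans ?_) (by linarith)
        exact div_le_div_of_nonneg_right d1 (by linarith)
      refine s1.trans ?_
      have s2 : 512 * (io n : ℝ) / rr n / Real.log (rr n) ≤ 1536 / rr n := by
        rw [div_div, div_le_div_iff₀ (by positivity) hr]
        nlinarith
      have s3 : (512 * io n / rr n / Real.log (rr n)) / Real.log (Real.log (rr n)) ≤
          (1536 / rr n) / Real.log (Real.log (rr n)) :=
        div_le_div_of_nonneg_right s2 (by linarith)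
      refine s3.trans ?_
      have s4 : (1536 / (rr n : ℝ)) / Real.log (Real.log (rr n)) ≤ 24 * (256 / ((rr n : ℝ) * jo n)) := by
        rw [div_div, ← mul_div_assoc, div_le_div_iff₀ (by positivity) (by positivity)]
        nlinarith
      linarith
    rw [SS_succ]
    linarith

theorem SS_tendsto : Filter.Tendsto SS Filter.atTop Filter.atTop := by
  have h1 : Filter.Tendsto (fun n : ℕ => (rr n : ℝ)) Filter.atTop Filter.atTop :=
    tendsto_natCast_atTop_atTop.comp rr_strictMono.tendsto_atTop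
  have h2 := Real.tendsto_log_atTop.comp (Real.tendsto_log_atTop.comp
    (Real.tendsto_log_atTop.comp h1))
  have h3 : Filter.Tendsto (fun n : ℕ => (Real.log (Real.log (Real.log (rr n))) -
      Real.log (Real.log (Real.log (rr 0)))) / 24) Filter.atTop Filter.atTop := by
    refine Filter.Tendsto.atTop_div_const (by norm_num) ?_
    exact Filter.tendsto_atTop_add_const_right _ _ h2
  refine Filter.tendsto_atTop_mono (fun n => ?_) h3
  have := SS_lower n
  linarith

end Pool.Agent.Lib.MP_e14847_pr
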