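import Mathlib
import Pool.Agent.Lib.MP_e14847_pr.Param

open Finset

namespace Pool.Agent.Lib.MP_e14847_pr

/-- A large constant. -/
def G0 : ℕ := 16384

theorem G0_eq : G0 = 16384 := rfl

attribute [irreducible] G0

/-- Exponents of the block lengths. -/
def gg (m : ℕ) : ℕ := G0 * 4 ^ m

theorem gg_succ (m : ℕ) : gg (m + 1) = 4 * gg m := by
  unfold gg
  rw [pow_succ]
  ring

theorem gg_ge (m : ℕ) : 16384 ≤ gg m := by
  unfold gg
  rw [G0_eq]
  have := Nat.one_le_pow m 4 (by norm_num)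
  omega

/-- Thresholds of the blocks. -/
noncomputable def Th (m : ℕ) : ℝ := ∑ i ∈ range m, ((2 : ℝ) ^ (gg i) + 1)

theorem Th_zero : Th 0 = 0 := by simp [Th]

theorem Th_succ (m : ℕ) : Th (m + 1) = Th m + (2 : ℝ) ^ (gg m) + 1 := by
  unfold Th
  rw [Finset.sum_range_succ]
  ring

theorem Th_step (m : ℕ) : Th m + 1 < Th (m + 1) := by
  rw [Th_succ]
  have : (0 : ℝ) < 2 ^ gg m := by positivity
  linarith

theorem Th_mono : Monotone Th := monotone_nat_of_le_succ (fun m => by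
  have := Th_step m
  linarith)

theorem le_Th (m : ℕ) : (m : ℝ) ≤ Th m := by
  induction m with
  | zero => rw [Th_zero]; simp
  | succ m ih =>
    have := Th_step m
    push_cast
    linarith

open Classical in
/-- Block of an index. -/
noncomputable def mb (κ : ℕ) : ℕ := Nat.findGreatest (fun m => Th m ≤ SS κ) κ

theorem mb_spec (κ : ℕ) : Th (mb κ) ≤ SS κ := by
  classical
  unfold mb
  refine Nat.findGreatest_spec (P := fun m => Th m ≤ SS κ) (Nat.zero_le κ) ?_
  rw [Th_zero]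
  rw [← SS_zero]
  exact SS_mono (Nat.zero_le κ)

theorem mb_max (κ : ℕ) : SS κ < Th (mb κ + 1) := by
  classical
  by_contra hcon
  push Not at hcon
  have h1 : ((mb κ + 1 : ℕ) : ℝ) ≤ κ := (le_Th _).trans (hcon.trans (SS_le κ))
  have h2 : mb κ + 1 ≤ κ := by exact_mod_cast h1
  have h3 : mb κ + 1 ≤ mb κ := by
    conv_rhs => unfold mb
    exact Nat.le_findGreatest h2 hcon
  omega

theorem mb_mono {κ κ' : ℕ} (h : κ ≤ κ') : mb κ ≤ mb κ' := by
  by_contra hcon
  push Not at hcon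
  have h1 := Th_mono (show mb κ' + 1 ≤ mb κ by omega)
  have h2 := mb_spec κ
  have h3 := mb_max κ'
  have h4 := SS_mono h
  linarith

theorem mb_succ (κ : ℕ) : mb (κ + 1) ≤ mb κ + 1 := by
  by_contra hcon
  push Not at hcon
  have h1 := Th_mono (show mb κ + 2 ≤ mb (κ + 1) by omega)
  have h2 := mb_spec (κ + 1)
  have h3 := mb_max κ
  have h4 := Th_step (mb κ + 1)
  have h5 := SS_succ κ
  have h6 := ss_le_one κ
  linarith

theorem exists_SS_ge (m : ℕ) : ∃ κ, Th m ≤ SS κ :=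
  (Filter.tendsto_atTop.1 SS_tendsto (Th m)).exists

open Classical in
/-- First index of a block. -/
noncomputable def Kb (m : ℕ) : ℕ := Nat.find (exists_SS_ge m)

theorem Kb_spec (m : ℕ) : Th m ≤ SS (Kb m) := by
  classical
  unfold Kb
  exact Nat.find_spec (exists_SS_ge m)

theorem Kb_min {m κ : ℕ} (h : κ < Kb m) : SS κ < Th m := by
  classical
  unfold Kb at h
  have := Nat.find_min (exists_SS_ge m) h
  push Not at this
  exact this

theorem Kb_le {m κ : ℕ} (h : Th m ≤ SS κ) : Kb m ≤ κ := by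
  by_contra hcon
  push Not at hcon
  have := Kb_min hcon
  linarith

theorem Kb_zero : Kb 0 = 0 := by
  have : Kb 0 ≤ 0 := Kb_le (by rw [Th_zero, SS_zero])
  omega

theorem SS_Kb_le (m : ℕ) : SS (Kb m) ≤ Th m + 1 := by
  rcases Nat.eq_zero_or_pos (Kb m) with h | h
  · rw [h, SS_zero]
    have := le_Th m
    have := Nat.cast_nonneg (α := ℝ) m
    linarith
  · obtain ⟨k, hk⟩ : ∃ k, Kb m = k + 1 := ⟨Kb m - 1, by omega⟩
    have h1 := Kb_min (m := m) (κ := k) (by omega)
    rw [hk, SS_succ]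
    have := ss_le_one k
    linarith

theorem Kb_lt (m : ℕ) : Kb m < Kb (m + 1) := by
  by_contra hcon
  push Not at hcon
  have h1 := SS_mono hcon
  have h2 := SS_Kb_le m
  have h3 := Kb_spec (m + 1)
  have h4 := Th_step m
  linarith

theorem Kb_strictMono : StrictMono Kb := strictMono_nat_of_lt_succ Kb_lt

theorem mb_eq {m κ : ℕ} (h1 : Kb m ≤ κ) (h2 : κ < Kb (m + 1)) : mb κ = m := by
  have a1 := SS_mono h1
  have a2 := Kb_spec m
  have a3 := Kb_min h2
  have a4 := mb_spec κ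
  have a5 := mb_max κ
  rcases lt_trichotomy (mb κ) m with h | h | h
  · have := Th_mono (show mb κ + 1 ≤ m by omega)
    linarith
  · exact h
  · have := Th_mono (show m + 1 ≤ mb κ by omega)
    linarith

theorem Kb_mb_le (κ : ℕ) : Kb (mb κ) ≤ κ := Kb_le (mb_spec κ)

theorem lt_Kb_mb_succ (κ : ℕ) : κ < Kb (mb κ + 1) := by
  by_contra hcon
  push Not at hcon
  have h1 := SS_mono hcon
  have h2 := Kb_spec (mb κ + 1)
  have h3 := mb_max κ
  linarith

/-- Conductance exponents of the blocks. -/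
def gam (m : ℕ) : ℕ := gg m + m

theorem gam_mono {m m' : ℕ} (h : m ≤ m') : gam m ≤ gam m' := by
  unfold gam gg
  have := Nat.pow_le_pow_right (show 0 < 4 by norm_num) h
  have := Nat.mul_le_mul_left G0 this
  omega

theorem gam_jump (κ : ℕ) : gam (mb (κ + 1)) ≤ gam (mb κ) + 4 * io κ := by
  have h1 := mb_succ κ
  have h2 := mb_mono (show κ ≤ κ + 1 by omega)
  rcases Nat.eq_or_lt_of_le h1 with h | h
  · have h3 := mb_spec (κ + 1)
    rw [h, Th_succ] at h3
    have h4 := SS_le (κ + 1)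
    have h5 : (0 : ℝ) ≤ Th (mb κ) := (Nat.cast_nonneg _).trans (le_Th _)
    have h6 : (2 : ℝ) ^ gg (mb κ) ≤ ((κ + 1 : ℕ) : ℝ) := by linarith
    have h7 : 2 ^ gg (mb κ) ≤ κ + 1 := by exact_mod_cast h6
    have h8 := rr_ge κ
    have h9 := rr_lt_pow κ
    have h10 : 2 ^ gg (mb κ) < 2 ^ io κ := by omega
    have h11 := (Nat.pow_lt_pow_iff_right (by norm_num : 1 < 2)).1 h10
    rw [h]
    unfold gam
    rw [gg_succ]
    omega
  · have : mb (κ + 1) = mb κ := by omega
    rw [this]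
    omega

/-- Exponent of the conductance in the flat part of strip `κ`. -/
noncomputable def bet (κ : ℕ) : ℕ := tt κ + gam (mb κ)

/-- Exponent of the conductance on ring `κ`. -/
noncomputable def top (κ : ℕ) : ℕ := bet κ + 80 * io κ

theorem bet_mono_succ (κ : ℕ) : bet κ ≤ bet (κ + 1) := by
  unfold bet
  have := tt_mono κ
  have := gam_mono (mb_mono (show κ ≤ κ + 1 by omega))
  omega

theorem bet_succ_le (κ : ℕ) : bet (κ + 1) ≤ bet κ + 2 + 4 * io κ := by
  unfold bet
  have := tt_succ_le κ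
  have := gam_jump κ
  omega

/-- Weighted contribution of strip `κ`. -/
noncomputable def aa (κ : ℕ) : ℝ := ss κ / 2 ^ gam (mb κ)

theorem aa_pos (κ : ℕ) : 0 < aa κ := by
  unfold aa
  have := ss_pos κ
  positivity

theorem aa_eq (κ : ℕ) : aa κ = 512 * (io κ : ℝ) / ((rr κ : ℝ) * 2 ^ bet κ) := by
  unfold aa ss bet
  rw [pow_add]
  have := rr_pos κ
  field_simp

theorem two_pow_gg_ge (m : ℕ) : (2 : ℝ) ≤ 2 ^ gg m := by
  have h := gg_ge m
  calc (2 : ℝ) = 2 ^ 1 := by norm_num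
    _ ≤ 2 ^ gg m := pow_le_pow_right₀ (by norm_num) (by omega)

theorem aa_tail_aux (m n : ℕ) (hn : Kb m ≤ n) :
    ∑ i ∈ Ico (Kb m) n, aa i ≤ ∑ i ∈ Ico m (mb n), 2 * (1 / 2 : ℝ) ^ i +
      (SS n - Th (mb n)) / 2 ^ gam (mb n) := by
  induction n, hn using Nat.le_induction with
  | base =>
    have : mb (Kb m) = m := mb_eq le_rfl (Kb_lt m)
    rw [this]
    simp only [Ico_self, sum_empty, zero_add]
    have := Kb_spec m
    exact div_nonneg (by linarith) (by positivity)
  | succ n hn ih =>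
    rw [Finset.sum_Ico_succ_top hn]
    have hm : m ≤ mb n := by
      have h1 : mb (Kb m) = m := mb_eq le_rfl (Kb_lt m)
      have h2 := mb_mono hn
      omega
    have h1 := mb_succ n
    have h2 : mb n ≤ mb (n + 1) := mb_mono (Nat.le_succ n)
    have h4 : (SS n - Th (mb n)) / 2 ^ gam (mb n) + aa n =
        (SS (n + 1) - Th (mb n)) / 2 ^ gam (mb n) := by
      unfold aa
      rw [← add_div, SS_succ]
      congr 1
      ring
    rcases Nat.eq_or_lt_of_le h1 with h | h
    · rw [h, Finset.sum_Ico_succ_top hm]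
      have h3 : (SS (n + 1) - Th (mb n)) / 2 ^ gam (mb n) ≤ 2 * (1 / 2 : ℝ) ^ mb n := by
        have h5 := mb_max n
        rw [Th_succ] at h5
        have h6 := ss_le_one n
        have h7 := SS_succ n
        have h8 := two_pow_gg_ge (mb n)
        rw [div_le_iff₀ (by positivity)]
        unfold gam
        rw [pow_add]
        have h9 : (1 / 2 : ℝ) ^ mb n * 2 ^ mb n = 1 := by
          rw [← mul_pow]
          norm_num
        calc SS (n + 1) - Th (mb n) ≤ 2 * 2 ^ gg (mb n) := by linarith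
          _ = 2 * (2 ^ gg (mb n)) * ((1 / 2 : ℝ) ^ mb n * 2 ^ mb n) := by rw [h9]; ring
          _ = 2 * (1 / 2 : ℝ) ^ mb n * (2 ^ gg (mb n) * 2 ^ mb n) := by ring
      have h5 : 0 ≤ (SS (n + 1) - Th (mb n + 1)) / 2 ^ gam (mb n + 1) := by
        have := mb_spec (n + 1)
        rw [h] at this
        exact div_nonneg (by linarith) (by positivity)
      linarith
    · have h5 : mb (n + 1) = mb n := by omega
      rw [h5]
      linarith

theorem aa_tail (m n : ℕ) (hn : Kb m ≤ n) :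
    ∑ i ∈ Ico (Kb m) n, aa i ≤ 4 * (1 / 2 : ℝ) ^ m := by
  refine (aa_tail_aux m n hn).trans ?_
  have hm : m ≤ mb n := by
    have h1 : mb (Kb m) = m := mb_eq le_rfl (Kb_lt m)
    have h2 := mb_mono hn
    omega
  have h3 : (SS n - Th (mb n)) / 2 ^ gam (mb n) ≤ 2 * (1 / 2 : ℝ) ^ mb n := by
    have h5 := mb_max n
    rw [Th_succ] at h5
    have h8 := two_pow_gg_ge (mb n)
    rw [div_le_iff₀ (by positivity)]
    unfold gam
    rw [pow_add]
    have h9 : (1 / 2 : ℝ) ^ mb n * 2 ^ mb n = 1 := by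
      rw [← mul_pow]
      norm_num
    calc SS n - Th (mb n) ≤ 2 * 2 ^ gg (mb n) := by linarith
      _ = 2 * (2 ^ gg (mb n)) * ((1 / 2 : ℝ) ^ mb n * 2 ^ mb n) := by rw [h9]; ring
      _ = 2 * (1 / 2 : ℝ) ^ mb n * (2 ^ gg (mb n) * 2 ^ mb n) := by ring
  have h4 : ∑ i ∈ Ico m (mb n), 2 * (1 / 2 : ℝ) ^ i + 2 * (1 / 2 : ℝ) ^ mb n ≤
      4 * (1 / 2 : ℝ) ^ m := by
    generalize mb n = k at hm
    have key : ∀ k, m ≤ k → ∑ i ∈ Ico m k, 2 * (1 / 2 : ℝ) ^ i + 4 * (1 / 2 : ℝ) ^ k ≤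
        4 * (1 / 2 : ℝ) ^ m := by
      intro k hk
      induction k, hk using Nat.le_induction with
      | base => simp
      | succ k hk ih =>
        rw [Finset.sum_Ico_succ_top hk, pow_succ]
        linarith
    have := key k hm
    have : (0 : ℝ) < (1 / 2) ^ k := by positivity
    linarith
  linarith

theorem aa_block (m : ℕ) : (1 / 2 : ℝ) ^ m ≤ ∑ i ∈ Ico (Kb m) (Kb (m + 1)), aa i := by
  have h1 : ∑ i ∈ Ico (Kb m) (Kb (m + 1)), aa i = (SS (Kb (m + 1)) - SS (Kb m)) / 2 ^ gam m := by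
    have e : ∑ i ∈ Ico (Kb m) (Kb (m + 1)), aa i =
        ∑ i ∈ Ico (Kb m) (Kb (m + 1)), ss i / 2 ^ gam m := by
      refine Finset.sum_congr rfl (fun i hi => ?_)
      rw [Finset.mem_Ico] at hi
      unfold aa
      rw [mb_eq hi.1 hi.2]
    rw [e, ← Finset.sum_div]
    congr 1
    unfold SS
    rw [Finset.sum_Ico_eq_sub _ (Kb_lt m).le]
  rw [h1, le_div_iff₀ (by positivity)]
  have h2 := Kb_spec (m + 1)
  have h3 := SS_Kb_le m
  have h4 := Th_succ m
  have h9 : (1 / 2 : ℝ) ^ m * 2 ^ m = 1 := by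
    rw [← mul_pow]
    norm_num
  unfold gam
  rw [pow_add]
  calc (1 / 2 : ℝ) ^ m * (2 ^ gg m * 2 ^ m) = 2 ^ gg m * ((1 / 2 : ℝ) ^ m * 2 ^ m) := by ring
    _ = 2 ^ gg m := by rw [h9, mul_one]
    _ ≤ _ := by linarith

/-! ### The conductance profile -/

open Classical in
/-- Strip containing a level. -/
noncomputable def idx (l : ℤ) : ℕ := Nat.findGreatest (fun k => (rr k : ℤ) ≤ l) l.toNat

/-- Exponent of the conductance at a level. -/
noncomputable def phe (l : ℤ) : ℤ :=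
  if l < rr 0 then top 0
  else max (max (bet (idx l) : ℤ) (top (idx l) - (l - rr (idx l))))
    (top (idx l + 1) - (rr (idx l + 1) - l))

theorem idx_eq {k : ℕ} {l : ℤ} (h1 : (rr k : ℤ) ≤ l) (h2 : l < rr (k + 1)) : idx l = k := by
  classical
  have hk : k ≤ l.toNat := by
    have := rr_ge k
    omega
  unfold idx
  refine le_antisymm ?_ (Nat.le_findGreatest hk h1)
  by_contra hcon
  push Not at hcon
  have h3 := Nat.findGreatest_spec (P := fun k => (rr k : ℤ) ≤ l) hk h1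
  have h4 := rr_strictMono.monotone (show k + 1 ≤ _ from hcon)
  have : ((rr (k + 1) : ℕ) : ℤ) ≤ _ := Int.ofNat_le.2 h4
  omega

theorem top_succ_le (k : ℕ) : top (k + 1) ≤ top k + 88 * io k := by
  unfold top
  have := bet_succ_le k
  have := io_succ_le k
  have := io_ge k
  omega

theorem top_mono_succ (k : ℕ) : top k ≤ top (k + 1) := by
  unfold top
  have := bet_mono_succ k
  have := io_mono k
  omega

theorem bet_le_top (k : ℕ) : bet k ≤ top k := by unfold top; omega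

theorem exists_idx {l : ℤ} (h : (rr 0 : ℤ) ≤ l) : ∃ k, (rr k : ℤ) ≤ l ∧ l < rr (k + 1) := by
  classical
  refine ⟨Nat.findGreatest (fun k => (rr k : ℤ) ≤ l) l.toNat,
    Nat.findGreatest_spec (P := fun k => (rr k : ℤ) ≤ l) (Nat.zero_le _) h, ?_⟩
  by_contra hcon
  push Not at hcon
  set k := Nat.findGreatest (fun k => (rr k : ℤ) ≤ l) l.toNat with hk
  have h1 : k + 1 ≤ l.toNat := by
    have := rr_ge (k + 1)
    omega
  have h2 := Nat.le_findGreatest (P := fun k => (rr k : ℤ) ≤ l) h1 hcon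
  omega

/-- Formula for the profile on a closed strip. -/
theorem phe_strip {k : ℕ} {l : ℤ} (h1 : (rr k : ℤ) ≤ l) (h2 : l ≤ rr (k + 1)) :
    phe l = max (max (bet k : ℤ) (top k - (l - rr k))) (top (k + 1) - (rr (k + 1) - l)) := by
  have h0 : (rr 0 : ℤ) ≤ l := by
    have := rr_strictMono.monotone (Nat.zero_le k)
    have : ((rr 0 : ℕ) : ℤ) ≤ rr k := Int.ofNat_le.2 this
    omega
  unfold phe
  rw [if_neg (by omega)]
  rcases lt_or_eq_of_le h2 with h | h
  · rw [idx_eq h1 h]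
  · have h3 : idx l = k + 1 := idx_eq h.ge (by
      have := rr_lt (k + 1)
      rw [h]
      exact_mod_cast this)
    rw [h3, h]
    have a1 := rr_succ k
    have a2 := rr_succ (k + 1)
    have a3 := top_succ_le (k + 1)
    have a4 := top_mono_succ k
    have a5 := bet_le_top (k + 1)
    have a6 := bet_mono_succ k
    have a7 := io_ge k
    have a8 := io_ge (k + 1)
    omega

theorem phe_inner {l : ℤ} (h : l ≤ rr 0) : phe l = top 0 := by
  rcases lt_or_eq_of_le h with h | h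
  · unfold phe
    rw [if_pos h]
  · rw [phe_strip (k := 0) h.ge (by rw [h]; exact_mod_cast (rr_lt 0).le), h]
    have a1 := rr_succ 0
    have a3 := top_succ_le 0
    have a5 := bet_le_top 0
    have a7 := io_ge 0
    omega

theorem phe_ring (k : ℕ) : phe (rr k) = top k := by
  rw [phe_strip (k := k) le_rfl (by exact_mod_cast (rr_lt k).le)]
  have a1 := rr_succ k
  have a3 := top_succ_le k
  have a5 := bet_le_top k
  have a7 := io_ge k
  omega

theorem phe_lip (l : ℤ) : |phe (l + 1) - phe l| ≤ 1 := by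
  rcases lt_or_ge l (rr 0) with h | h
  · rw [phe_inner h.le, phe_inner (by omega)]
    simp
  · obtain ⟨k, h1, h2⟩ := exists_idx h
    rw [phe_strip h1 h2.le, phe_strip (k := k) (l := l + 1) (by omega) (by omega),
      abs_eq_max_neg]
    omega

theorem phe_flat {k : ℕ} {l : ℤ} (h1 : (rr k : ℤ) + 80 * io k ≤ l)
    (h2 : l ≤ rr k + 80 * io k + 256 * io k) : phe l = bet k := by
  have a1 := rr_succ k
  have a7 := io_ge k
  rw [phe_strip (k := k) (by omega) (by omega)]
  have a3 := top_succ_le k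
  have a4 : top k = bet k + 80 * io k := rfl
  omega

theorem phe_ge {k : ℕ} {l : ℤ} (h1 : (rr k : ℤ) ≤ l) (h2 : l ≤ rr (k + 1)) :
    (bet k : ℤ) ≤ phe l := by
  rw [phe_strip h1 h2]
  exact le_max_of_le_left (le_max_left _ _)

theorem bet_mono : Monotone bet := monotone_nat_of_le_succ bet_mono_succ

theorem phe_ge' {k : ℕ} {l : ℤ} (h1 : (rr k : ℤ) ≤ l) : (bet k : ℤ) ≤ phe l := by
  have h0 : (rr 0 : ℤ) ≤ l := by
    have := rr_strictMono.monotone (Nat.zero_le k)
    have : ((rr 0 : ℕ) : ℤ) ≤ rr k := Int.ofNat_le.2 this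
    omega
  obtain ⟨k', a1, a2⟩ := exists_idx h0
  refine le_trans ?_ (phe_ge a1 a2.le)
  have : k ≤ k' := by
    by_contra hcon
    push Not at hcon
    have := rr_strictMono.monotone (show k' + 1 ≤ k by omega)
    have : ((rr (k' + 1) : ℕ) : ℤ) ≤ rr k := Int.ofNat_le.2 this
    omega
  exact_mod_cast bet_mono this

theorem phe_ge0 (l : ℤ) : (bet 0 : ℤ) ≤ phe l := by
  rcases le_or_gt (rr 0 : ℤ) l with h | h
  · exact phe_ge' h
  · rw [phe_inner h.le]
    exact_mod_cast bet_le_top 0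

/-- The conductance profile. -/
noncomputable def ww (l : ℤ) : ℝ := (2 : ℝ) ^ phe l

theorem ww_pos (l : ℤ) : 0 < ww l := by unfold ww; positivity

theorem ww_le1 (l : ℤ) : ww l ≤ 2 * ww (l + 1) := by
  have h := phe_lip l
  rw [abs_le] at h
  unfold ww
  calc (2 : ℝ) ^ phe l ≤ 2 ^ (1 + phe (l + 1)) := zpow_le_zpow_right₀ (by norm_num) (by omega)
    _ = 2 * 2 ^ phe (l + 1) := by rw [zpow_add₀ (by norm_num), zpow_one]

theorem ww_le2 (l : ℤ) : ww (l + 1) ≤ 2 * ww l := by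
  have h := phe_lip l
  rw [abs_le] at h
  unfold ww
  calc (2 : ℝ) ^ phe (l + 1) ≤ 2 ^ (1 + phe l) := zpow_le_zpow_right₀ (by norm_num) (by omega)
    _ = 2 * 2 ^ phe l := by rw [zpow_add₀ (by norm_num), zpow_one]

theorem ww_ring (k : ℕ) : ww (rr k) = 2 ^ top k := by
  unfold ww
  rw [phe_ring, zpow_natCast]

theorem ww_flat {k : ℕ} {l : ℤ} (h1 : (rr k : ℤ) + 80 * io k ≤ l)
    (h2 : l ≤ rr k + 80 * io k + 256 * io k) : ww l = 2 ^ bet k := by
  unfold ww
  rw [phe_flat h1 h2, zpow_natCast]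

theorem ww_ge {k : ℕ} {l : ℤ} (h1 : (rr k : ℤ) ≤ l) : (2 : ℝ) ^ bet k ≤ ww l := by
  unfold ww
  rw [← zpow_natCast]
  exact zpow_le_zpow_right₀ (by norm_num) (phe_ge' h1)

theorem ww_ge0 (l : ℤ) : (2 : ℝ) ^ bet 0 ≤ ww l := by
  unfold ww
  rw [← zpow_natCast]
  exact zpow_le_zpow_right₀ (by norm_num) (phe_ge0 l)

/-- The radial sums of the network are bounded. -/
theorem ww_sum_le (J : ℕ) : ∑ l ∈ range J, 1 / (((l : ℝ) + 1) * ww l) ≤ (rr 0 : ℝ) + 4 := by
  have hterm0 : ∀ l : ℕ, 0 ≤ 1 / (((l : ℝ) + 1) * ww l) := fun l => by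
    have := ww_pos l
    positivity
  have strip : ∀ k, ∑ l ∈ Ico (rr k) (rr (k + 1)), 1 / (((l : ℝ) + 1) * ww l) ≤ aa k := by
    intro k
    have h1 : ∀ l ∈ Ico (rr k) (rr (k + 1)), 1 / (((l : ℝ) + 1) * ww l) ≤
        1 / ((rr k : ℝ) * 2 ^ bet k) := by
      intro l hl
      rw [Finset.mem_Ico] at hl
      have h2 := ww_ge (k := k) (l := (l : ℤ)) (by exact_mod_cast hl.1)
      have h3 := rr_pos k
      have h4 : (rr k : ℝ) ≤ (l : ℝ) + 1 := by
        have : (rr k : ℝ) ≤ l := by exact_mod_cast hl.1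
        linarith
      refine one_div_le_one_div_of_le (by positivity) ?_
      exact mul_le_mul h4 h2 (by positivity) (by positivity)
    refine (Finset.sum_le_card_nsmul _ _ _ h1).trans (le_of_eq ?_)
    rw [Nat.card_Ico, rr_succ, Nat.add_sub_cancel_left, nsmul_eq_mul, aa_eq]
    push_cast
    ring
  have tot : ∀ k, ∑ l ∈ range (rr k), 1 / (((l : ℝ) + 1) * ww l) ≤
      (rr 0 : ℝ) + ∑ i ∈ range k, aa i := by
    intro k
    induction k with
    | zero =>
      simp only [range_zero, sum_empty, add_zero]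
      have h1 : ∀ l ∈ range (rr 0), 1 / (((l : ℝ) + 1) * ww l) ≤ 1 := by
        intro l _
        have h2 := ww_ge0 (l : ℤ)
        have h3 : (1 : ℝ) ≤ 2 ^ bet 0 := one_le_pow₀ (by norm_num)
        have h4 : (1 : ℝ) ≤ (l : ℝ) + 1 := by
          have := Nat.cast_nonneg (α := ℝ) l
          linarith
        rw [div_le_one (by have := ww_pos l; positivity)]
        nlinarith
      refine (Finset.sum_le_card_nsmul _ _ _ h1).trans (le_of_eq ?_)
      simp
    | succ k ih =>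
      have e : ∑ l ∈ range (rr (k + 1)), 1 / (((l : ℝ) + 1) * ww l) =
          ∑ l ∈ range (rr k), 1 / (((l : ℝ) + 1) * ww l) +
          ∑ l ∈ Ico (rr k) (rr (k + 1)), 1 / (((l : ℝ) + 1) * ww l) :=
        (Finset.sum_range_add_sum_Ico _ (rr_lt k).le).symm
      rw [e, Finset.sum_range_succ]
      have := strip k
      linarith
  have hJ : J ≤ rr J := by
    have := rr_ge J
    omega
  have h1 : ∑ l ∈ range J, 1 / (((l : ℝ) + 1) * ww l) ≤
      ∑ l ∈ range (rr J), 1 / (((l : ℝ) + 1) * ww l) :=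
    Finset.sum_le_sum_of_subset_of_nonneg (Finset.range_mono hJ) (fun l _ _ => hterm0 l)
  have h2 := tot J
  have h3 := aa_tail 0 J (by rw [Kb_zero]; omega)
  rw [Kb_zero, ← Finset.range_eq_Ico, pow_zero, mul_one] at h3
  linarith

end Pool.Agent.Lib.MP_e14847_pr
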