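import Mathlib
import Pool.Agent.Lib.MP_e14847_pr.Geom
import Pool.Agent.Lib.MP_e14847_pr.RayKnight
import Pool.Agent.Lib.MP_e14847_pr.Param2

open Finset

namespace Pool.Agent.Lib.MP_e14847_pr

theorem Ceff_indep {w : ℤ → ℝ} (hw : ∀ l, 0 < w l) {a b M : ℤ} (hab : a < b) (hM : b ≤ M) :
    Ceff w M a b = Ceff w b a b := by
  have key : ∀ e ∈ dirs, De w M e (hfun w a b) (hfun w a b) = De w b e (hfun w a b) (hfun w a b) := by
    intro e he
    unfold De
    symm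
    refine Finset.sum_subset (fun x hx => ?_) (fun x _ hx => ?_)
    · rw [mem_box] at hx ⊢
      omega
    · rw [mem_box] at hx
      have := le_lev_add (x := x) he
      rw [hfun_out hw hab (x := x) (by omega), hfun_out hw hab (x := x + e) (by omega)]
      ring
  unfold Ceff DD
  rw [key _ (by simp [dirs]), key _ (by simp [dirs])]

theorem Ceff_neg {w : ℤ → ℝ} (hw : ∀ l, 0 < w l) {a b M : ℤ} (hab : a < b) (ha : a < 0) :
    Ceff w M a b = 0 := by
  unfold Ceff DD De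
  simp only [hfun_eq_one_of_neg hw hab ha, sub_self, mul_zero, Finset.sum_const_zero, add_zero]

/-- Upper estimate of the escape probability on a ring. -/
theorem u_upper {w : ℤ → ℝ} (hw : ∀ l, 0 < w l) {a b c M : ℤ} (hab : a < b) (hbc : b < c)
    (hM : c ≤ M) (δ : ℝ) (hδ0 : 0 ≤ δ) (hδ : 32 * b * Ceff w M b c ≤ δ ^ 2 * w b)
    (hE : 0 < Ceff w M a b + Ceff w M b c) (z : V) (hz : lev z = b) :
    hfun w a c z ≤ Ceff w M b c / (Ceff w M a b + Ceff w M b c) + δ := by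
  have hac : a < c := by omega
  have hD : DD w M (hfun w a c) (hfun w a c) ≤ Ceff w M b c :=
    dirichlet hw hac hM (hfun w b c) (fun x hx => hfun_in hw hbc (by omega))
      (fun x hx => hfun_out hw hbc hx)
  have hb0 : (0 : ℝ) ≤ b := by
    have := lev_nonneg z
    exact_mod_cast (by omega : 0 ≤ b)
  have hosc : ∀ z', lev z' = b → hfun w a c z - δ ≤ hfun w a c z' := by
    intro z' hz'
    have h1 := osc_ring hw M b (by omega) (hfun w a c) z z' hz hz'
    have h2 : 32 * (b : ℝ) * DD w M (hfun w a c) (hfun w a c) ≤ δ ^ 2 * w b :=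
      (mul_le_mul_of_nonneg_left hD (by linarith)).trans hδ
    have h3 : (hfun w a c z - hfun w a c z') ^ 2 ≤ δ ^ 2 := by
      have h4 : w b * (hfun w a c z - hfun w a c z') ^ 2 ≤ w b * δ ^ 2 := by linarith
      exact le_of_mul_le_mul_left h4 (hw b)
    have := abs_le_of_sq_le_sq' h3 hδ0
    linarith [this.2]
  have h5 := le_ring hw hab hbc hM (fun x => hfun w a c x - hfun w b c x) (fun x hx => by
    rcases hx with hx | hx
    · rw [hfun_in hw hac hx, hfun_in hw hbc (by omega), sub_zero]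
    · rw [hfun_out hw hac hx, hfun_out hw hbc hx, sub_self]) (hfun w a c z - δ) (fun x hx => by
      rw [hfun_in hw hbc hx.le, sub_zero]
      exact hosc x hx)
  rw [DD_u_lam hw hab hbc hM] at h5
  rw [← sub_le_iff_le_add, le_div_iff₀ hE]
  exact h5

/-- Lower estimate of the hitting probability of a vertex from a ring. -/
theorem g_lower {w : ℤ → ℝ} (hw : ∀ l, 0 < w l) {a b c M : ℤ} (hab : a < b) (hbc : b < c)
    (hM : c ≤ M) {p : V} (hp1 : a < lev p) (hp2 : lev p < c)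
    (hlam : 1 / 2 ≤ lam w a b c p) {g : V → ℝ}
    (hg1 : g p = 1) (hg0 : ∀ x, lev x ≤ a ∨ c ≤ lev x → g x = 0)
    (hgh : ∀ x, a < lev x → lev x < c → x ≠ p → Lap w g x = 0)
    (D0 : ℝ) (hD0 : 0 < D0) (hD : D0 ≤ DD w M g g)
    (hE : 0 < Ceff w M a b + Ceff w M b c) (hb : 0 ≤ b)
    (hbig : 512 * b * (Ceff w M a b + Ceff w M b c) ^ 2 ≤ w b * D0) (z : V) (hz : lev z = b) :
    D0 / (4 * (Ceff w M a b + Ceff w M b c)) ≤ g z := by
  set E := Ceff w M a b + Ceff w M b c with hEdef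
  set D := DD w M g g with hDdef
  have hDpos : 0 < D := hD0.trans_le hD
  set δ := D / (4 * E) with hδ
  have hδ0 : 0 ≤ δ := by positivity
  have hb0 : (0 : ℝ) ≤ b := by exact_mod_cast hb
  have hosc : ∀ z', lev z' = b → g z' ≤ g z + δ := by
    intro z' hz'
    have h1 := osc_ring hw M b (by omega) g z z' hz hz'
    have h2 : 32 * (b : ℝ) * D ≤ w b * δ ^ 2 := by
      have h3 : 512 * (b : ℝ) * E ^ 2 ≤ w b * D :=
        hbig.trans (mul_le_mul_of_nonneg_left hD (hw b).le)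
      have h4 : w b * δ ^ 2 = (w b * D) * D / (16 * E ^ 2) := by
        rw [hδ]
        field_simp
        ring
      rw [h4, le_div_iff₀ (by positivity)]
      nlinarith
    have h5 : (g z - g z') ^ 2 ≤ δ ^ 2 := le_of_mul_le_mul_left (h1.trans h2) (hw b)
    have := abs_le_of_sq_le_sq' h5 hδ0
    linarith [this.1]
  have h6 := ring_le hw hab hbc hM g hg0 (g z + δ) hosc
  have h7 : DD w M g (lam w a b c) = lam w a b c p * D :=
    gfun_recip hp2 hM hg1 hg0 hgh _ (fun x hx => by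
      rcases hx with hx | hx
      · exact lam_in hw hab hbc hx
      · exact lam_out hw hab hbc hx)
  rw [h7, ← hEdef] at h6
  have h8 : 1 / 2 * D ≤ (g z + δ) * E := (mul_le_mul_of_nonneg_right hlam hDpos.le).trans h6
  have h9 : δ * E = D / 4 := by
    rw [hδ]
    field_simp
  have h10 : D0 / (4 * E) * E ≤ g z * E := by
    have : D0 / (4 * E) * E = D0 / 4 := by field_simp
    rw [this]
    linarith
  exact le_of_mul_le_mul_right h10 hE

/-! ### The rings -/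

/-- Ring levels, shifted by one. -/
def Rl : ℕ → ℤ
  | 0 => -1
  | (k + 1) => rr k

theorem Rl_zero : Rl 0 = -1 := rfl
theorem Rl_succ (k : ℕ) : Rl (k + 1) = rr k := rfl

theorem Rl_strictMono : StrictMono Rl := strictMono_nat_of_lt_succ (fun n => by
  cases n with
  | zero => rw [Rl_zero, Rl_succ]; omega
  | succ n => rw [Rl_succ, Rl_succ]; exact_mod_cast rr_lt n)

/-- Effective conductance of strip `κ`. -/
noncomputable def Cs (κ : ℕ) : ℝ := Ceff ww (rr (κ + 1)) (rr κ) (rr (κ + 1))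

theorem Cs_eq {κ : ℕ} {M : ℤ} (hM : (rr (κ + 1) : ℤ) ≤ M) :
    Ceff ww M (rr κ) (rr (κ + 1)) = Cs κ :=
  Ceff_indep ww_pos (by exact_mod_cast rr_lt κ) hM

theorem Cs_lower (κ : ℕ) : (2 * (rr κ : ℝ) + 1) * 2 ^ bet κ ≤ 512 * io κ * Cs κ := by
  have hlt : ((rr κ : ℕ) : ℤ) < rr (κ + 1) := by exact_mod_cast rr_lt κ
  have h := column_lower ww_pos (rr (κ + 1)) (rr κ) (rr (κ + 1)) (by positivity)
    hlt le_rfl (hfun ww (rr κ) (rr (κ + 1)))
    (fun x hx => hfun_in ww_pos hlt hx) (fun x hx => hfun_out ww_pos hlt hx) (2 ^ bet κ)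
    (by positivity) (fun l h1 _ => ww_ge h1)
  have e : (((rr (κ + 1) : ℕ) : ℤ) : ℝ) - (((rr κ : ℕ) : ℤ) : ℝ) = 512 * io κ := by
    rw [rr_succ]
    push_cast
    ring
  rw [e] at h
  exact_mod_cast h

theorem Cs_upper (κ : ℕ) : Cs κ * (8 * io κ) ≤ rr (κ + 1) * 2 ^ bet κ := by
  have hlt : ((rr κ : ℕ) : ℤ) < rr (κ + 1) := by exact_mod_cast rr_lt κ
  have hio := io_ge κ
  have hrs := rr_succ κ
  have h := ramp_upper ww_pos (rr (κ + 1)) (rr κ) (rr (κ + 1)) (rr κ + 80 * io κ) (256 * io κ)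
    (by positivity) (by omega) (by omega) (by omega) le_rfl (2 ^ bet κ) (fun l h1 h2 => by
      rw [ww_flat h1 (by omega)])
  unfold Cs
  push_cast at h
  have : Ceff ww (rr (κ + 1)) (rr κ) (rr (κ + 1)) * (256 * (io κ : ℝ)) =
      32 * (Ceff ww (rr (κ + 1)) (rr κ) (rr (κ + 1)) * (8 * io κ)) := by ring
  rw [this] at h
  linarith

theorem Cs_pos (κ : ℕ) : 0 < Cs κ := by
  have h := Cs_lower κ
  have h1 := rr_pos κ
  have h2 := io_pos κ
  have h3 : 0 < 512 * (io κ : ℝ) * Cs κ := lt_of_lt_of_le (by positivity) h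
  exact pos_of_mul_pos_right h3 (by positivity)

/-- Resistance of strip `κ`. -/
noncomputable def rho (κ : ℕ) : ℝ := 1 / Cs κ

theorem rho_pos (κ : ℕ) : 0 < rho κ := one_div_pos.2 (Cs_pos κ)

theorem rho_le (κ : ℕ) : rho κ ≤ aa κ / 2 := by
  have h := Cs_lower κ
  have h1 := rr_pos κ
  have h2 := io_pos κ
  have h3 := Cs_pos κ
  unfold rho
  rw [aa_eq, div_div, div_le_div_iff₀ h3 (by positivity)]
  have h4 : (0 : ℝ) < 2 ^ bet κ := by positivity
  nlinarith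

theorem rho_ge (κ : ℕ) : aa κ / 128 ≤ rho κ := by
  have h := Cs_upper κ
  have h1 := rr_pos κ
  have h2 := io_pos κ
  have h3 := Cs_pos κ
  have h5 : ((rr (κ + 1) : ℕ) : ℝ) ≤ 2 * rr κ := by exact_mod_cast rr_succ_le κ
  unfold rho
  rw [aa_eq, div_div, div_le_div_iff₀ (by positivity) h3]
  have h4 : (0 : ℝ) < 2 ^ bet κ := by positivity
  have h6 : (rr (κ + 1) : ℝ) * 2 ^ bet κ ≤ 2 * rr κ * 2 ^ bet κ :=
    mul_le_mul_of_nonneg_right h5 h4.le
  linarith

theorem aa_le_two_mul (κ : ℕ) : aa (κ + 1) ≤ 2 * aa κ := by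
  rw [aa_eq, aa_eq, ← mul_div_assoc, div_le_div_iff₀ (by have := rr_pos (κ + 1); positivity)
    (by have := rr_pos κ; positivity)]
  have h1 : (io (κ + 1) : ℝ) ≤ 2 * io κ := by
    have := io_succ_le κ
    have := io_ge κ
    exact_mod_cast (by omega : io (κ + 1) ≤ 2 * io κ)
  have h2 : (rr κ : ℝ) ≤ rr (κ + 1) := by exact_mod_cast (rr_lt κ).le
  have h3 : (2 : ℝ) ^ bet κ ≤ 2 ^ bet (κ + 1) :=
    pow_le_pow_right₀ (by norm_num) (bet_mono_succ κ)
  have h4 : (rr κ : ℝ) * 2 ^ bet κ ≤ rr (κ + 1) * 2 ^ bet (κ + 1) :=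
    mul_le_mul h2 h3 (by positivity) (by positivity)
  have h5 := io_pos κ
  have h6 := rr_pos κ
  calc 512 * (io (κ + 1) : ℝ) * ((rr κ : ℝ) * 2 ^ bet κ)
      ≤ 512 * (2 * io κ) * (rr (κ + 1) * 2 ^ bet (κ + 1)) := by
        refine mul_le_mul (by linarith) h4 (by positivity) (by positivity)
    _ = 2 * (512 * (io κ : ℝ)) * (rr (κ + 1) * 2 ^ bet (κ + 1)) := by ring

theorem le_aa (κ : ℕ) : aa κ ≤ 2 ^ (3 + 4 * io κ) * aa (κ + 1) := by
  rw [aa_eq, aa_eq, ← mul_div_assoc, div_le_div_iff₀ (by have := rr_pos κ; positivity)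
    (by have := rr_pos (κ + 1); positivity)]
  have h1 : (io κ : ℝ) ≤ io (κ + 1) := by exact_mod_cast io_mono κ
  have h2 : (rr (κ + 1) : ℝ) ≤ 2 * rr κ := by exact_mod_cast rr_succ_le κ
  have h3 : (2 : ℝ) ^ bet (κ + 1) ≤ 2 ^ (2 + 4 * io κ) * 2 ^ bet κ := by
    rw [← pow_add]
    exact pow_le_pow_right₀ (by norm_num) (by have := bet_succ_le κ; omega)
  have h5 := io_pos κ
  have h6 := rr_pos κ
  have h4 : (rr (κ + 1) : ℝ) * 2 ^ bet (κ + 1) ≤ (2 * rr κ) * (2 ^ (2 + 4 * io κ) * 2 ^ bet κ) :=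
    mul_le_mul h2 h3 (by positivity) (by positivity)
  calc 512 * (io κ : ℝ) * (rr (κ + 1) * 2 ^ bet (κ + 1))
      ≤ 512 * (io (κ + 1)) * ((2 * rr κ) * (2 ^ (2 + 4 * io κ) * 2 ^ bet κ)) :=
        mul_le_mul (by linarith) h4 (by positivity) (by positivity)
    _ = 2 ^ (3 + 4 * io κ) * (512 * (io (κ + 1) : ℝ)) * (rr κ * 2 ^ bet κ) := by
        rw [pow_add 2 3, pow_add 2 2]
        ring

theorem rho_succ_le (κ : ℕ) : rho (κ + 1) ≤ 128 * rho κ := by
  have h1 := rho_le (κ + 1)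
  have h2 := rho_ge κ
  have h3 := aa_le_two_mul κ
  linarith

theorem le_rho_succ (κ : ℕ) : rho κ ≤ 2 ^ (9 + 4 * io κ) * rho (κ + 1) := by
  have h1 := rho_le κ
  have h2 := rho_ge (κ + 1)
  have h3 := le_aa κ
  have e : (2 : ℝ) ^ (9 + 4 * io κ) = 64 * 2 ^ (3 + 4 * io κ) := by
    rw [show 9 + 4 * io κ = 6 + (3 + 4 * io κ) by ring, pow_add]
    norm_num
  rw [e]
  have h4 : (0 : ℝ) < 2 ^ (3 + 4 * io κ) := by positivity
  nlinarith

/-- Correction factors. -/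
noncomputable def ff (k : ℕ) : ℝ := 1 / 2 + 1 / ((k : ℝ) + 2)

theorem ff_ge (k : ℕ) : 1 / 2 ≤ ff k := by
  unfold ff
  have : (0 : ℝ) < 1 / ((k : ℝ) + 2) := by positivity
  linarith

theorem ff_le (k : ℕ) : ff k ≤ 1 := by
  unfold ff
  have : 1 / ((k : ℝ) + 2) ≤ 1 / 2 :=
    one_div_le_one_div_of_le (by norm_num) (by have := Nat.cast_nonneg (α := ℝ) k; linarith)
  linarith

/-- Corrected resistances. -/
noncomputable def rt (k : ℕ) : ℝ := ff k * rho k

theorem rt_pos (k : ℕ) : 0 < rt k := mul_pos (by have := ff_ge k; linarith) (rho_pos k)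
theorem rt_le (k : ℕ) : rt k ≤ rho k := mul_le_of_le_one_left (rho_pos k).le (ff_le k)
theorem rt_ge (k : ℕ) : rho k / 2 ≤ rt k := by
  unfold rt
  have := mul_le_mul_of_nonneg_right (ff_ge k) (rho_pos k).le
  linarith

/-- Ideal upward probabilities. -/
noncomputable def pp : ℕ → ℝ
  | 0 => 1
  | (k + 1) => rt k / (rt k + rt (k + 1))

theorem pp_succ (k : ℕ) : pp (k + 1) = rt k / (rt k + rt (k + 1)) := rfl

theorem pp_pos (k : ℕ) : 0 < pp k := by
  cases k with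
  | zero => exact one_pos
  | succ k => exact div_pos (rt_pos k) (add_pos (rt_pos k) (rt_pos _))

theorem pp_le (k : ℕ) : pp k ≤ 1 := by
  cases k with
  | zero => exact le_rfl
  | succ k =>
    rw [pp_succ, div_le_one (add_pos (rt_pos k) (rt_pos _))]
    have := rt_pos (k + 1)
    linarith

theorem pp_key (k : ℕ) : Cs (k + 1) / (Cs k + Cs (k + 1)) + (1 / 2 : ℝ) ^ (38 * io (k + 1)) ≤
    pp (k + 1) := by
  set A := rho k with hA
  set B := rho (k + 1) with hB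
  have hA0 : 0 < A := rho_pos k
  have hB0 : 0 < B := rho_pos (k + 1)
  have e1 : Cs (k + 1) / (Cs k + Cs (k + 1)) = A / (A + B) := by
    have h1 := Cs_pos k
    have h2 := Cs_pos (k + 1)
    rw [hA, hB]
    unfold rho
    field_simp
    ring
  have hf0 := ff_ge k
  have hf1 := ff_ge (k + 1)
  have hg0 := ff_le k
  have hg1 := ff_le (k + 1)
  have hdiff : ff k - ff (k + 1) = 1 / (((k : ℝ) + 2) * ((k : ℝ) + 3)) := by
    unfold ff
    push_cast
    field_simp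
    ring
  have hden : 0 < ff k * A + ff (k + 1) * B :=
    add_pos (mul_pos (by linarith) hA0) (mul_pos (by linarith) hB0)
  have e2 : pp (k + 1) - A / (A + B) =
      A * B * (ff k - ff (k + 1)) / ((ff k * A + ff (k + 1) * B) * (A + B)) := by
    rw [pp_succ]
    unfold rt
    rw [← hA, ← hB]
    field_simp
    ring
  have hlow : A * B * (ff k - ff (k + 1)) / ((A + B) * (A + B)) ≤
      A * B * (ff k - ff (k + 1)) / ((ff k * A + ff (k + 1) * B) * (A + B)) := by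
    refine div_le_div_of_nonneg_left ?_ (by positivity) ?_
    · rw [hdiff]
      positivity
    · refine mul_le_mul_of_nonneg_right ?_ (by positivity)
      have := mul_le_mul_of_nonneg_right hg0 hA0.le
      have := mul_le_mul_of_nonneg_right hg1 hB0.le
      linarith
  have hfin : (1 / 2 : ℝ) ^ (38 * io (k + 1)) ≤
      A * B * (ff k - ff (k + 1)) / ((A + B) * (A + B)) := by
    rw [hdiff, le_div_iff₀ (by positivity), mul_one_div, le_div_iff₀ (by positivity)]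
    have h1 : B ≤ 128 * A := rho_succ_le k
    have h2 : A ≤ 2 ^ (9 + 4 * io k) * B := le_rho_succ k
    have hio := io_mono k
    have hio1 := io_ge (k + 1)
    have h3 : (A + B) * (A + B) ≤ 2 ^ 15 * (A * A) := by nlinarith
    have h4 : ((k : ℝ) + 2) * ((k : ℝ) + 3) ≤ 2 ^ (2 * io (k + 1)) := by
      have a1 := rr_ge (k + 1)
      have a2 := rr_lt_pow (k + 1)
      have a3 : ((k : ℝ) + 3) ≤ 2 ^ io (k + 1) := by
        exact_mod_cast (by omega : k + 3 ≤ 2 ^ io (k + 1))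
      rw [two_mul, pow_add]
      exact mul_le_mul (by linarith) a3 (by positivity) (by positivity)
    have h5 : A * A ≤ 2 ^ (9 + 4 * io (k + 1)) * (A * B) := by
      have : (2 : ℝ) ^ (9 + 4 * io k) ≤ 2 ^ (9 + 4 * io (k + 1)) :=
        pow_le_pow_right₀ (by norm_num) (by omega)
      calc A * A ≤ A * (2 ^ (9 + 4 * io k) * B) := mul_le_mul_of_nonneg_left h2 hA0.le
        _ ≤ A * (2 ^ (9 + 4 * io (k + 1)) * B) := by gcongr
        _ = _ := by ring
    have h6 : (1 / 2 : ℝ) ^ (38 * io (k + 1)) * (2 ^ 15 * 2 ^ (9 + 4 * io (k + 1)) *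
        2 ^ (2 * io (k + 1))) ≤ 1 := by
      rw [← pow_add, ← pow_add]
      have h7 : (2 : ℝ) ^ (15 + (9 + 4 * io (k + 1)) + 2 * io (k + 1)) ≤ 2 ^ (38 * io (k + 1)) :=
        pow_le_pow_right₀ (by norm_num) (by omega)
      calc (1 / 2 : ℝ) ^ (38 * io (k + 1)) * 2 ^ (15 + (9 + 4 * io (k + 1)) + 2 * io (k + 1))
          ≤ (1 / 2 : ℝ) ^ (38 * io (k + 1)) * 2 ^ (38 * io (k + 1)) := by gcongr
        _ = 1 := by rw [← mul_pow]; norm_num
    calc (1 / 2 : ℝ) ^ (38 * io (k + 1)) * ((A + B) * (A + B)) * (((k : ℝ) + 2) * ((k : ℝ) + 3))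
        ≤ (1 / 2 : ℝ) ^ (38 * io (k + 1)) * (2 ^ 15 * (2 ^ (9 + 4 * io (k + 1)) * (A * B))) *
          2 ^ (2 * io (k + 1)) := by
          refine mul_le_mul (mul_le_mul_of_nonneg_left (h3.trans ?_) (by positivity)) h4
            (by positivity) (by positivity)
          exact mul_le_mul_of_nonneg_left h5 (by positivity)
      _ = ((1 / 2 : ℝ) ^ (38 * io (k + 1)) * (2 ^ 15 * 2 ^ (9 + 4 * io (k + 1)) *
        2 ^ (2 * io (k + 1)))) * (A * B) := by ring
      _ ≤ 1 * (A * B) := mul_le_mul_of_nonneg_right h6 (by positivity)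
      _ = A * B := one_mul _
  rw [e1]
  linarith

theorem Cs_le_rr (κ : ℕ) : Cs κ ≤ rr κ * 2 ^ bet κ / 4 := by
  have h := Cs_upper κ
  have h2 : (21 : ℝ) ≤ io κ := by exact_mod_cast io_ge κ
  have h3 := Cs_pos κ
  have h5 : ((rr (κ + 1) : ℕ) : ℝ) ≤ 2 * rr κ := by exact_mod_cast rr_succ_le κ
  have h4 : (0 : ℝ) < 2 ^ bet κ := by positivity
  have h6 : (rr (κ + 1) : ℝ) * 2 ^ bet κ ≤ 2 * rr κ * 2 ^ bet κ :=
    mul_le_mul_of_nonneg_right h5 h4.le
  have h7 : Cs κ * 8 ≤ Cs κ * (8 * io κ) := mul_le_mul_of_nonneg_left (by linarith) h3.le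
  linarith

theorem Cs_le_rr' (κ : ℕ) : Cs κ ≤ rr (κ + 1) * 2 ^ bet (κ + 1) / 4 := by
  have h := Cs_upper κ
  have h2 : (21 : ℝ) ≤ io κ := by exact_mod_cast io_ge κ
  have h3 := Cs_pos κ
  have h4 : (2 : ℝ) ^ bet κ ≤ 2 ^ bet (κ + 1) :=
    pow_le_pow_right₀ (by norm_num) (bet_mono_succ κ)
  have h6 : (rr (κ + 1) : ℝ) * 2 ^ bet κ ≤ rr (κ + 1) * 2 ^ bet (κ + 1) :=
    mul_le_mul_of_nonneg_left h4 (Nat.cast_nonneg _)
  have h7 : Cs κ * 8 ≤ Cs κ * (8 * io κ) := mul_le_mul_of_nonneg_left (by linarith) h3.le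
  linarith

/-- Total conductance between ring `κ` and its two neighbouring rings. -/
noncomputable def EE : ℕ → ℝ
  | 0 => Cs 0
  | (k + 1) => Cs k + Cs (k + 1)

theorem EE_pos (κ : ℕ) : 0 < EE κ := by
  cases κ with
  | zero => exact Cs_pos 0
  | succ k => exact add_pos (Cs_pos k) (Cs_pos _)

theorem EE_le (κ : ℕ) : EE κ ≤ rr κ * 2 ^ bet κ / 2 := by
  cases κ with
  | zero =>
    have := Cs_le_rr 0
    have := Cs_pos 0
    unfold EE
    have h := rr_pos 0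
    have : 0 < (rr 0 : ℝ) * 2 ^ bet 0 := by positivity
    linarith
  | succ k =>
    have h1 := Cs_le_rr' k
    have h2 := Cs_le_rr (k + 1)
    unfold EE
    linarith

theorem EE_eq (κ : ℕ) {M : ℤ} (hM : Rl (κ + 2) ≤ M) :
    Ceff ww M (Rl κ) (Rl (κ + 1)) + Ceff ww M (Rl (κ + 1)) (Rl (κ + 2)) = EE κ := by
  have hM' : ((rr (κ + 1) : ℕ) : ℤ) ≤ M := hM
  cases κ with
  | zero =>
    rw [Ceff_neg ww_pos (Rl_strictMono (by norm_num)) (by rw [Rl_zero]; norm_num), zero_add]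
    exact Cs_eq hM'
  | succ k =>
    have h1 : ((rr (k + 1) : ℕ) : ℤ) ≤ M := by
      have : ((rr (k + 1) : ℕ) : ℤ) < rr (k + 2) := by exact_mod_cast rr_lt (k + 1)
      have h2 : ((rr (k + 2) : ℕ) : ℤ) ≤ M := hM'
      omega
    have e1 : Ceff ww M (Rl (k + 1)) (Rl (k + 1 + 1)) = Cs k := Cs_eq h1
    have e2 : Ceff ww M (Rl (k + 1 + 1)) (Rl (k + 1 + 2)) = Cs (k + 1) := Cs_eq hM'
    rw [e1, e2]
    rfl

/-- The ring escape probabilities are below the ideal ones. -/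
theorem u_le_pp (κ : ℕ) (hκ : 1 ≤ κ) (z : V) (hz : lev z = Rl (κ + 1)) :
    hfun ww (Rl κ) (Rl (κ + 2)) z ≤ pp κ := by
  obtain ⟨k, rfl⟩ : ∃ k, κ = k + 1 := ⟨κ - 1, by omega⟩
  have hM : Rl (k + 1 + 2) ≤ ((rr (k + 2) : ℕ) : ℤ) := le_rfl
  have hlt1 : Rl (k + 1) < Rl (k + 1 + 1) := Rl_strictMono (by omega)
  have hlt2 : Rl (k + 1 + 1) < Rl (k + 1 + 2) := Rl_strictMono (by omega)
  have hEq := EE_eq (k + 1) hM
  have e2 : Ceff ww ((rr (k + 2) : ℕ) : ℤ) (Rl (k + 1 + 1)) (Rl (k + 1 + 2)) = Cs (k + 1) :=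
    Cs_eq le_rfl
  have h := u_upper ww_pos hlt1 hlt2 hM ((1 / 2 : ℝ) ^ (38 * io (k + 1))) (by positivity) (by
    rw [e2]
    have e3 : ww (Rl (k + 1 + 1)) = 2 ^ top (k + 1) := ww_ring (k + 1)
    have e4 : ((Rl (k + 1 + 1) : ℤ) : ℝ) = rr (k + 1) := by
      rw [Rl_succ]
      push_cast
      rfl
    rw [e3, e4]
    have h1 := Cs_le_rr (k + 1)
    have h2 : (rr (k + 1) : ℝ) ≤ 2 ^ io (k + 1) := by exact_mod_cast (rr_lt_pow (k + 1)).le
    have h3 := rr_pos (k + 1)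
    have hio := io_ge (k + 1)
    have e5 : (2 : ℝ) ^ top (k + 1) = 2 ^ bet (k + 1) * 2 ^ (80 * io (k + 1)) := by
      unfold top
      rw [pow_add]
    have h4 : (0 : ℝ) < 2 ^ bet (k + 1) := by positivity
    calc 32 * (rr (k + 1) : ℝ) * Cs (k + 1)
        ≤ 32 * rr (k + 1) * (rr (k + 1) * 2 ^ bet (k + 1) / 4) := by gcongr
      _ = 8 * (rr (k + 1) * rr (k + 1)) * 2 ^ bet (k + 1) := by ring
      _ ≤ 8 * (2 ^ io (k + 1) * 2 ^ io (k + 1)) * 2 ^ bet (k + 1) := by gcongr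
      _ = (2 ^ 3 * 2 ^ io (k + 1) * 2 ^ io (k + 1)) * 2 ^ bet (k + 1) := by ring
      _ ≤ ((1 / 2 : ℝ) ^ (38 * io (k + 1))) ^ 2 * 2 ^ (80 * io (k + 1)) * 2 ^ bet (k + 1) := by
        refine mul_le_mul_of_nonneg_right ?_ h4.le
        rw [← pow_mul, ← pow_add, ← pow_add]
        have e6 : (1 / 2 : ℝ) ^ (38 * io (k + 1) * 2) * 2 ^ (80 * io (k + 1)) =
            2 ^ (4 * io (k + 1)) := by
          rw [show 80 * io (k + 1) = 38 * io (k + 1) * 2 + 4 * io (k + 1) by ring, pow_add,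
            ← mul_assoc, ← mul_pow]
          norm_num
        rw [e6]
        exact pow_le_pow_right₀ (by norm_num) (by omega)
      _ = _ := by rw [e5]; ring)
    (by rw [hEq]; exact EE_pos _) z hz
  rw [hEq, e2] at h
  exact h.trans (pp_key k)

/-! ### Hitting a vertex from a ring -/

/-- Exponent of the smallest conductance near ring `κ`. -/
noncomputable def DZ (κ : ℕ) : ℝ := 2 ^ bet (κ - 1) / (10 * jo κ)

theorem DZ_pos (κ : ℕ) : 0 < DZ κ := by
  have := jo_pos κ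
  unfold DZ
  positivity

theorem Hs_J (κ J : ℕ) (hJ : (κ = 0 ∧ J ≤ rr 1) ∨ (1 ≤ κ ∧ J ≤ rr (κ + 1) - rr (κ - 1))) :
    Hs J ≤ 5 * jo κ := by
  have h1 := Hs_le J
  have hj : (5 : ℝ) ≤ jo κ := by exact_mod_cast jo_ge κ
  have hl2 := Real.log_two_lt_d9
  rcases hJ with ⟨rfl, hJ⟩ | ⟨hκ, hJ⟩
  · have a1 : J + 1 ≤ 2 ^ 22 := by
      have b1 := rr_succ_le 0
      have b2 := rr_zero
      simp only [zero_add] at b1
      rw [b2] at b1
      have b3 : J ≤ 2 * 2 ^ 20 := hJ.trans b1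
      norm_num at b3 ⊢
      omega
    have a2 : Real.log ((J : ℝ) + 1) ≤ Real.log (2 ^ 22) :=
      Real.log_le_log (by positivity) (by exact_mod_cast a1)
    rw [Real.log_pow] at a2
    push_cast at a2
    linarith
  · obtain ⟨k, rfl⟩ : ∃ k, κ = k + 1 := ⟨κ - 1, by omega⟩
    rw [show k + 1 - 1 = k by omega] at hJ
    have a0 : J + 1 ≤ 2 ^ 11 * 2 ^ jo (k + 1) := by
      have b1 := rr_succ (k + 1)
      have b2 := rr_succ k
      have b3 := io_mono k
      have b4 := io_lt_pow (k + 1)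
      have b5 := io_ge (k + 1)
      have : J ≤ 1024 * io (k + 1) := by omega
      omega
    have a2 : Real.log ((J : ℝ) + 1) ≤ Real.log (2 ^ 11 * 2 ^ jo (k + 1)) :=
      Real.log_le_log (by positivity) (by exact_mod_cast a0)
    rw [Real.log_mul (by positivity) (by positivity), Real.log_pow, Real.log_pow] at a2
    push_cast at a2
    have a3 : (jo (k + 1) : ℝ) * Real.log 2 ≤ jo (k + 1) * 0.7 :=
      mul_le_mul_of_nonneg_left (by linarith) (by linarith)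
    linarith

theorem DZ_le (κ : ℕ) {M : ℤ} (hM : Rl (κ + 2) ≤ M) {p : V} (hp1 : Rl κ < lev p)
    (hp2 : lev p < Rl (κ + 2)) {g : V → ℝ} (hg1 : g p = 1)
    (hg0 : ∀ x, lev x ≤ Rl κ ∨ Rl (κ + 2) ≤ lev x → g x = 0) : DZ κ ≤ DD ww M g g := by
  have hlp := lev_nonneg p
  set J : ℕ := (Rl (κ + 2) - lev p).toNat with hJ
  have hJ' : (J : ℤ) = Rl (κ + 2) - lev p := Int.toNat_of_nonneg (by omega)
  have hω : ∀ l : ℤ, lev p ≤ l → (2 : ℝ) ^ bet (κ - 1) ≤ ww l := by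
    intro l hl
    cases κ with
    | zero => exact ww_ge0 l
    | succ k =>
      rw [Rl_succ] at hp1
      exact ww_ge (by simp only [Nat.add_sub_cancel]; omega)
  have hc := cone ww_pos M J g p (by omega) (fun _ => 2 ^ bet (κ - 1)) (fun _ => by positivity)
    (fun j _ => ⟨hω _ (by omega), hω _ (by omega)⟩) (fun x hx => hg0 x (Or.inr (by omega)))
  rw [hg1, one_pow] at hc
  have hsum : ∑ j ∈ range J, 2 / (((j : ℝ) + 1) * 2 ^ bet (κ - 1)) = 2 * Hs J / 2 ^ bet (κ - 1) := by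
    unfold Hs
    rw [Finset.mul_sum, Finset.sum_div]
    refine Finset.sum_congr rfl (fun j _ => ?_)
    field_simp
  rw [hsum] at hc
  have hH := Hs_J κ J (by
    cases κ with
    | zero =>
      left
      refine ⟨rfl, ?_⟩
      have : Rl (0 + 2) = rr 1 := rfl
      omega
    | succ k =>
      right
      refine ⟨by omega, ?_⟩
      have e1 : Rl (k + 1 + 2) = rr (k + 2) := rfl
      have e2 : Rl (k + 1) = rr k := rfl
      have h1 := rr_lt k
      have h2 : rr (k + 1) < rr (k + 2) := rr_lt (k + 1)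
      have e3 : k + 1 + 1 = k + 2 := rfl
      have e4 : k + 1 - 1 = k := rfl
      rw [e3, e4]
      omega)
  have hD := DD_self_nonneg ww_pos M g
  have hb : (0 : ℝ) < 2 ^ bet (κ - 1) := by positivity
  have hj := jo_pos κ
  unfold DZ
  rw [div_le_iff₀ (by positivity)]
  have h1 : 2 * Hs J / 2 ^ bet (κ - 1) * DD ww M g g ≤ 10 * jo κ / 2 ^ bet (κ - 1) * DD ww M g g := by
    refine mul_le_mul_of_nonneg_right (div_le_div_of_nonneg_right (by linarith) hb.le) hD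
  have h2 := hc.trans h1
  rw [div_mul_eq_mul_div, le_div_iff₀ hb, one_mul] at h2
  linarith

theorem big_ineq (κ : ℕ) : 512 * (rr κ : ℝ) * EE κ ^ 2 ≤ 2 ^ top κ * DZ κ := by
  have hE := EE_le κ
  have hE0 := EE_pos κ
  have hr : (rr κ : ℝ) ≤ 2 ^ io κ := by exact_mod_cast (rr_lt_pow κ).le
  have hr0 := rr_pos κ
  have hio := io_ge κ
  have hj0 := jo_pos κ
  have hj : (jo κ : ℝ) ≤ 2 ^ io κ := by
    have h1 := jo_le_io κ
    have h2 : io κ < 2 ^ io κ := Nat.lt_two_pow_self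
    exact_mod_cast (by omega : jo κ ≤ 2 ^ io κ)
  have hjump : bet κ ≤ bet (κ - 1) + 5 * io κ := by
    cases κ with
    | zero => simp
    | succ k =>
      have := bet_succ_le k
      have := io_mono k
      simp only [Nat.add_sub_cancel]
      omega
  have hb : (0 : ℝ) < 2 ^ bet κ := by positivity
  have h1 : EE κ ^ 2 ≤ (rr κ * 2 ^ bet κ / 2) ^ 2 := pow_le_pow_left₀ hE0.le hE 2
  unfold DZ top
  rw [← mul_div_assoc, le_div_iff₀ (by positivity)]
  calc 512 * (rr κ : ℝ) * EE κ ^ 2 * (10 * (jo κ : ℝ))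
      ≤ 512 * (rr κ : ℝ) * ((rr κ : ℝ) * 2 ^ bet κ / 2) ^ 2 * (10 * (jo κ : ℝ)) := by gcongr
    _ = 1280 * ((rr κ : ℝ) * rr κ * rr κ * jo κ) * (2 ^ bet κ * 2 ^ bet κ) := by ring
    _ ≤ 2 ^ 11 * (2 ^ io κ * 2 ^ io κ * 2 ^ io κ * 2 ^ io κ) * (2 ^ bet κ * 2 ^ bet κ) := by
        gcongr
        norm_num
    _ = 2 ^ (11 + io κ + io κ + io κ + io κ + bet κ + bet κ) := by
        simp only [pow_add]
        ring
    _ ≤ 2 ^ (bet κ + 80 * io κ + bet (κ - 1)) := pow_le_pow_right₀ (by norm_num) (by omega)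
    _ = 2 ^ (bet κ + 80 * io κ) * 2 ^ bet (κ - 1) := by rw [pow_add 2 (bet κ + 80 * io κ)]

/-- Success probability of one excursion. -/
noncomputable def al (κ : ℕ) : ℝ := DZ κ / (32 * EE κ)

theorem al_pos (κ : ℕ) : 0 < al κ := by
  have := DZ_pos κ
  have := EE_pos κ
  unfold al
  positivity

theorem g_ring (κ : ℕ) {p : V} (hp1 : Rl κ < lev p) (hp2 : lev p < Rl (κ + 2))
    (hlam : 1 / 2 ≤ lam ww (Rl κ) (Rl (κ + 1)) (Rl (κ + 2)) p) {g : V → ℝ}
    (hg1 : g p = 1) (hg0 : ∀ x, lev x ≤ Rl κ ∨ Rl (κ + 2) ≤ lev x → g x = 0)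
    (hgh : ∀ x, Rl κ < lev x → lev x < Rl (κ + 2) → x ≠ p → Lap ww g x = 0)
    (z : V) (hz : lev z = Rl (κ + 1)) : al κ ≤ g z / 8 := by
  have hlt1 : Rl κ < Rl (κ + 1) := Rl_strictMono (by omega)
  have hlt2 : Rl (κ + 1) < Rl (κ + 2) := Rl_strictMono (by omega)
  have hEq := EE_eq κ (le_refl (Rl (κ + 2)))
  have h := g_lower ww_pos hlt1 hlt2 le_rfl hp1 hp2 hlam hg1 hg0 hgh (DZ κ) (DZ_pos κ)
    (DZ_le κ le_rfl hp1 hp2 hg1 hg0) (by rw [hEq]; exact EE_pos κ)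
    (by rw [← hz]; exact lev_nonneg z) (by
      rw [hEq]
      have e1 : ww (Rl (κ + 1)) = 2 ^ top κ := ww_ring κ
      have e2 : ((Rl (κ + 1) : ℤ) : ℝ) = rr κ := by
        rw [Rl_succ]
        push_cast
        rfl
      rw [e1, e2]
      exact big_ineq κ) z hz
  rw [hEq] at h
  have hE := EE_pos κ
  unfold al
  have : DZ κ / (32 * EE κ) = DZ κ / (4 * EE κ) / 8 := by
    field_simp
    ring
  rw [this]
  exact div_le_div_of_nonneg_right h (by norm_num)

end Pool.Agent.Lib.MP_e14847_pr
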