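import Mathlib
import Pool.Agent.Lib.MP_e14847_pr.RayKnight

open Finset

namespace Pool.Agent.Lib.MP_e14847_pr

/-- Sum of the resistances from level `k` on. -/
noncomputable def vv (ρ : ℕ → ℝ) (N k : ℕ) : ℝ := ∑ i ∈ Ico k (N + 1), ρ i

theorem vv_succ (ρ : ℕ → ℝ) {N k : ℕ} (h : k ≤ N) : vv ρ N k = ρ k + vv ρ N (k + 1) := by
  unfold vv
  rw [Finset.sum_eq_sum_Ico_succ_bot (by omega)]

theorem vv_last (ρ : ℕ → ℝ) (N : ℕ) : vv ρ N (N + 1) = 0 := by
  unfold vv
  simp

theorem vv_nonneg {ρ : ℕ → ℝ} (hρ : ∀ k, 0 < ρ k) (N k : ℕ) : 0 ≤ vv ρ N k :=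
  Finset.sum_nonneg (fun i _ => (hρ i).le)

theorem vv_pos {ρ : ℕ → ℝ} (hρ : ∀ k, 0 < ρ k) {N k : ℕ} (h : k ≤ N) : 0 < vv ρ N k := by
  rw [vv_succ ρ h]
  have := hρ k
  have := vv_nonneg hρ N (k + 1)
  linarith

theorem vv_anti {ρ : ℕ → ℝ} (hρ : ∀ k, 0 < ρ k) {N a b : ℕ} (h : a ≤ b) :
    vv ρ N b ≤ vv ρ N a := by
  unfold vv
  refine Finset.sum_le_sum_of_subset_of_nonneg (fun x hx => ?_) (fun i _ _ => (hρ i).le)
  rw [Finset.mem_Ico] at hx ⊢
  omega

section
variable {ρ : ℕ → ℝ} (hρ : ∀ k, 0 < ρ k) {p : ℕ → ℝ}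
  (hp : ∀ k, p (k + 1) = ρ k / (ρ k + ρ (k + 1)))
include hρ hp

theorem p_pos (k : ℕ) : 0 < p (k + 1) := by
  rw [hp]
  exact div_pos (hρ k) (add_pos (hρ _) (hρ _))

theorem p_lt (k : ℕ) : p (k + 1) < 1 := by
  rw [hp, div_lt_one (add_pos (hρ _) (hρ _))]
  have := hρ (k + 1)
  linarith

theorem one_sub_p (k : ℕ) : 1 - p (k + 1) = ρ (k + 1) / (ρ k + ρ (k + 1)) := by
  have h1 := hρ k
  have h2 := hρ (k + 1)
  rw [hp]
  field_simp
  ring

theorem ratio_p (k : ℕ) : (1 - p (k + 1)) / p (k + 1) = ρ (k + 1) / ρ k := by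
  have h1 := hρ k
  have h2 := hρ (k + 1)
  rw [one_sub_p hρ hp, hp]
  field_simp

theorem lin_step (k d : ℕ) : ρ k * NB (p (k + 1)) (d + 1) (fun d => (d : ℝ) + 1) =
    ρ k + ((d : ℝ) + 1) * ρ (k + 1) := by
  have h1 := hρ k
  rw [NB_lin (p_pos hρ hp k) (p_lt hρ hp k).le, ratio_p hρ hp]
  push_cast
  field_simp

theorem harm_step (k d : ℕ) :
    Hs d + Real.log (ρ (k + 1)) - Real.log (ρ k) ≤ NB (p (k + 1)) (d + 1) Hs := by
  have h := NB_Hs_ge (p_pos hρ hp k) (p_lt hρ hp k) d
  have h1 := hρ k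
  have h2 := hρ (k + 1)
  have e : Real.log (1 - p (k + 1)) - Real.log (p (k + 1)) =
      Real.log (ρ (k + 1)) - Real.log (ρ k) := by
    rw [one_sub_p hρ hp, hp, Real.log_div h2.ne' (by positivity), Real.log_div h1.ne' (by positivity)]
    ring
  linarith

/-- The Ray–Knight lower bound for the local times. -/
theorem RK_bound (hp0 : ∀ k, 0 < p k) (hp1 : ∀ k, p k ≤ 1) {N a b : ℕ} (hab : a ≤ b)
    (hbN : b ≤ N) (thr : ℕ → ℕ) (hthr : ∀ k, k < a ∨ b < k → thr k = 0) (hτ1 : 1 ≤ thr b)
    (hτ : ρ b * thr b ≤ vv ρ N a) (Λ : ℝ) (hΛ : 0 < Λ)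
    (hΛ' : ∀ k, a ≤ k → k < b → 1 ≤ thr k →
      Λ ≤ Real.log (vv ρ N a) - Real.log (ρ k * thr k) - 1) :
    RR p thr 0 (fun _ => 0) N 0 ≤ 4 * (ρ b * thr b) / vv ρ N b +
      (1 + Real.log (vv ρ N a) - Real.log (ρ b * thr b)) / Λ := by
  set R := RR p thr 0 (fun _ => 0) with hR
  set va := vv ρ N a with hva
  have hva0 : 0 < va := vv_pos hρ (by omega)
  have hτr : (1 : ℝ) ≤ thr b := by exact_mod_cast hτ1
  have hρτ : 0 < ρ b * thr b := mul_pos (hρ b) (by linarith)
  have hlogτ : Real.log (ρ b * thr b) ≤ Real.log va := Real.log_le_log hρτ hτ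
  -- shape of R
  have Rbad : ∀ j d, d < thr j → R j d = 1 := by
    intro j d h
    cases j with
    | zero => rw [hR, RR, if_pos (by omega)]
    | succ j => rw [hR, RR, if_pos (by omega)]
  have Rgood : ∀ j d, ¬ d < thr (j + 1) → R (j + 1) d = NB (p (j + 1)) (d + 1) (R j) := by
    intro j d h
    rw [hR, RR, if_neg (by omega), if_pos (Nat.zero_le _)]
  have Rgood0 : ∀ d, ¬ d < thr 0 → R 0 d = 0 := by
    intro d h
    rw [hR, RR, if_neg (by omega)]
  have Rnn : ∀ j d, 0 ≤ R j d := fun j d => (RR_bdd hp0 hp1 0 _ j d).1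
  have Rle : ∀ j d, R j d ≤ 1 := fun j d => (RR_bdd hp0 hp1 0 _ j d).2
  have Rgr : ∀ j, Gr (R j) := fun j => RR_gr hp0 hp1 0 _ j
  -- below a
  have Rlow : ∀ j, j < a → ∀ d, R j d = 0 := by
    intro j
    induction j with
    | zero =>
      intro hj d
      exact Rgood0 d (by rw [hthr 0 (Or.inl hj)]; omega)
    | succ j ih =>
      intro hj d
      rw [Rgood j d (by rw [hthr (j + 1) (Or.inl hj)]; omega)]
      have : R j = fun _ => 0 := by
        funext d
        exact ih (by omega) d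
      rw [this, NB_const (hp0 _) (hp1 _)]
  have Ra : ∀ d, ¬ d < thr a → R a d = 0 := by
    intro d hd
    cases ha : a with
    | zero => subst ha; exact Rgood0 d hd
    | succ j =>
      subst ha
      rw [Rgood j d hd]
      have : R j = fun _ => 0 := by
        funext d
        exact Rlow j (by omega) d
      rw [this, NB_const (hp0 _) (hp1 _)]
  -- the supersolution in the block
  set Q : ℕ → ℕ → ℝ := fun j d => (ρ j / va * ((d : ℝ) + 1) + ((va - vv ρ N j) / va +
    Real.log va - Real.log (ρ j)) + (-1) * Hs d) with hQ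
  have Qgr : ∀ j, Gr (Q j) := fun j => ((Gr.lin.mul_const _).add (Gr.const _)).add
    (Gr_Hs.mul_const _)
  have hvj : ∀ j, a ≤ j → 0 ≤ (va - vv ρ N j) / va := fun j hj =>
    div_nonneg (sub_nonneg.2 (vv_anti hρ hj)) hva0.le
  have Qnn : ∀ j d, a ≤ j → 0 ≤ Q j d := by
    intro j d hj
    have h1 := hρ j
    have hd : (0 : ℝ) < (d : ℝ) + 1 := by positivity
    have h2 := Hs_le d
    have h3 := hvj j hj
    have h4 : Real.log (ρ j / va * ((d : ℝ) + 1)) ≤ ρ j / va * ((d : ℝ) + 1) - 1 :=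
      Real.log_le_sub_one_of_pos (by positivity)
    rw [Real.log_mul (by positivity) (by positivity), Real.log_div h1.ne' hva0.ne'] at h4
    simp only [hQ]
    linarith
  have Qbad : ∀ j d, a ≤ j → j < b → d < thr j → Λ ≤ Q j d := by
    intro j d hj hjb hd
    have h1 := hρ j
    have hd0 : (0 : ℝ) < (d : ℝ) + 1 := by positivity
    have h2 := Hs_le d
    have h3 := hvj j hj
    have h4 := hΛ' j hj hjb (by omega)
    have h5 : (0 : ℝ) < thr j := by exact_mod_cast (by omega : 0 < thr j)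
    have h6 : Real.log ((d : ℝ) + 1) ≤ Real.log (thr j) :=
      Real.log_le_log hd0 (by exact_mod_cast (by omega : d + 1 ≤ thr j))
    rw [Real.log_mul h1.ne' h5.ne'] at h4
    have h7 : 0 ≤ ρ j / va * ((d : ℝ) + 1) := by positivity
    simp only [hQ]
    linarith
  have Qstep : ∀ j d, j < N → NB (p (j + 1)) (d + 1) (Q j) ≤ Q (j + 1) d := by
    intro j d hjN
    have g1 : Gr (fun d : ℕ => ρ j / va * ((d : ℝ) + 1)) := Gr.lin.mul_const _
    have g2 : Gr (fun _ : ℕ => (va - vv ρ N j) / va + Real.log va - Real.log (ρ j)) := Gr.const _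
    have g3 : Gr (fun d => (-1) * Hs d) := Gr_Hs.mul_const _
    have e : NB (p (j + 1)) (d + 1) (Q j) = ρ j / va * NB (p (j + 1)) (d + 1) (fun d => (d : ℝ) + 1) +
        ((va - vv ρ N j) / va + Real.log va - Real.log (ρ j)) + (-1) * NB (p (j + 1)) (d + 1) Hs := by
      have e1 := NB_add (hp0 (j + 1)) (hp1 (j + 1)) (g1.add g2) g3 (d + 1)
      have e2 := NB_add (hp0 (j + 1)) (hp1 (j + 1)) g1 g2 (d + 1)
      rw [e2, NB_mul, NB_mul, NB_const (hp0 _) (hp1 _)] at e1
      exact e1
    rw [e]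
    have h1 := lin_step hρ hp j d
    have h2 := harm_step hρ hp j d
    have h3 := vv_succ ρ (N := N) (k := j) (by omega)
    have h4 : ρ j / va * NB (p (j + 1)) (d + 1) (fun d => (d : ℝ) + 1) =
        (ρ j + ((d : ℝ) + 1) * ρ (j + 1)) / va := by
      rw [← h1]
      ring
    rw [h4]
    simp only [hQ]
    have h5 : (ρ j + ((d : ℝ) + 1) * ρ (j + 1)) / va + (va - vv ρ N j) / va =
        ρ (j + 1) / va * ((d : ℝ) + 1) + (va - vv ρ N (j + 1)) / va := by
      rw [h3]
      field_simp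
      ring
    linarith
  have blk : ∀ j, a ≤ j → j < b → ∀ d, Λ * R j d ≤ Q j d := by
    intro j hj
    induction j, hj using Nat.le_induction with
    | base =>
      intro hjb d
      by_cases c : d < thr a
      · rw [Rbad a d c, mul_one]
        exact Qbad a d le_rfl hjb c
      · rw [Ra d c, mul_zero]
        exact Qnn a d le_rfl
    | succ j hj ih =>
      intro hjb d
      by_cases c : d < thr (j + 1)
      · rw [Rbad (j + 1) d c, mul_one]
        exact Qbad (j + 1) d (by omega) hjb c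
      · rw [Rgood j d c, ← NB_mul]
        exact (NB_mono (hp0 _) (hp1 _) ((Rgr j).mul_const _) (Qgr j) (ih (by omega)) _).trans
          (Qstep j d (by omega))
  -- at b and above
  set W : ℕ → ℕ → ℝ := fun j d => ρ j / va * ((d : ℝ) + 1) + ((va - vv ρ N j) / va +
    Real.log va - Real.log (ρ b * thr b)) with hW
  have Wnn : ∀ j d, a ≤ j → 0 ≤ W j d := by
    intro j d hj
    have h1 := hρ j
    have h3 := hvj j hj
    have h7 : 0 ≤ ρ j / va * ((d : ℝ) + 1) := by positivity
    simp only [hW]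
    linarith
  have Wstep : ∀ j d, j < N → NB (p (j + 1)) (d + 1) (W j) = W (j + 1) d := by
    intro j d hjN
    have g1 : Gr (fun d : ℕ => ρ j / va * ((d : ℝ) + 1)) := Gr.lin.mul_const _
    have g2 : Gr (fun _ : ℕ => (va - vv ρ N j) / va + Real.log va - Real.log (ρ b * thr b)) :=
      Gr.const _
    have e2 := NB_add (hp0 (j + 1)) (hp1 (j + 1)) g1 g2 (d + 1)
    rw [NB_mul, NB_const (hp0 _) (hp1 _)] at e2
    have h1 := lin_step hρ hp j d
    have h3 := vv_succ ρ (N := N) (k := j) (by omega)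
    have h4 : ρ j / va * NB (p (j + 1)) (d + 1) (fun d => (d : ℝ) + 1) =
        (ρ j + ((d : ℝ) + 1) * ρ (j + 1)) / va := by
      rw [← h1]
      ring
    rw [h4] at e2
    have h5 : (ρ j + ((d : ℝ) + 1) * ρ (j + 1)) / va + (va - vv ρ N j) / va =
        ρ (j + 1) / va * ((d : ℝ) + 1) + (va - vv ρ N (j + 1)) / va := by
      rw [h3]
      field_simp
      ring
    have e3 : NB (p (j + 1)) (d + 1) (W j) = (ρ j + ((d : ℝ) + 1) * ρ (j + 1)) / va +
        ((va - vv ρ N j) / va + Real.log va - Real.log (ρ b * thr b)) := e2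
    rw [e3]
    simp only [hW]
    linarith
  set Y : ℕ → ℝ := fun j => 2 * (ρ b * thr b) + (vv ρ N (b + 1) - vv ρ N (j + 1)) with hY
  have hYb : Y b = 2 * (ρ b * thr b) := by simp [hY]
  have hYpos : ∀ j, b ≤ j → j ≤ N → ρ j < Y j := by
    intro j hj hjN
    rcases Nat.eq_or_lt_of_le hj with h | h
    · subst h
      rw [hYb]
      have := hρ b
      nlinarith
    · simp only [hY]
      have := vv_succ ρ hjN
      have h2 := vv_anti hρ (N := N) (show b + 1 ≤ j by omega)
      linarith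
  set s : ℕ → ℝ := fun j => (Y j - ρ j) / Y j with hs
  have hY0 : ∀ j, b ≤ j → j ≤ N → 0 < Y j := fun j hj hjN => (hρ j).trans (hYpos j hj hjN)
  have hs0 : ∀ j, b ≤ j → j ≤ N → 0 ≤ s j := fun j hj hjN =>
    div_nonneg (by have := hYpos j hj hjN; linarith) (hY0 j hj hjN).le
  have hs1 : ∀ j, b ≤ j → j ≤ N → s j ≤ 1 := fun j hj hjN => by
    simp only [hs]
    rw [div_le_one (hY0 j hj hjN)]
    have := hρ j
    linarith
  have top : ∀ j, b ≤ j → j ≤ N → ∀ d, Λ * R j d ≤ Λ * (2 * (Y b / Y j)) * s j ^ d + W j d := by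
    intro j hj
    induction j, hj using Nat.le_induction with
    | base =>
      intro hbN' d
      have hYb0 := hY0 b le_rfl hbN
      rw [div_self hYb0.ne', mul_one]
      by_cases c : d < thr b
      · rw [Rbad b d c, mul_one]
        have h1 : s b = 1 + (-(1 / (2 * (thr b : ℝ)))) := by
          simp only [hs]
          rw [hYb]
          have := (hρ b).ne'
          field_simp
          ring
        have h2 : (1 : ℝ) + (d : ℝ) * (-(1 / (2 * (thr b : ℝ)))) ≤ s b ^ d := by
          rw [h1]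
          refine one_add_mul_le_pow ?_ d
          have : 1 / (2 * (thr b : ℝ)) ≤ 1 := by
            rw [div_le_one (by positivity)]
            linarith
          linarith
        have h3 : (d : ℝ) * (1 / (2 * (thr b : ℝ))) ≤ 1 / 2 := by
          have hd : (d : ℝ) ≤ thr b := by exact_mod_cast c.le
          rw [mul_one_div, div_le_div_iff₀ (by positivity) (by norm_num)]
          linarith
        have h4 : 1 ≤ 2 * s b ^ d := by linarith
        have h5 := mul_le_mul_of_nonneg_left h4 hΛ.le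
        have := Wnn b d hab
        linarith
      · have h0 : 0 ≤ Λ * 2 * s b ^ d := mul_nonneg (by linarith) (pow_nonneg (hs0 b le_rfl hbN) _)
        rcases Nat.eq_or_lt_of_le hab with h | h
        · have hRb : R b d = 0 := by
            rw [← h] at c ⊢
            exact Ra d c
          rw [hRb, mul_zero]
          have := Wnn b d hab
          linarith
        · obtain ⟨j', rfl⟩ : ∃ j', b = j' + 1 := ⟨b - 1, by omega⟩
          have h1 : Λ * R (j' + 1) d ≤ Q (j' + 1) d := by
            rw [Rgood j' d c, ← NB_mul]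
            exact (NB_mono (hp0 _) (hp1 _) ((Rgr j').mul_const _) (Qgr j')
              (blk j' (by omega) (by omega)) _).trans (Qstep j' d (by omega))
          have h2 : Q (j' + 1) d ≤ W (j' + 1) d := by
            simp only [hQ, hW]
            have h3 := log_le_Hs d
            have h4 : Real.log (thr (j' + 1)) ≤ Real.log ((d : ℝ) + 1) :=
              Real.log_le_log (by linarith) (by exact_mod_cast (by omega : thr (j' + 1) ≤ d + 1))
            rw [Real.log_mul (hρ _).ne' (by linarith)]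
            linarith
          linarith
    | succ j hj ih =>
      intro hjN d
      have hjN' : j ≤ N := by omega
      have c : ¬ d < thr (j + 1) := by
        rw [hthr (j + 1) (Or.inr (by omega))]
        omega
      rw [Rgood j d c, ← NB_mul]
      have g1 : Gr (fun d : ℕ => Λ * (2 * (Y b / Y j)) * s j ^ d) :=
        (Gr.of_bdd (fun d => pow_nonneg (hs0 j hj hjN') d)
          (fun d => pow_le_one₀ (hs0 j hj hjN') (hs1 j hj hjN'))).mul_const _
      have g2 : Gr (W j) := (Gr.lin.mul_const _).add (Gr.const _)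
      refine (NB_mono (hp0 _) (hp1 _) ((Rgr j).mul_const _) (g1.add g2) (ih hjN') _).trans ?_
      rw [NB_add (hp0 _) (hp1 _) g1 g2, Wstep j d (by omega), NB_mul,
        NB_pow (hp0 _) (hp1 _) (hs0 j hj hjN') (hs1 j hj hjN')]
      refine add_le_add_left (le_of_eq ?_) _
      have hYj := hY0 j hj hjN'
      have hYj1 := hY0 (j + 1) (by omega) hjN
      have hYs : Y (j + 1) = Y j + ρ (j + 1) := by
        simp only [hY]
        have := vv_succ ρ hjN
        linarith
      have r1 := hρ j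
      have r2 := hρ (j + 1)
      have e1 : p (j + 1) / (1 - (1 - p (j + 1)) * s j) = Y j / Y (j + 1) := by
        have e2 : 1 - (1 - p (j + 1)) * s j = ρ j * Y (j + 1) / ((ρ j + ρ (j + 1)) * Y j) := by
          rw [one_sub_p hρ hp, hYs]
          simp only [hs]
          field_simp
          ring
        rw [e2, hp]
        field_simp
      have e3 : s (j + 1) = Y j / Y (j + 1) := by
        simp only [hs]
        rw [hYs, add_sub_cancel_right]
      rw [e1, e3, pow_succ]
      field_simp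
  have fin := top N hbN le_rfl 0
  rw [pow_zero, mul_one] at fin
  have hW0 : W N 0 = 1 + Real.log va - Real.log (ρ b * thr b) := by
    simp only [hW]
    rw [vv_succ ρ (le_refl N), vv_last]
    have := hva0.ne'
    push_cast
    field_simp
    ring
  have hYN : vv ρ N b ≤ Y N := by
    simp only [hY]
    rw [vv_last, vv_succ ρ hbN]
    have : ρ b * 1 ≤ ρ b * thr b := mul_le_mul_of_nonneg_left hτr (hρ b).le
    linarith
  have hvb := vv_pos hρ hbN
  have h1 : 2 * (Y b / Y N) ≤ 4 * (ρ b * thr b) / vv ρ N b := by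
    rw [hYb]
    calc 2 * (2 * (ρ b * thr b) / Y N) = 4 * (ρ b * thr b) / Y N := by ring
      _ ≤ _ := div_le_div_of_nonneg_left (by linarith) hvb hYN
  have h2 : Λ * R N 0 ≤ Λ * (4 * (ρ b * thr b) / vv ρ N b +
      (1 + Real.log va - Real.log (ρ b * thr b)) / Λ) := by
    have h3 : Λ * (4 * (ρ b * thr b) / vv ρ N b +
      (1 + Real.log va - Real.log (ρ b * thr b)) / Λ) = Λ * (4 * (ρ b * thr b) / vv ρ N b) +
      (1 + Real.log va - Real.log (ρ b * thr b)) := by
      field_simp
    rw [h3, ← hW0]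
    have := mul_le_mul_of_nonneg_left h1 hΛ.le
    linarith
  exact le_of_mul_le_mul_left h2 hΛ

end

end Pool.Agent.Lib.MP_e14847_pr
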