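import Mathlib
import Pool.Agent.Lib.MP_e14847_pr.Cond
import Pool.Agent.Lib.MP_e14847_pr.RKBound

open Finset

namespace Pool.Agent.Lib.MP_e14847_pr

/-! ### The number of visits which is needed to cross the edges near a ring -/

theorem Cs_ge (κ : ℕ) : 4 * (2 : ℝ) ^ bet κ ≤ Cs κ := by
  have h := Cs_lower κ
  have h1 : 1024 * (io κ : ℝ) ≤ rr κ := by exact_mod_cast io_le_rr κ
  have h2 := io_pos κ
  have h4 : (0 : ℝ) < 2 ^ bet κ := by positivity
  by_contra hcon
  push Not at hcon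
  have h5 : 512 * (io κ : ℝ) * Cs κ < 512 * (io κ : ℝ) * (4 * 2 ^ bet κ) :=
    mul_lt_mul_of_pos_left hcon (by positivity)
  have h6 : 1024 * (io κ : ℝ) * 2 ^ bet κ ≤ rr κ * 2 ^ bet κ :=
    mul_le_mul_of_nonneg_right h1 h4.le
  nlinarith

theorem EE_ge (κ : ℕ) : 4 * (2 : ℝ) ^ bet κ ≤ EE κ := by
  cases κ with
  | zero => exact Cs_ge 0
  | succ k =>
    have := Cs_ge (k + 1)
    have := Cs_pos k
    unfold EE
    linarith

theorem al_le_one (κ : ℕ) : al κ ≤ 1 := by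
  have h1 := EE_ge κ
  have h2 := EE_pos κ
  have hj : (5 : ℝ) ≤ jo κ := by exact_mod_cast jo_ge κ
  have h3 : (2 : ℝ) ^ bet (κ - 1) ≤ 2 ^ bet κ :=
    pow_le_pow_right₀ (by norm_num) (bet_mono (by omega))
  have h4 : (0 : ℝ) < 2 ^ bet (κ - 1) := by positivity
  have h5 : DZ κ ≤ 2 ^ bet (κ - 1) := by
    unfold DZ
    exact div_le_self h4.le (by linarith)
  unfold al
  rw [div_le_one (by positivity)]
  linarith

/-- Number of visits required. -/
noncomputable def TT (κ : ℕ) : ℕ := ⌈8 * (io κ : ℝ) / al κ⌉₊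

theorem pow_TT (κ : ℕ) : (1 - al κ) ^ TT κ ≤ (1 / 2 : ℝ) ^ (8 * io κ) := by
  have h0 := al_pos κ
  have h1 := al_le_one κ
  have h2 : 8 * (io κ : ℝ) ≤ al κ * TT κ := by
    have h := Nat.le_ceil (8 * (io κ : ℝ) / al κ)
    rw [div_le_iff₀ h0] at h
    unfold TT
    linarith
  have h3 : 1 - al κ ≤ Real.exp (- al κ) := by
    have := Real.add_one_le_exp (- al κ)
    linarith
  have h4 : Real.exp (-1) ≤ 1 / 2 := by
    rw [Real.exp_neg, one_div]
    have := Real.exp_one_gt_d9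
    exact inv_anti₀ (by norm_num) (by linarith)
  calc (1 - al κ) ^ TT κ ≤ Real.exp (- al κ) ^ TT κ := pow_le_pow_left₀ (by linarith) h3 _
    _ = Real.exp ((TT κ : ℝ) * (- al κ)) := by rw [Real.exp_nat_mul]
    _ ≤ Real.exp (((8 * io κ : ℕ) : ℝ) * (-1)) := by
        refine Real.exp_le_exp.2 ?_
        push_cast
        linarith
    _ = Real.exp (-1) ^ (8 * io κ) := by rw [Real.exp_nat_mul]
    _ ≤ (1 / 2 : ℝ) ^ (8 * io κ) := pow_le_pow_left₀ (Real.exp_pos _).le h4 _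

theorem EE_rho (κ : ℕ) : EE κ * rho κ ≤ 129 := by
  cases κ with
  | zero =>
    have h := Cs_pos 0
    have e : EE 0 * rho 0 = 1 := by
      unfold EE rho
      field_simp
    rw [e]
    norm_num
  | succ k =>
    have h0 := Cs_pos k
    have h1 := Cs_pos (k + 1)
    have h2 := rho_succ_le k
    have e1 : Cs (k + 1) * rho (k + 1) = 1 := by
      unfold rho
      field_simp
    have e2 : Cs k * rho k = 1 := by
      unfold rho
      field_simp
    have e : EE (k + 1) = Cs k + Cs (k + 1) := rfl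
    rw [e, add_mul, e1]
    have := mul_le_mul_of_nonneg_left h2 h0.le
    linarith

theorem iojo (κ : ℕ) : (io κ : ℝ) * jo κ ≤ 4 * 2 ^ tt (κ - 1) := by
  cases κ with
  | zero =>
    have h : ((io 0 * jo 0 : ℕ) : ℝ) ≤ ((2 ^ tt 0 : ℕ) : ℝ) := by exact_mod_cast le_pow_tt 0
    push_cast at h
    have e : 0 - 1 = 0 := rfl
    rw [e]
    have : (0 : ℝ) < 2 ^ tt 0 := by positivity
    linarith
  | succ k =>
    have h : ((io (k + 1) * jo (k + 1) : ℕ) : ℝ) ≤ ((2 ^ tt (k + 1) : ℕ) : ℝ) := by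
      exact_mod_cast le_pow_tt (k + 1)
    push_cast at h
    have h2 : (2 : ℝ) ^ tt (k + 1) ≤ 2 ^ (tt k + 2) :=
      pow_le_pow_right₀ (by norm_num) (tt_succ_le k)
    rw [pow_add] at h2
    have e : k + 1 - 1 = k := rfl
    rw [e]
    linarith

theorem rho_small (κ : ℕ) : rho κ ≤ 1 / 2 ^ gam (mb κ) := by
  have h1 := rho_le κ
  have h2 := ss_le_one κ
  have h3 := ss_pos κ
  have h4 : aa κ ≤ 1 / 2 ^ gam (mb κ) := by
    unfold aa
    exact div_le_div_of_nonneg_right h2 (by positivity)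
  have h5 := aa_pos κ
  linarith

theorem TT_rho (κ : ℕ) : (TT κ : ℝ) * rho κ ≤ 2 ^ 21 / 2 ^ gam (mb (κ - 1)) := by
  have h0 := al_pos κ
  have hE := EE_pos κ
  have hr := rho_pos κ
  have hj := jo_pos κ
  have hi := io_pos κ
  have h1 : (TT κ : ℝ) ≤ 8 * (io κ : ℝ) / al κ + 1 := by
    unfold TT
    exact (Nat.ceil_lt_add_one (by positivity)).le
  have e1 : 8 * (io κ : ℝ) / al κ = 2560 * ((io κ : ℝ) * jo κ) * EE κ / 2 ^ bet (κ - 1) := by
    unfold al DZ
    field_simp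
    ring
  have h2 : (TT κ : ℝ) * rho κ ≤ 2560 * ((io κ : ℝ) * jo κ) * (EE κ * rho κ) / 2 ^ bet (κ - 1) +
      rho κ := by
    calc (TT κ : ℝ) * rho κ ≤ (8 * (io κ : ℝ) / al κ + 1) * rho κ :=
          mul_le_mul_of_nonneg_right h1 hr.le
      _ = _ := by
          rw [e1]
          ring
  have h3 : 2560 * ((io κ : ℝ) * jo κ) * (EE κ * rho κ) ≤ 2560 * (4 * 2 ^ tt (κ - 1)) * 129 := by
    have a1 := iojo κ
    have a2 := EE_rho κ
    have a3 : 0 < EE κ * rho κ := mul_pos hE hr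
    have a4 : 0 < (io κ : ℝ) * jo κ := mul_pos hi hj
    refine mul_le_mul (by linarith) a2 a3.le (by positivity)
  have h4 : 2560 * ((io κ : ℝ) * jo κ) * (EE κ * rho κ) / 2 ^ bet (κ - 1) ≤
      1320960 / 2 ^ gam (mb (κ - 1)) := by
    have hb : (2 : ℝ) ^ bet (κ - 1) = 2 ^ tt (κ - 1) * 2 ^ gam (mb (κ - 1)) := by
      unfold bet
      rw [pow_add]
    rw [hb, div_le_div_iff₀ (by positivity) (by positivity)]
    have hg : (0 : ℝ) < 2 ^ gam (mb (κ - 1)) := by positivity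
    nlinarith [mul_le_mul_of_nonneg_right h3 hg.le]
  have h5 : rho κ ≤ 1 / 2 ^ gam (mb (κ - 1)) := by
    refine (rho_small κ).trans ?_
    refine one_div_le_one_div_of_le (by positivity) (pow_le_pow_right₀ (by norm_num) ?_)
    exact gam_mono (mb_mono (by omega))
  have h6 : (1320960 : ℝ) / 2 ^ gam (mb (κ - 1)) + 1 / 2 ^ gam (mb (κ - 1)) ≤
      2 ^ 21 / 2 ^ gam (mb (κ - 1)) := by
    rw [← add_div]
    exact div_le_div_of_nonneg_right (by norm_num) (by positivity)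
  linarith

/-- Exponents of the smallness in block `m`. -/
def hh (m : ℕ) : ℕ := 4096 * 4 ^ m

theorem hh_ge (m : ℕ) : 4096 * (m + 1) ≤ hh m := by
  unfold hh
  have : ∀ m : ℕ, m + 1 ≤ 4 ^ m := by
    intro m
    induction m with
    | zero => norm_num
    | succ m ih =>
      rw [pow_succ]
      omega
  exact Nat.mul_le_mul_left _ (this m)

theorem gg_eq_hh (m : ℕ) : gg m = hh (m + 1) := by
  unfold gg hh
  rw [G0_eq, pow_succ]
  ring

theorem hh_le_gg (m : ℕ) : hh m ≤ gg m := by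
  rw [gg_eq_hh]
  unfold hh
  rw [pow_succ]
  omega

theorem le_mb {m κ : ℕ} (h : Kb m ≤ κ) : m ≤ mb κ := by
  have h1 : mb (Kb m) = m := mb_eq le_rfl (Kb_lt m)
  have h2 := mb_mono h
  omega

theorem gam_ge {m κ : ℕ} (h : Kb m ≤ κ) : hh m ≤ gam (mb (κ - 1)) := by
  have h1 := le_mb h
  have h2 : mb κ ≤ mb (κ - 1) + 1 := by
    cases κ with
    | zero => exact Nat.le_succ (mb 0)
    | succ k => exact mb_succ k
  cases m with
  | zero =>
    have h3 := hh_le_gg 0
    have h4 := gam_mono (Nat.zero_le (mb (κ - 1)))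
    have h5 : gg 0 ≤ gam 0 := by unfold gam; omega
    omega
  | succ j =>
    have h4 := gam_mono (show j ≤ mb (κ - 1) by omega)
    have h5 : gg j ≤ gam j := by unfold gam; omega
    rw [gg_eq_hh] at h5
    omega

theorem TT_rt {m κ : ℕ} (h : Kb m ≤ κ) : (TT κ : ℝ) * rt κ ≤ 2 ^ 21 / 2 ^ hh m := by
  have h1 := TT_rho κ
  have h2 := mul_le_mul_of_nonneg_left (rt_le κ) (Nat.cast_nonneg (α := ℝ) (TT κ))
  have h3 : (2 : ℝ) ^ 21 / 2 ^ gam (mb (κ - 1)) ≤ 2 ^ 21 / 2 ^ hh m :=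
    div_le_div_of_nonneg_left (by positivity) (by positivity)
      (pow_le_pow_right₀ (by norm_num) (gam_ge h))
  linarith

/-! ### The local times in one block -/

theorem vv_upper (m N : ℕ) (hN : Kb m ≤ N + 1) : vv rt N (Kb m) ≤ 2 * (1 / 2 : ℝ) ^ m := by
  have h := aa_tail m (N + 1) hN
  unfold vv
  calc ∑ i ∈ Ico (Kb m) (N + 1), rt i ≤ ∑ i ∈ Ico (Kb m) (N + 1), aa i / 2 :=
        Finset.sum_le_sum (fun i _ => (rt_le i).trans (rho_le i))
    _ = (∑ i ∈ Ico (Kb m) (N + 1), aa i) / 2 := by rw [Finset.sum_div]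
    _ ≤ 2 * (1 / 2 : ℝ) ^ m := by linarith

theorem vv_lower (m N b : ℕ) (hb : b ≤ Kb (m + 1)) (hN : Kb (m + 2) ≤ N + 1) :
    (1 / 2 : ℝ) ^ (m + 9) ≤ vv rt N b := by
  have h := aa_block (m + 1)
  unfold vv
  calc (1 / 2 : ℝ) ^ (m + 9) = (1 / 2 : ℝ) ^ (m + 1) / 256 := by
        rw [show m + 9 = m + 1 + 8 by ring, pow_add]
        norm_num
        ring
    _ ≤ (∑ i ∈ Ico (Kb (m + 1)) (Kb (m + 1 + 1)), aa i) / 256 :=
        div_le_div_of_nonneg_right h (by norm_num)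
    _ = ∑ i ∈ Ico (Kb (m + 1)) (Kb (m + 1 + 1)), aa i / 256 := by rw [Finset.sum_div]
    _ ≤ ∑ i ∈ Ico (Kb (m + 1)) (Kb (m + 1 + 1)), rt i := by
        refine Finset.sum_le_sum (fun i _ => ?_)
        have := rt_ge i
        have := rho_ge i
        linarith
    _ ≤ ∑ i ∈ Ico b (N + 1), rt i := by
        refine Finset.sum_le_sum_of_subset_of_nonneg (fun x hx => ?_) (fun i _ _ => (rt_pos i).le)
        rw [Finset.mem_Ico] at hx ⊢
        have e : m + 1 + 1 = m + 2 := rfl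
        rw [e] at hx
        omega

theorem m_add_le (m : ℕ) : ((m : ℝ) + 22) * (1 / 2) ^ m ≤ 22 := by
  have h : ∀ m : ℕ, (m : ℝ) + 1 ≤ 2 ^ m := by
    intro m
    induction m with
    | zero => norm_num
    | succ m ih =>
      rw [pow_succ]
      push_cast
      have := Nat.cast_nonneg (α := ℝ) m
      linarith
  have h1 := h m
  have h2 := Nat.cast_nonneg (α := ℝ) m
  rw [one_div, inv_pow, ← div_eq_mul_inv, div_le_iff₀ (by positivity)]
  linarith

theorem block_bound (m N : ℕ) (hN : Kb (m + 2) ≤ N + 1) :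
    ∃ thr : ℕ → ℕ, (∀ κ, Kb m ≤ κ → κ < Kb (m + 1) → TT κ ≤ thr κ) ∧
      RR pp thr 0 (fun _ => 0) N 0 ≤ (1 / 2 : ℝ) ^ m / 32 := by
  have hK1 := Kb_lt m
  have hK2 := Kb_lt (m + 1)
  have e2 : m + 1 + 1 = m + 2 := rfl
  rw [e2] at hK2
  obtain ⟨b, hb⟩ : ∃ b, Kb (m + 1) = b + 1 := ⟨Kb (m + 1) - 1, by omega⟩
  set a := Kb m with ha
  have hab : a ≤ b := by omega
  have hbN : b ≤ N := by omega
  set X : ℝ := (1 / 2) ^ (2 * m + 20) with hX
  have hX0 : 0 < X := by positivity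
  have hrb := rt_pos b
  have hhm := hh_ge m
  have hva1 := vv_upper m N (by omega)
  have hvb := vv_lower m N b (by omega) hN
  have hva2 : (1 / 2 : ℝ) ^ (m + 9) ≤ vv rt N a := hvb.trans (vv_anti rt_pos hab)
  rw [← ha] at hva1
  have hva0 : 0 < vv rt N a := lt_of_lt_of_le (by positivity) hva2
  have hvb0 : 0 < vv rt N b := lt_of_lt_of_le (by positivity) hvb
  have hmb : mb b = m := mb_eq hab (by omega)
  have hrbX : rt b ≤ X := by
    refine ((rt_le b).trans (rho_small b)).trans ?_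
    rw [hmb, hX, one_div_pow]
    refine one_div_le_one_div_of_le (by positivity) (pow_le_pow_right₀ (by norm_num) ?_)
    have := hh_le_gg m
    unfold gam
    omega
  have hTX : ∀ κ, a ≤ κ → (TT κ : ℝ) * rt κ ≤ 2 ^ 21 / 2 ^ hh m := fun κ hκ => TT_rt hκ
  have hsmall : (2 : ℝ) ^ 21 / 2 ^ hh m ≤ X := by
    rw [hX, one_div_pow, div_le_div_iff₀ (by positivity) (by positivity), one_mul, ← pow_add]
    exact pow_le_pow_right₀ (by norm_num) (by omega)
  set τ : ℕ := ⌈X / rt b⌉₊ with hτ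
  have hτ1 : X ≤ rt b * τ := by
    have h := Nat.le_ceil (X / rt b)
    rw [div_le_iff₀ hrb] at h
    rw [hτ]
    linarith
  have hτ2 : rt b * τ ≤ 2 * X := by
    have h := (Nat.ceil_lt_add_one (show 0 ≤ X / rt b by positivity)).le
    have h2 := mul_le_mul_of_nonneg_left h hrb.le
    have e : rt b * (X / rt b + 1) = X + rt b := by field_simp
    rw [e] at h2
    rw [hτ]
    linarith
  have hτpos : 1 ≤ τ := by
    by_contra hcon
    have : τ = 0 := by omega
    rw [this] at hτ1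
    simp only [Nat.cast_zero, mul_zero] at hτ1
    linarith
  set thr : ℕ → ℕ := fun k => if k = b then τ else if a ≤ k ∧ k < b then TT k else 0 with hthr
  have thr_b : thr b = τ := by simp only [hthr, if_true]
  have thr_mid : ∀ k, a ≤ k → k < b → thr k = TT k := fun k h1 h2 => by
    simp only [hthr]
    rw [if_neg (by omega), if_pos ⟨h1, h2⟩]
  refine ⟨thr, fun κ h1 h2 => ?_, ?_⟩
  · rcases Nat.lt_or_ge κ b with h | h
    · rw [thr_mid κ h1 h]
    · obtain rfl : κ = b := by omega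
      rw [thr_b]
      have h3 := (hTX κ h1).trans hsmall
      have h4 : (TT κ : ℝ) ≤ X / rt κ := by rwa [le_div_iff₀ hrb]
      exact_mod_cast h4.trans (Nat.le_ceil _)
  have hL1 := Real.log_two_gt_d9
  have hL2 := Real.log_two_lt_d9
  have hm0 := Nat.cast_nonneg (α := ℝ) m
  have hhr : 4096 * ((m : ℝ) + 1) ≤ hh m := by exact_mod_cast hhm
  have logpow : ∀ k : ℕ, Real.log ((1 / 2 : ℝ) ^ k) = - (k * Real.log 2) := fun k => by
    rw [Real.log_pow, one_div, Real.log_inv]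
    ring
  have hlva : - (((m : ℝ) + 9) * Real.log 2) ≤ Real.log (vv rt N a) := by
    have h := Real.log_le_log (by positivity) hva2
    rw [logpow] at h
    push_cast at h
    exact h
  have hlva2 : Real.log (vv rt N a) ≤ Real.log 2 - m * Real.log 2 := by
    have h := Real.log_le_log hva0 hva1
    rw [Real.log_mul (by norm_num) (by positivity), logpow] at h
    linarith
  have hlX : - ((2 * (m : ℝ) + 20) * Real.log 2) ≤ Real.log (rt b * τ) := by
    have h := Real.log_le_log hX0 hτ1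
    rw [hX, logpow] at h
    push_cast at h
    exact h
  have hX2 : 2 * X ≤ (1 / 2 : ℝ) ^ (m + 9) := by
    have e : 2 * X = (1 / 2 : ℝ) ^ (2 * m + 19) := by
      rw [hX, show 2 * m + 20 = (2 * m + 19) + 1 by ring, pow_succ]
      ring
    rw [e]
    exact pow_le_pow_of_le_one (by norm_num) (by norm_num) (by omega)
  set Λ : ℝ := (hh m : ℝ) / 2 with hΛ
  have hΛ0 : 0 < Λ := by
    rw [hΛ]
    linarith
  have hRK := RK_bound rt_pos (p := pp) pp_succ pp_pos pp_le hab hbN thr (fun k hk => by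
    simp only [hthr]
    rw [if_neg (by omega), if_neg (by omega)]) (by rw [thr_b]; exact hτpos)
    (by rw [thr_b]; linarith) Λ hΛ0 (fun k h1 h2 h3 => by
      rw [thr_mid k h1 h2] at h3 ⊢
      have h4 : Real.log (rt k * TT k) ≤ 21 * Real.log 2 - hh m * Real.log 2 := by
        have h5 : 0 < rt k * (TT k : ℝ) := mul_pos (rt_pos k) (by exact_mod_cast h3)
        have h6 : rt k * (TT k : ℝ) ≤ 2 ^ 21 / 2 ^ hh m := by
          have := hTX k h1
          linarith
        have h7 := Real.log_le_log h5 h6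
        rw [Real.log_div (by positivity) (by positivity), Real.log_pow, Real.log_pow] at h7
        push_cast at h7
        exact h7
      have h8 : ((hh m : ℝ) - m - 30) * 0.69 ≤ ((hh m : ℝ) - m - 30) * Real.log 2 :=
        mul_le_mul_of_nonneg_left (by linarith) (by linarith)
      rw [hΛ]
      linarith)
  refine hRK.trans ?_
  rw [thr_b]
  have t1 : 4 * (rt b * τ) / vv rt N b ≤ (1 / 2 : ℝ) ^ m / 256 := by
    rw [div_le_iff₀ hvb0]
    have e : 4 * (2 * X) = (1 / 2 : ℝ) ^ m / 256 * (1 / 2) ^ (m + 9) := by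
      rw [hX, show 2 * m + 20 = m + (m + 9) + 11 by ring, pow_add, pow_add]
      ring
    have h1 : 4 * (rt b * τ) ≤ 4 * (2 * X) := by linarith
    have h2 : (1 / 2 : ℝ) ^ m / 256 * (1 / 2) ^ (m + 9) ≤ (1 / 2 : ℝ) ^ m / 256 * vv rt N b :=
      mul_le_mul_of_nonneg_left hvb (by positivity)
    linarith
  have t2 : (1 + Real.log (vv rt N a) - Real.log (rt b * τ)) / Λ ≤ 22 / 2048 * (1 / 2 : ℝ) ^ m := by
    have h1 : 1 + Real.log (vv rt N a) - Real.log (rt b * τ) ≤ (m : ℝ) + 22 := by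
      have h2 : ((m : ℝ) + 21) * Real.log 2 ≤ ((m : ℝ) + 21) * 1 :=
        mul_le_mul_of_nonneg_left (by linarith) (by linarith)
      linarith
    rw [div_le_iff₀ hΛ0]
    have h3 := m_add_le m
    have e : Λ = 2048 * 4 ^ m := by
      rw [hΛ]
      unfold hh
      push_cast
      ring
    have e2 : 22 / 2048 * (1 / 2 : ℝ) ^ m * Λ = 22 * 2 ^ m := by
      rw [e, show (4 : ℝ) ^ m = 2 ^ m * 2 ^ m by rw [← mul_pow]; norm_num]
      have : (1 / 2 : ℝ) ^ m * 2 ^ m = 1 := by rw [← mul_pow]; norm_num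
      calc 22 / 2048 * (1 / 2 : ℝ) ^ m * (2048 * (2 ^ m * 2 ^ m))
          = 22 * ((1 / 2 : ℝ) ^ m * 2 ^ m) * 2 ^ m := by ring
        _ = 22 * 2 ^ m := by rw [this, mul_one]
    rw [e2]
    have h4 : ((m : ℝ) + 22) ≤ 22 * 2 ^ m := by
      rw [one_div, inv_pow, ← div_eq_mul_inv, div_le_iff₀ (by positivity)] at h3
      exact h3
    linarith
  have hp : (0 : ℝ) < (1 / 2) ^ m := by positivity
  linarith

end Pool.Agent.Lib.MP_e14847_pr
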