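import Mathlib
import Pool.Agent.Lib.MP_e14847_pr.Block
import Pool.Agent.Lib.MP_e14847_pr.Auto

open Finset MeasureTheory
open scoped ENNReal

namespace Pool.Agent.Lib.MP_e14847_pr

/-! ### Transition probabilities are bounded below -/

section ratio
variable {w : ℤ → ℝ} (hw : ∀ l, 0 < w l) (hw1 : ∀ l, w l ≤ 2 * w (l + 1))
  (hw2 : ∀ l, w (l + 1) ≤ 2 * w l)

theorem cd_cases (w : ℤ → ℝ) (x : V) {e : V} (he : e ∈ dirs) :
    cd w x (x + e) = w (lev x) ∨ cd w x (x + e) = w (lev x - 1) := by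
  have l2 := le_lev_add (x := x) he
  unfold cd
  by_cases c : lev x ≤ lev (x + e)
  · exact Or.inl (by rw [min_eq_left c])
  · right
    rw [show min (lev x) (lev (x + e)) = lev x - 1 by omega]

include hw hw1 hw2 in
theorem cd_ratio (x : V) {e e' : V} (he : e ∈ dirs) (he' : e' ∈ dirs) :
    cd w x (x + e') ≤ 2 * cd w x (x + e) := by
  have a0 := hw (lev x)
  have b0 := hw (lev x - 1)
  have a1 := hw1 (lev x - 1)
  have a2 := hw2 (lev x - 1)
  rw [sub_add_cancel] at a1 a2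
  rcases cd_cases w x he with h | h <;> rcases cd_cases w x he' with h' | h' <;> rw [h, h'] <;>
    linarith

include hw hw1 hw2 in
theorem piw_le8 (x : V) {e : V} (he : e ∈ dirs) : piw w x ≤ 8 * cd w x (x + e) := by
  unfold piw
  rw [sum_dirs]
  have h1 := cd_ratio hw hw1 hw2 x he (e' := (1, 0)) (by simp [dirs])
  have h2 := cd_ratio hw hw1 hw2 x he (e' := (-1, 0)) (by simp [dirs])
  have h3 := cd_ratio hw hw1 hw2 x he (e' := (0, 1)) (by simp [dirs])
  have h4 := cd_ratio hw hw1 hw2 x he (e' := (0, -1)) (by simp [dirs])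
  linarith

end ratio

/-! ### Every vertex is close to a ring -/

theorem exists_near (x : V) : ∃ κ, Rl κ < lev x ∧ lev x < Rl (κ + 2) ∧
    1 / 2 ≤ lam ww (Rl κ) (Rl (κ + 1)) (Rl (κ + 2)) x := by
  have h0 := lev_nonneg x
  rcases le_or_gt (lev x) (rr 0) with h | h
  · refine ⟨0, by rw [Rl_zero]; omega, ?_, ?_⟩
    · have : Rl (0 + 2) = rr 1 := rfl
      have h1 : rr 0 < rr 1 := rr_lt 0
      omega
    · have e1 : hfun ww (Rl 0) (Rl (0 + 1)) x = 1 :=
        hfun_eq_one_of_neg ww_pos (Rl_strictMono (by norm_num)) (by rw [Rl_zero]; norm_num) x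
      have e2 : hfun ww (Rl (0 + 1)) (Rl (0 + 2)) x = 0 :=
        hfun_in ww_pos (Rl_strictMono (by norm_num)) h
      unfold lam
      rw [e1, e2]
      norm_num
  · obtain ⟨k, h1, h2⟩ := exists_idx h.le
    have hlt : Rl (k + 1) < Rl (k + 2) := Rl_strictMono (by omega)
    have r1 : Rl (k + 1) = rr k := rfl
    have r2 : Rl (k + 2) = rr (k + 1) := rfl
    rcases le_or_gt (hfun ww (Rl (k + 1)) (Rl (k + 2)) x) (1 / 2) with hh | hh
    · have hlt0 : Rl k < Rl (k + 1) := Rl_strictMono (by omega)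
      refine ⟨k, by omega, by omega, ?_⟩
      unfold lam
      rw [hfun_out ww_pos hlt0 (by omega)]
      linarith
    · have hne : Rl (k + 1) < lev x := by
        by_contra hcon
        rw [hfun_in ww_pos hlt (by omega)] at hh
        norm_num at hh
      have hlt2 : Rl (k + 2) < Rl (k + 3) := Rl_strictMono (by omega)
      have e3 : k + 1 + 2 = k + 3 := rfl
      have e4 : k + 1 + 1 = k + 2 := rfl
      refine ⟨k + 1, hne, by rw [e3]; omega, ?_⟩
      unfold lam
      rw [e3, e4, hfun_in ww_pos hlt2 (by omega)]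
      linarith

/-- The index of the ring close to a vertex. -/
noncomputable def kap (x : V) : ℕ := Classical.choose (exists_near x)

theorem kap_spec (x : V) : Rl (kap x) < lev x ∧ lev x < Rl (kap x + 2) ∧
    1 / 2 ≤ lam ww (Rl (kap x)) (Rl (kap x + 1)) (Rl (kap x + 2)) x :=
  Classical.choose_spec (exists_near x)

/-! ### The cost of an edge -/

theorem edge_cost (x : V) : (1 / 2 : ℝ) ^ (8 * io (kap x)) ≤
    (1 / 2) ^ 80 * (1 / ((lev x : ℝ) + 1) ^ 4) := by
  have h := (kap_spec x).2.1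
  have h0 := lev_nonneg x
  set κ := kap x with hκ
  have e : Rl (κ + 2) = rr (κ + 1) := rfl
  have h1 := rr_succ_le κ
  have h2 := rr_lt_pow κ
  have hio := io_ge κ
  have h3 : lev x + 1 ≤ ((2 ^ (io κ + 1) : ℕ) : ℤ) := by
    rw [pow_succ]
    push_cast
    have h4 : ((rr (κ + 1) : ℕ) : ℤ) ≤ 2 * ((rr κ : ℕ) : ℤ) := by exact_mod_cast h1
    have h5 : ((rr κ : ℕ) : ℤ) < (2 : ℤ) ^ io κ := by exact_mod_cast h2
    omega
  have h4 : (lev x : ℝ) + 1 ≤ 2 ^ (io κ + 1) := by exact_mod_cast h3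
  have h5 : (0 : ℝ) ≤ lev x := by exact_mod_cast h0
  have h6 : ((lev x : ℝ) + 1) ^ 4 ≤ 2 ^ (4 * io κ + 4) := by
    calc ((lev x : ℝ) + 1) ^ 4 ≤ (2 ^ (io κ + 1)) ^ 4 := pow_le_pow_left₀ (by linarith) h4 4
      _ = 2 ^ (4 * io κ + 4) := by
          rw [← pow_mul]
          ring_nf
  rw [mul_one_div, le_div_iff₀ (by positivity)]
  calc (1 / 2 : ℝ) ^ (8 * io κ) * ((lev x : ℝ) + 1) ^ 4
      ≤ (1 / 2 : ℝ) ^ (8 * io κ) * 2 ^ (4 * io κ + 4) :=
        mul_le_mul_of_nonneg_left h6 (by positivity)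
    _ = (1 / 2 : ℝ) ^ (4 * io κ - 4) := by
        rw [show 8 * io κ = (4 * io κ - 4) + (4 * io κ + 4) by omega, pow_add, mul_assoc,
          ← mul_pow]
        norm_num
    _ ≤ (1 / 2) ^ 80 := pow_le_pow_of_le_one (by norm_num) (by norm_num) (by omega)

theorem edge_prob {N : ℕ} {x : V} (hκ : kap x ≤ N) {e : V} (he : e ∈ dirs) {x0 : V} {Ω : Type}
    [MeasurableSpace Ω] {μ : Measure Ω} {X : ℕ → Ω → V}
    (hX : IsChain (Pk ww) x0 μ X) (hx0 : lev x0 < Rl 2) (n : ℕ) :
    μ {ω | (st (UA Rl N) (0, fun _ => 0) (fun i => X i ω) n).1 = N + 1 ∧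
      TT (kap x) ≤ (st (UA Rl N) (0, fun _ => 0) (fun i => X i ω) n).2 (kap x) ∧
      ¬ ∃ i < n, IsEdge x (x + e) (X i ω) (X (i + 1) ω)} ≤
      ENNReal.ofReal ((1 / 2) ^ 80 * (1 / ((lev x : ℝ) + 1) ^ 4)) := by
  obtain ⟨k1, k2, k3⟩ := kap_spec x
  obtain ⟨g, g1, g0, gh, gn, gl, _⟩ := exists_gfun ww_pos (Rl (kap x)) (Rl (kap x + 2)) x k1 k2
  refine (edge_bound ww_pos Rl_strictMono Rl_zero hκ (a := x) (b := x + e) (ψ := fun y => g y / 8)
    (al_pos (kap x)).le (al_le_one (kap x)) (fun y => by have := gn y; positivity)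
    (fun y => by have := gl y; linarith) (fun z hz => g_ring (kap x) k1 k2 k3 g1 g0 gh z hz)
    (fun y hy => by rw [g0 y hy, zero_div]) (fun y h1 h2 => ?_) hX hx0 n).trans
    (ENNReal.ofReal_le_ofReal ((pow_TT (kap x)).trans (edge_cost x)))
  by_cases c : y = x
  · subst c
    rw [g1]
    have h8 := piw_le8 ww_pos ww_le1 ww_le2 y he
    have hsingle : cd ww y (y + e) * (if IsEdge y (y + e) y (y + e) then 1 else g (y + e) / 8) ≤
        ∑ e' ∈ dirs, cd ww y (y + e') *
          (if IsEdge y (y + e) y (y + e') then 1 else g (y + e') / 8) := by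
      refine Finset.single_le_sum (f := fun e' => cd ww y (y + e') *
          (if IsEdge y (y + e) y (y + e') then 1 else g (y + e') / 8)) (fun e' _ => ?_) he
      refine mul_nonneg (cd_pos ww_pos _ _).le ?_
      split_ifs
      · exact zero_le_one
      · have := gn (y + e')
        positivity
    have hE : IsEdge y (y + e) y (y + e) := Or.inl ⟨rfl, rfl⟩
    rw [if_pos hE, mul_one] at hsingle
    linarith
  · have hL := gh y h1 h2 c
    have h3 := Lap_eq ww g y
    rw [hL, zero_add] at h3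
    have h4 : ∑ e' ∈ dirs, cd ww y (y + e') * (g (y + e') / 8) = piw ww y * (g y / 8) := by
      have e1 : ∀ e' ∈ dirs, cd ww y (y + e') * (g (y + e') / 8) =
          (cd ww y (y + e') * g (y + e')) / 8 := fun e' _ => by ring
      rw [Finset.sum_congr rfl e1, ← Finset.sum_div, h3]
      ring
    rw [← h4]
    refine Finset.sum_le_sum (fun e' _ => mul_le_mul_of_nonneg_left ?_ (cd_pos ww_pos _ _).le)
    split_ifs
    · have := gl (y + e')
      linarith
    · exact le_rfl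

end Pool.Agent.Lib.MP_e14847_pr
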