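import Mathlib
import Pool.Agent.Lib.MP_e14847_pr.Edge

open Finset MeasureTheory
open scoped ENNReal

namespace Pool.Agent.Lib.MP_e14847_pr

section cover
variable {x0 : V} {Ω : Type} [MeasurableSpace Ω] {μ : Measure Ω} {X : ℕ → Ω → V}

theorem exit_small (hX : IsChain (Pk ww) x0 μ X) (hx0 : lev x0 < Rl 2) (N : ℕ) {ε : ℝ}
    (hε : 0 < ε) : ∃ n : ℕ,
    μ {ω | ¬ (st (UA Rl N) (0, fun _ => 0) (fun i => X i ω) n).1 = N + 1} ≤ ENNReal.ofReal ε := by
  obtain ⟨K, hK⟩ := exit_bound ww_pos ww_le1 ww_le2 Rl_strictMono Rl_zero (N := N) hX hx0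
  obtain ⟨n, hn⟩ := exists_nat_gt (K / ε)
  have hn1 : K < n * ε := by rwa [div_lt_iff₀ hε] at hn
  refine ⟨n + 1, ?_⟩
  by_contra hcon
  push Not at hcon
  have h := hK (n + 1)
  have h1 : ENNReal.ofReal (((n : ℝ) + 1) * ε) ≤ ENNReal.ofReal K := by
    refine le_trans ?_ h
    rw [ENNReal.ofReal_mul (by positivity)]
    have e : ENNReal.ofReal ((n : ℝ) + 1) = ((n + 1 : ℕ) : ℝ≥0∞) := by
      rw [← ENNReal.ofReal_natCast]
      push_cast
      rfl
    rw [e]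
    exact mul_le_mul_right hcon.le _
  have h2 : ENNReal.ofReal K < ENNReal.ofReal (((n : ℝ) + 1) * ε) := by
    rw [ENNReal.ofReal_lt_ofReal_iff (by positivity)]
    linarith
  exact absurd h1 (not_le.2 h2)

theorem geom_le (n : ℕ) : ∑ m ∈ range n, (1 / 2 : ℝ) ^ m / 32 ≤ 1 / 16 := by
  have h : ∀ n : ℕ, ∑ m ∈ range n, (1 / 2 : ℝ) ^ m / 32 = 1 / 16 - (1 / 2) ^ n / 16 := by
    intro n
    induction n with
    | zero => norm_num
    | succ n ih =>
      rw [Finset.sum_range_succ, ih, pow_succ]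
      ring
  rw [h]
  have : (0 : ℝ) < (1 / 2) ^ n := by positivity
  linarith

theorem cover_box (hX : IsChain (Pk ww) x0 μ X) (hx0 : lev x0 < Rl 2) (M : ℤ)
    (hsum : ∑ x ∈ box M, 1 / ((lev x : ℝ) + 1) ^ 4 ≤ 16) :
    μ {ω | ∃ x ∈ box M, ∃ e ∈ dirs, ¬ ∃ i, IsEdge x (x + e) (X i ω) (X (i + 1) ω)} ≤
      ENNReal.ofReal (1 / 4) := by
  classical
  -- the number of blocks
  set m0 : ℕ := (box M).sup kap + 1 with hm0
  have hkap : ∀ x ∈ box M, kap x < m0 := fun x hx => by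
    have : kap x ≤ (box M).sup kap := Finset.le_sup hx
    omega
  set N : ℕ := Kb (m0 + 2) with hN
  have hKm : ∀ m, m ≤ Kb m := fun m => Kb_strictMono.id_le m
  have hbl : ∀ m, m < m0 → ∃ thr : ℕ → ℕ, (∀ κ, Kb m ≤ κ → κ < Kb (m + 1) → TT κ ≤ thr κ) ∧
      RR pp thr 0 (fun _ => 0) N 0 ≤ (1 / 2 : ℝ) ^ m / 32 := fun m hm =>
    block_bound m N (by
      have := Kb_strictMono.monotone (show m + 2 ≤ m0 + 2 by omega)
      omega)
  choose! thr hthr1 hthr2 using hbl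
  obtain ⟨n, hn⟩ := exit_small hX hx0 N (ε := 1 / 16) (by norm_num)
  set s : Ω → SA := fun ω => st (UA Rl N) (0, fun _ => 0) (fun i => X i ω) n with hs
  set A : Set Ω := {ω | ¬ (s ω).1 = N + 1} with hA
  set B : ℕ → Set Ω := fun m => {ω | (s ω).1 = N + 1 ∧ ∃ i, i ≤ N ∧ (s ω).2 i < thr m i} with hB
  set C : V → V → Set Ω := fun x e => {ω | (s ω).1 = N + 1 ∧ TT (kap x) ≤ (s ω).2 (kap x) ∧
      ¬ ∃ i < n, IsEdge x (x + e) (X i ω) (X (i + 1) ω)} with hC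
  have hsub : {ω | ∃ x ∈ box M, ∃ e ∈ dirs, ¬ ∃ i, IsEdge x (x + e) (X i ω) (X (i + 1) ω)} ⊆
      A ∪ ((⋃ m ∈ range m0, B m) ∪ ⋃ x ∈ box M, ⋃ e ∈ dirs, C x e) := by
    rintro ω ⟨x, hx, e, he, hxe⟩
    by_cases c1 : (s ω).1 = N + 1
    · right
      by_cases c2 : TT (kap x) ≤ (s ω).2 (kap x)
      · right
        simp only [Set.mem_iUnion]
        exact ⟨x, hx, e, he, c1, c2, fun ⟨i, _, h⟩ => hxe ⟨i, h⟩⟩
      · left
        simp only [Set.mem_iUnion]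
        have h1 := Kb_mb_le (kap x)
        have h2 := lt_Kb_mb_succ (kap x)
        have h3 : mb (kap x) < m0 := by
          have h4 := hKm (mb (kap x))
          have h5 := hkap x hx
          omega
        have h6 := hthr1 _ h3 (kap x) h1 h2
        refine ⟨mb (kap x), Finset.mem_range.2 h3, c1, kap x, ?_, by omega⟩
        have h7 := hkap x hx
        have h8 := hKm (m0 + 2)
        omega
    · exact Or.inl c1
  have hBm : ∀ m ∈ range m0, μ (B m) ≤ ENNReal.ofReal ((1 / 2 : ℝ) ^ m / 32) := by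
    intro m hm
    have h := local_time_bound ww_pos Rl_strictMono Rl_zero (N := N) pp_pos pp_le (thr m)
      (fun κ h1 _ z hz => u_le_pp κ h1 z hz) hX hx0 n
    exact h.trans (ENNReal.ofReal_le_ofReal (hthr2 m (Finset.mem_range.1 hm)))
  have hCx : ∀ x ∈ box M, ∀ e ∈ dirs, μ (C x e) ≤
      ENNReal.ofReal ((1 / 2) ^ 80 * (1 / ((lev x : ℝ) + 1) ^ 4)) := by
    intro x hx e he
    exact edge_prob (by
      have h7 := hkap x hx
      have h8 := hKm (m0 + 2)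
      omega) he hX hx0 n
  have tB : μ (⋃ m ∈ range m0, B m) ≤ ENNReal.ofReal (1 / 16) := by
    refine (measure_biUnion_finset_le _ _).trans ((Finset.sum_le_sum hBm).trans ?_)
    rw [← ENNReal.ofReal_sum_of_nonneg (fun m _ => by positivity)]
    exact ENNReal.ofReal_le_ofReal (geom_le m0)
  have tC : μ (⋃ x ∈ box M, ⋃ e ∈ dirs, C x e) ≤ ENNReal.ofReal (1 / 16) := by
    refine (measure_biUnion_finset_le _ _).trans ?_
    have h1 : ∀ x ∈ box M, μ (⋃ e ∈ dirs, C x e) ≤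
        ENNReal.ofReal (4 * ((1 / 2) ^ 80 * (1 / ((lev x : ℝ) + 1) ^ 4))) := by
      intro x hx
      refine (measure_biUnion_finset_le _ _).trans ((Finset.sum_le_sum (hCx x hx)).trans ?_)
      have h4 : ENNReal.ofReal 4 = ((4 : ℕ) : ℝ≥0∞) := by
        rw [← ENNReal.ofReal_natCast]
        norm_num
      rw [Finset.sum_const, show dirs.card = 4 by decide, nsmul_eq_mul,
        ENNReal.ofReal_mul (p := 4) (by norm_num), h4]
    refine (Finset.sum_le_sum h1).trans ?_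
    have hnn : ∀ x ∈ box M, 0 ≤ 4 * ((1 / 2 : ℝ) ^ 80 * (1 / ((lev x : ℝ) + 1) ^ 4)) := by
      intro x _
      positivity
    rw [← ENNReal.ofReal_sum_of_nonneg hnn]
    refine ENNReal.ofReal_le_ofReal ?_
    rw [← Finset.mul_sum, ← Finset.mul_sum]
    have h2 : (1 / 2 : ℝ) ^ 80 ≤ (1 / 2) ^ 10 :=
      pow_le_pow_of_le_one (by norm_num) (by norm_num) (by norm_num)
    have h3 : (0 : ℝ) ≤ (1 / 2) ^ 80 := by positivity
    calc 4 * ((1 / 2 : ℝ) ^ 80 * ∑ x ∈ box M, 1 / ((lev x : ℝ) + 1) ^ 4)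
        ≤ 4 * ((1 / 2 : ℝ) ^ 80 * 16) :=
          mul_le_mul_of_nonneg_left (mul_le_mul_of_nonneg_left hsum h3) (by norm_num)
      _ ≤ 4 * ((1 / 2 : ℝ) ^ 10 * 16) := by linarith
      _ = 1 / 16 := by norm_num
  calc μ {ω | ∃ x ∈ box M, ∃ e ∈ dirs, ¬ ∃ i, IsEdge x (x + e) (X i ω) (X (i + 1) ω)}
      ≤ μ (A ∪ ((⋃ m ∈ range m0, B m) ∪ ⋃ x ∈ box M, ⋃ e ∈ dirs, C x e)) := measure_mono hsub
    _ ≤ μ A + (μ (⋃ m ∈ range m0, B m) + μ (⋃ x ∈ box M, ⋃ e ∈ dirs, C x e)) :=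
        (measure_union_le _ _).trans (add_le_add le_rfl (measure_union_le _ _))
    _ ≤ ENNReal.ofReal (1 / 16) + (ENNReal.ofReal (1 / 16) + ENNReal.ofReal (1 / 16)) :=
        add_le_add hn (add_le_add tB tC)
    _ ≤ ENNReal.ofReal (1 / 4) := by
        rw [← ENNReal.ofReal_add (by norm_num) (by norm_num),
          ← ENNReal.ofReal_add (by norm_num) (by norm_num)]
        exact ENNReal.ofReal_le_ofReal (by norm_num)

theorem cover (hX : IsChain (Pk ww) x0 μ X) (hx0 : lev x0 < Rl 2)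
    (hsum : ∀ M : ℤ, ∑ x ∈ box M, 1 / ((lev x : ℝ) + 1) ^ 4 ≤ 16) :
    ENNReal.ofReal (3 / 4) ≤
      μ {ω | ∀ x : V, ∀ e ∈ dirs, ∃ i, IsEdge x (x + e) (X i ω) (X (i + 1) ω)} := by
  have := hX.prob
  set F : ℕ → Set Ω := fun M =>
    {ω | ∃ x ∈ box M, ∃ e ∈ dirs, ¬ ∃ i, IsEdge x (x + e) (X i ω) (X (i + 1) ω)} with hF
  have hmono : Monotone F := by
    intro a b hab ω hω
    obtain ⟨x, hx, h⟩ := hω
    refine ⟨x, ?_, h⟩
    rw [mem_box] at hx ⊢
    have : (a : ℤ) ≤ b := by exact_mod_cast hab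
    omega
  have hU : μ (⋃ M, F M) ≤ ENNReal.ofReal (1 / 4) := by
    rw [hmono.measure_iUnion]
    exact iSup_le (fun M => cover_box hX hx0 M (hsum M))
  set G : Set Ω := {ω | ∀ x : V, ∀ e ∈ dirs, ∃ i, IsEdge x (x + e) (X i ω) (X (i + 1) ω)} with hG
  have hcov : (Set.univ : Set Ω) ⊆ G ∪ ⋃ M, F M := by
    intro ω _
    by_cases c : ω ∈ G
    · exact Or.inl c
    · right
      simp only [hG, Set.mem_ofPred_eq, not_forall] at c
      obtain ⟨x, e, he, h⟩ := c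
      rw [Set.mem_iUnion]
      refine ⟨(lev x).toNat, x, ?_, e, he, h⟩
      rw [mem_box]
      have := lev_nonneg x
      omega
  have h1 : (1 : ℝ≥0∞) ≤ μ G + ENNReal.ofReal (1 / 4) := by
    calc (1 : ℝ≥0∞) = μ Set.univ := measure_univ.symm
      _ ≤ μ (G ∪ ⋃ M, F M) := measure_mono hcov
      _ ≤ μ G + μ (⋃ M, F M) := measure_union_le _ _
      _ ≤ μ G + ENNReal.ofReal (1 / 4) := add_le_add le_rfl hU
  have h2 : (1 : ℝ≥0∞) = ENNReal.ofReal (3 / 4) + ENNReal.ofReal (1 / 4) := by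
    rw [← ENNReal.ofReal_add (by norm_num) (by norm_num)]
    norm_num
  rw [h2] at h1
  exact (ENNReal.add_le_add_iff_right ENNReal.ofReal_ne_top).1 h1

end cover

end Pool.Agent.Lib.MP_e14847_pr
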