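import Mathlib
import Pool.Agent.Lib.MP_0b3b8e_pr.Chain
import Pool.Agent.Lib.MP_e14847_pr.Chain

open Finset MeasureTheory ProbabilityTheory Preorder
open scoped ENNReal

namespace Pool.Agent.Lib.MP_e14847_pr

/-- The law of one step. -/
noncomputable def pmfP (P : V → V → ℝ) (h1 : ∀ x, HasSum (fun y => ENNReal.ofReal (P x y)) 1)
    (x : V) : PMF V := ⟨fun y => ENNReal.ofReal (P x y), h1 x⟩

/-- The transition kernel of a stochastic matrix. -/
noncomputable def kerP (P : V → V → ℝ) (h1 : ∀ x, HasSum (fun y => ENNReal.ofReal (P x y)) 1) :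
    Kernel V V :=
  Kernel.ofFunOfCountable (fun x => (pmfP P h1 x).toMeasure)

theorem kerP_apply (P : V → V → ℝ) (h1 : ∀ x, HasSum (fun y => ENNReal.ofReal (P x y)) 1)
    (x y : V) : kerP P h1 x {y} = ENNReal.ofReal (P x y) := by
  have : kerP P h1 x = (pmfP P h1 x).toMeasure := rfl
  rw [this, PMF.toMeasure_apply_singleton _ _ (measurableSet_singleton y)]
  rfl

instance (P : V → V → ℝ) (h1 : ∀ x, HasSum (fun y => ENNReal.ofReal (P x y)) 1) :
    IsMarkovKernel (kerP P h1) := by
  refine ⟨fun x => ?_⟩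
  have : kerP P h1 x = (pmfP P h1 x).toMeasure := rfl
  rw [this]
  infer_instance

theorem exists_chain {P : V → V → ℝ} (h0 : ∀ x y, 0 ≤ P x y) (h1 : ∀ x, HasSum (P x) 1) (x0 : V) :
    ∃ (Ω : Type) (_ : MeasurableSpace Ω) (μ : Measure Ω) (X : ℕ → Ω → V), IsChain P x0 μ X := by
  classical
  have h1' : ∀ x, HasSum (fun y => ENNReal.ofReal (P x y)) 1 := by
    intro x
    have h := (h1 x).summable
    have h2 := ENNReal.ofReal_tsum_of_nonneg (h0 x) h
    rw [(h1 x).tsum_eq, ENNReal.ofReal_one] at h2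
    rw [h2]
    exact ENNReal.summable.hasSum
  set μ := MP_0b3b8e_pr.chain (kerP P h1') x0 with hμ
  refine ⟨ℕ → V, inferInstance, μ, fun n ω => ω n, ?_⟩
  refine ⟨by rw [hμ]; infer_instance, fun n => measurable_pi_apply n, ?_, ?_⟩
  · have h := MP_0b3b8e_pr.chain_zero (kerP P h1') x0 (fun y => if y = x0 then 0 else 1)
      (measurable_of_countable _)
    rw [← hμ] at h
    simp only [if_true] at h
    have hm : Measurable (fun ω : ℕ → V => (if ω 0 = x0 then 0 else 1 : ℝ≥0∞)) :=
      (measurable_of_countable (fun y : V => (if y = x0 then 0 else 1 : ℝ≥0∞))).comp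
        (measurable_pi_apply 0)
    have h3 := (lintegral_eq_zero_iff hm).1 h
    filter_upwards [h3] with ω hω
    by_contra hcon
    simp only [Pi.zero_apply] at hω
    rw [if_neg hcon] at hω
    exact one_ne_zero hω
  · intro n h y
    set Hs : Set (Π _ : Iic n, V) := {z | ∀ i : Iic n, z i = h i} with hHs
    have hmeas : MeasurableSet Hs := (Set.to_countable _).measurableSet
    set Φ : (Π _ : Iic n, V) × V → ℝ≥0∞ := fun z =>
      Hs.indicator (fun _ => 1) z.1 * (if z.2 = y then 1 else 0) with hΦ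
    have hΦm : Measurable Φ := by
      refine Measurable.mul ?_ ?_
      · exact (measurable_const.indicator hmeas).comp measurable_fst
      · exact (measurable_of_countable (fun z : V => (if z = y then 1 else 0 : ℝ≥0∞))).comp
          measurable_snd
    have h2 := MP_0b3b8e_pr.chain_step (kerP P h1') x0 n Φ hΦm
    rw [← hμ] at h2
    have hiff : ∀ ω : ℕ → V, frestrictLe (π := fun _ => V) n ω ∈ Hs ↔ ∀ i ≤ n, ω i = h i := by
      intro ω
      constructor
      · intro hω i hi
        exact hω ⟨i, mem_Iic.2 hi⟩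
      · intro hω i
        exact hω i (mem_Iic.1 i.2)
    have mA : MeasurableSet {ω : ℕ → V | ∀ i ≤ n, ω i = h i} := by
      have : {ω : ℕ → V | ∀ i ≤ n, ω i = h i} = (frestrictLe (π := fun _ => V) n) ⁻¹' Hs := by
        ext ω
        rw [Set.mem_preimage, hiff]
        rfl
      rw [this]
      exact (measurable_frestrictLe n) hmeas
    have mB : MeasurableSet {ω : ℕ → V | (∀ i ≤ n, ω i = h i) ∧ ω (n + 1) = y} :=
      mA.inter (measurableSet_eq_fun (measurable_pi_apply (n + 1)) measurable_const)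
    have e1 : ∫⁻ ω, Φ (frestrictLe (π := fun _ => V) n ω, ω (n + 1)) ∂μ =
        μ {ω | (∀ i ≤ n, ω i = h i) ∧ ω (n + 1) = y} := by
      rw [← lintegral_indicator_one mB]
      refine lintegral_congr (fun ω => ?_)
      simp only [hΦ]
      by_cases c1 : ∀ i ≤ n, ω i = h i
      · rw [Set.indicator_of_mem ((hiff ω).2 c1)]
        by_cases c2 : ω (n + 1) = y
        · rw [if_pos c2, Set.indicator_of_mem (show ω ∈ {ω | (∀ i ≤ n, ω i = h i) ∧ ω (n + 1) = y} from
            ⟨c1, c2⟩)]
          simp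
        · rw [if_neg c2, Set.indicator_of_notMem (show ω ∉ {ω | (∀ i ≤ n, ω i = h i) ∧ ω (n + 1) = y} from
            fun hh => c2 hh.2)]
          simp
      · rw [Set.indicator_of_notMem (fun hh => c1 ((hiff ω).1 hh)), Set.indicator_of_notMem
          (show ω ∉ {ω | (∀ i ≤ n, ω i = h i) ∧ ω (n + 1) = y} from fun hh => c1 hh.1), zero_mul]
    have e2 : ∫⁻ ω, ∫⁻ y', Φ (frestrictLe (π := fun _ => V) n ω, y') ∂(kerP P h1' (ω n)) ∂μ =
        μ {ω | ∀ i ≤ n, ω i = h i} * ENNReal.ofReal (P (h n) y) := by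
      have e3 : ∀ ω : ℕ → V, ∫⁻ y', Φ (frestrictLe (π := fun _ => V) n ω, y') ∂(kerP P h1' (ω n)) =
          Set.indicator {ω : ℕ → V | ∀ i ≤ n, ω i = h i}
            (fun _ => ENNReal.ofReal (P (h n) y)) ω := by
        intro ω
        simp only [hΦ]
        by_cases c1 : ∀ i ≤ n, ω i = h i
        · rw [Set.indicator_of_mem ((hiff ω).2 c1), Set.indicator_of_mem
            (show ω ∈ {ω : ℕ → V | ∀ i ≤ n, ω i = h i} from c1), c1 n le_rfl]
          simp only [one_mul]
          rw [← kerP_apply P h1' (h n) y, ← lintegral_indicator_one (measurableSet_singleton y)]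
          refine lintegral_congr (fun z => ?_)
          by_cases c2 : z = y
          · rw [if_pos c2, Set.indicator_of_mem (show z ∈ ({y} : Set V) from c2)]
            rfl
          · rw [if_neg c2, Set.indicator_of_notMem (show z ∉ ({y} : Set V) from c2)]
        · rw [Set.indicator_of_notMem (fun hh => c1 ((hiff ω).1 hh)), Set.indicator_of_notMem
            (show ω ∉ {ω : ℕ → V | ∀ i ≤ n, ω i = h i} from c1)]
          simp
      simp only [e3]
      rw [lintegral_indicator_const mA, mul_comm]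
    rw [e1, e2] at h2
    exact h2

end Pool.Agent.Lib.MP_e14847_pr
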