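import Mathlib
import Pool.Agent.Lib.MP_e14847_pr.Chain

open Finset MeasureTheory ProbabilityTheory
open scoped ENNReal

namespace Pool.Agent.Lib.MP_e14847_pr

section shift
variable {P : V → V → ℝ} {x y : V} {Ω : Type} [MeasurableSpace Ω] {μ : Measure Ω}
  {X : ℕ → Ω → V}

/-- The event that the first step goes from `x` to `y`. -/
def fstep (x y : V) (X : ℕ → Ω → V) : Set Ω := {ω | X 0 ω = x ∧ X 1 ω = y}

theorem IsChain.meas_fstep (hX : IsChain P x μ X) : MeasurableSet (fstep x y X) := by
  have h1 : MeasurableSet {ω | X 0 ω = x} := hX.meas 0 (measurableSet_singleton x)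
  have h2 : MeasurableSet {ω | X 1 ω = y} := hX.meas 1 (measurableSet_singleton y)
  exact h1.inter h2

theorem IsChain.fstep_ne (hX : IsChain P x μ X) (hxy : 0 < P x y) : μ (fstep x y X) ≠ 0 := by
  have hp := hX.prob
  have h := hX.markov 0 (fun _ => x) y
  have e1 : {ω | (∀ i ≤ 0, X i ω = x) ∧ X (0 + 1) ω = y} = fstep x y X := by
    ext ω
    simp only [fstep, Set.mem_ofPred_eq, Nat.le_zero, forall_eq, zero_add]
  have e2 : μ {ω | ∀ i ≤ 0, X i ω = x} = 1 := by
    have hs := hX.start
    have : ∀ᵐ ω ∂μ, ω ∈ {ω | ∀ i ≤ 0, X i ω = x} := by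
      filter_upwards [hs] with ω hω i hi
      rw [Nat.le_zero.1 hi]
      exact hω
    rw [← measure_univ (μ := μ)]
    exact measure_congr (by
      filter_upwards [this] with ω hω
      exact propext ⟨fun _ => trivial, fun _ => hω⟩)
  rw [e1, e2, one_mul] at h
  rw [h]
  exact (ENNReal.ofReal_pos.2 hxy).ne'

theorem IsChain.shift (hX : IsChain P x μ X) (hxy : 0 < P x y) :
    IsChain P y (ProbabilityTheory.cond μ (fstep x y X)) (fun n => X (n + 1)) := by
  have hp := hX.prob
  have hE := hX.meas_fstep (y := y)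
  have hne := hX.fstep_ne hxy
  refine ⟨cond_isProbabilityMeasure hne, fun n => hX.meas (n + 1), ?_, ?_⟩
  · refine (ae_cond_mem hE).mono (fun ω hω => ?_)
    exact hω.2
  · intro n h z
    rw [cond_apply hE, cond_apply hE, mul_assoc]
    congr 1
    by_cases c : h 0 = y
    · set h' : ℕ → V := fun i => Nat.casesOn i x h with hh'
      have e1 : fstep x y X ∩ {ω | (∀ i ≤ n, X (i + 1) ω = h i) ∧ X (n + 1 + 1) ω = z} =
          {ω | (∀ i ≤ n + 1, X i ω = h' i) ∧ X (n + 1 + 1) ω = z} := by
        ext ω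
        simp only [fstep, Set.mem_inter_iff, Set.mem_ofPred_eq]
        constructor
        · rintro ⟨⟨a1, a2⟩, a3, a4⟩
          refine ⟨fun i hi => ?_, a4⟩
          cases i with
          | zero => exact a1
          | succ i => exact a3 i (by omega)
        · rintro ⟨a1, a2⟩
          refine ⟨⟨a1 0 (by omega), ?_⟩, fun i hi => a1 (i + 1) (by omega), a2⟩
          have := a1 1 (by omega)
          rw [← c]
          exact this
      have e2 : fstep x y X ∩ {ω | ∀ i ≤ n, X (i + 1) ω = h i} =
          {ω | ∀ i ≤ n + 1, X i ω = h' i} := by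
        ext ω
        simp only [fstep, Set.mem_inter_iff, Set.mem_ofPred_eq]
        constructor
        · rintro ⟨⟨a1, a2⟩, a3⟩ i hi
          cases i with
          | zero => exact a1
          | succ i => exact a3 i (by omega)
        · intro a1
          refine ⟨⟨a1 0 (by omega), ?_⟩, fun i hi => a1 (i + 1) (by omega)⟩
          have := a1 1 (by omega)
          rw [← c]
          exact this
      rw [e1, e2, hX.markov (n + 1) h' z]
    · have e1 : fstep x y X ∩ {ω | (∀ i ≤ n, X (i + 1) ω = h i) ∧ X (n + 1 + 1) ω = z} = ∅ := by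
        ext ω
        simp only [fstep, Set.mem_inter_iff, Set.mem_ofPred_eq, Set.mem_empty_iff_false, iff_false]
        rintro ⟨⟨a1, a2⟩, a3, a4⟩
        exact c ((a3 0 (Nat.zero_le _)).symm.trans a2)
      have e2 : fstep x y X ∩ {ω | ∀ i ≤ n, X (i + 1) ω = h i} = ∅ := by
        ext ω
        simp only [fstep, Set.mem_inter_iff, Set.mem_ofPred_eq, Set.mem_empty_iff_false, iff_false]
        rintro ⟨⟨a1, a2⟩, a3⟩
        exact c ((a3 0 (Nat.zero_le _)).symm.trans a2)
      rw [e1, e2]
      simp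

/-- All edges are crossed. -/
def CrossAll (x : ℕ → V) : Prop := ∀ a : V, ∀ e ∈ dirs, ∃ i, 
  (x i = a ∧ x (i + 1) = a + e) ∨ (x i = a + e ∧ x (i + 1) = a)

theorem IsChain.cross_step (hX : IsChain P x μ X)
    (h : 0 < ProbabilityTheory.cond μ (fstep x y X) {ω | CrossAll (fun n => X (n + 1) ω)}) :
    0 < μ {ω | CrossAll (fun n => X n ω)} := by
  have hE := hX.meas_fstep (y := y)
  rw [cond_apply hE] at h
  have h2 : μ (fstep x y X ∩ {ω | CrossAll (fun n => X (n + 1) ω)}) ≠ 0 := fun h0 => by
    rw [h0, mul_zero] at h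
    exact lt_irrefl _ h
  refine pos_iff_ne_zero.2 (fun h0 => h2 (measure_mono_null (fun ω hω => ?_) h0))
  intro a e he
  obtain ⟨i, hi⟩ := hω.2 a e he
  exact ⟨i + 1, hi⟩

end shift

/-- Positive probability of crossing all edges, from every starting point. -/
theorem cross_all_starts {P : V → V → ℝ} (hP : ∀ x, ∀ e ∈ dirs, 0 < P x (x + e))
    (h0 : ∀ (Ω : Type) (_ : MeasurableSpace Ω) (μ : Measure Ω) (X : ℕ → Ω → V),
      IsChain P 0 μ X → 0 < μ {ω | CrossAll (fun n => X n ω)}) (x0 : V) (Ω : Type)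
    (_ : MeasurableSpace Ω) (μ : Measure Ω) (X : ℕ → Ω → V) (hX : IsChain P x0 μ X) :
    0 < μ {ω | CrossAll (fun n => X n ω)} := by
  set Q : V → Prop := fun x => ∀ (Ω : Type) (_ : MeasurableSpace Ω) (μ : Measure Ω)
    (X : ℕ → Ω → V), IsChain P x μ X → 0 < μ {ω | CrossAll (fun n => X n ω)} with hQ
  have hstep : ∀ x, ∀ e ∈ dirs, Q (x + e) → Q x := by
    intro x e he hq Ω _ μ X hX
    exact hX.cross_step (hq Ω _ _ _ (hX.shift (hP x e he)))
  have hrow : ∀ b : ℤ, Q (0, b) := by
    intro b
    induction b using Int.induction_on with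
    | zero => exact h0
    | succ n ih =>
      refine hstep _ (0, -1) (by simp [dirs]) ?_
      have : ((0, (n : ℤ) + 1) : V) + ((0, -1) : V) = ((0, (n : ℤ)) : V) := by ext <;> simp
      rw [this]
      exact ih
    | pred n ih =>
      refine hstep _ (0, 1) (by simp [dirs]) ?_
      have : ((0, -(n : ℤ) - 1) : V) + ((0, 1) : V) = ((0, -(n : ℤ)) : V) := by ext <;> simp
      rw [this]
      exact ih
  have hall : ∀ a b : ℤ, Q (a, b) := by
    intro a b
    induction a using Int.induction_on with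
    | zero => exact hrow b
    | succ n ih =>
      refine hstep _ (-1, 0) (by simp [dirs]) ?_
      have : (((n : ℤ) + 1, b) : V) + ((-1, 0) : V) = (((n : ℤ), b) : V) := by ext <;> simp
      rw [this]
      exact ih
    | pred n ih =>
      refine hstep _ (1, 0) (by simp [dirs]) ?_
      have : ((-(n : ℤ) - 1, b) : V) + ((1, 0) : V) = ((-(n : ℤ), b) : V) := by ext <;> simp
      rw [this]
      exact ih
  exact hall x0.1 x0.2 Ω _ μ X hX

end Pool.Agent.Lib.MP_e14847_pr
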