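import Mathlib
import Pool.Agent.Lib.MP_e14847_pr.Pot

open Finset

namespace Pool.Agent.Lib.MP_e14847_pr

theorem sum_sq_nat (n : ℕ) : ∑ k ∈ range n, 1 / ((k : ℝ) + 1) ^ 2 ≤ 2 := by
  have h : ∀ n : ℕ, ∑ k ∈ range (n + 1), 1 / ((k : ℝ) + 1) ^ 2 ≤ 2 - 1 / ((n : ℝ) + 1) := by
    intro n
    induction n with
    | zero => norm_num
    | succ n ih =>
      rw [Finset.sum_range_succ]
      have h1 : 1 / (((n + 1 : ℕ) : ℝ) + 1) ^ 2 ≤ 1 / ((n : ℝ) + 1) - 1 / (((n + 1 : ℕ) : ℝ) + 1) := by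
        push_cast
        rw [div_sub_div _ _ (by positivity) (by positivity),
          div_le_div_iff₀ (by positivity) (by positivity)]
        have := Nat.cast_nonneg (α := ℝ) n
        nlinarith
      linarith
  cases n with
  | zero => norm_num
  | succ n =>
    have h1 := h n
    have : (0 : ℝ) < 1 / ((n : ℝ) + 1) := by positivity
    linarith

theorem sum_sq_int (M : ℤ) : ∑ a ∈ Icc (-M) M, 1 / (((|a| : ℤ) : ℝ) + 1) ^ 2 ≤ 4 := by
  have hsub : Icc (-M) M ⊆ (range (M.toNat + 1)).image (fun k : ℕ => (k : ℤ)) ∪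
      (range (M.toNat + 1)).image (fun k : ℕ => -(k : ℤ)) := by
    intro a ha
    rw [Finset.mem_Icc] at ha
    rw [Finset.mem_union, Finset.mem_image, Finset.mem_image]
    rcases le_total 0 a with h | h
    · left
      exact ⟨a.toNat, by rw [Finset.mem_range]; omega, by omega⟩
    · right
      exact ⟨(-a).toNat, by rw [Finset.mem_range]; omega, by omega⟩
  have hnn : ∀ a : ℤ, 0 ≤ 1 / (((|a| : ℤ) : ℝ) + 1) ^ 2 := fun a => by positivity
  have h1 : ∑ a ∈ (range (M.toNat + 1)).image (fun k : ℕ => (k : ℤ)),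
      1 / (((|a| : ℤ) : ℝ) + 1) ^ 2 ≤ 2 := by
    rw [Finset.sum_image (fun a _ b _ hab => by exact_mod_cast hab)]
    refine le_trans (le_of_eq (Finset.sum_congr rfl (fun k _ => ?_))) (sum_sq_nat (M.toNat + 1))
    simp
  have h2 : ∑ a ∈ (range (M.toNat + 1)).image (fun k : ℕ => -(k : ℤ)),
      1 / (((|a| : ℤ) : ℝ) + 1) ^ 2 ≤ 2 := by
    rw [Finset.sum_image (fun a _ b _ hab => by
      have : (a : ℤ) = b := neg_injective hab
      exact_mod_cast this)]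
    refine le_trans (le_of_eq (Finset.sum_congr rfl (fun k _ => ?_))) (sum_sq_nat (M.toNat + 1))
    simp
  calc ∑ a ∈ Icc (-M) M, 1 / (((|a| : ℤ) : ℝ) + 1) ^ 2
      ≤ ∑ a ∈ (range (M.toNat + 1)).image (fun k : ℕ => (k : ℤ)) ∪
      (range (M.toNat + 1)).image (fun k : ℕ => -(k : ℤ)), 1 / (((|a| : ℤ) : ℝ) + 1) ^ 2 :=
        Finset.sum_le_sum_of_subset_of_nonneg hsub (fun a _ _ => hnn a)
    _ ≤ 4 := by
        have h3 := Finset.sum_union_inter (s₁ := (range (M.toNat + 1)).image (fun k : ℕ => (k : ℤ)))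
          (s₂ := (range (M.toNat + 1)).image (fun k : ℕ => -(k : ℤ)))
          (f := fun a : ℤ => 1 / (((|a| : ℤ) : ℝ) + 1) ^ 2)
        have h4 : 0 ≤ ∑ a ∈ (range (M.toNat + 1)).image (fun k : ℕ => (k : ℤ)) ∩
          (range (M.toNat + 1)).image (fun k : ℕ => -(k : ℤ)), 1 / (((|a| : ℤ) : ℝ) + 1) ^ 2 :=
          Finset.sum_nonneg (fun a _ => hnn a)
        linarith

theorem sum_box_le (M : ℤ) : ∑ x ∈ box M, 1 / ((lev x : ℝ) + 1) ^ 4 ≤ 16 := by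
  have hb : box M = Icc (-M) M ×ˢ Icc (-M) M := rfl
  rw [hb]
  calc ∑ x ∈ Icc (-M) M ×ˢ Icc (-M) M, 1 / ((lev x : ℝ) + 1) ^ 4
      ≤ ∑ x ∈ Icc (-M) M ×ˢ Icc (-M) M,
        (1 / (((|x.1| : ℤ) : ℝ) + 1) ^ 2) * (1 / (((|x.2| : ℤ) : ℝ) + 1) ^ 2) := by
        refine Finset.sum_le_sum (fun x _ => ?_)
        have h1 : ((|x.1| : ℤ) : ℝ) ≤ lev x := by exact_mod_cast le_max_left |x.1| |x.2|
        have h2 : ((|x.2| : ℤ) : ℝ) ≤ lev x := by exact_mod_cast le_max_right |x.1| |x.2|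
        have h3 : (0 : ℝ) ≤ ((|x.1| : ℤ) : ℝ) := by exact_mod_cast abs_nonneg x.1
        have h4 : (0 : ℝ) ≤ ((|x.2| : ℤ) : ℝ) := by exact_mod_cast abs_nonneg x.2
        rw [one_div_mul_one_div]
        refine one_div_le_one_div_of_le (by positivity) ?_
        calc (((|x.1| : ℤ) : ℝ) + 1) ^ 2 * (((|x.2| : ℤ) : ℝ) + 1) ^ 2
            ≤ ((lev x : ℝ) + 1) ^ 2 * ((lev x : ℝ) + 1) ^ 2 := by gcongr
          _ = ((lev x : ℝ) + 1) ^ 4 := by ring
    _ = (∑ a ∈ Icc (-M) M, 1 / (((|a| : ℤ) : ℝ) + 1) ^ 2) *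
        ∑ b ∈ Icc (-M) M, 1 / (((|b| : ℤ) : ℝ) + 1) ^ 2 := by
        rw [Finset.sum_mul_sum, Finset.sum_product]
    _ ≤ 4 * 4 := by
        refine mul_le_mul (sum_sq_int M) (sum_sq_int M) (Finset.sum_nonneg (fun a _ => ?_))
          (by norm_num)
        positivity
    _ = 16 := by norm_num

end Pool.Agent.Lib.MP_e14847_pr
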