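import Mathlib
import Pool.Agent.Lib.MP_e14847_pr.Chain
import Pool.Agent.Lib.MP_e14847_pr.Geom
import Pool.Agent.Lib.MP_e14847_pr.Auto

open Finset MeasureTheory
open scoped ENNReal

namespace Pool.Agent.Lib.MP_e14847_pr

section
variable {w : ℤ → ℝ} (hw : ∀ l, 0 < w l) (hw2 : ∀ l, w l ≤ 2 * w (l + 1))

/-- The sums of the cone estimate are bounded. -/
theorem cone_sum_le (hw : ∀ l, 0 < w l) {S0 : ℝ}
    (hS : ∀ J : ℕ, ∑ l ∈ range J, 1 / (((l : ℝ) + 1) * w l) ≤ S0) (q : ℕ) (J : ℕ) :
    ∑ j ∈ range J, 2 / (((j : ℝ) + 1) * (w ((q : ℤ) + j) / 2)) ≤ 4 * ((q : ℝ) + 1) * S0 := by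
  have h1 : ∀ j ∈ range J, 2 / (((j : ℝ) + 1) * (w ((q : ℤ) + j) / 2)) ≤
      4 * ((q : ℝ) + 1) * (1 / ((((q + j : ℕ) : ℝ) + 1) * w ((q + j : ℕ) : ℤ))) := by
    intro j _
    have hwp : 0 < w ((q : ℤ) + j) := hw _
    push_cast
    have e : 2 / (((j : ℝ) + 1) * (w ((q : ℤ) + j) / 2)) = 4 / (((j : ℝ) + 1) * w ((q : ℤ) + j)) := by
      field_simp
      norm_num
    rw [e, mul_one_div, div_le_div_iff₀ (by positivity) (by positivity)]
    have h2 : ((q : ℝ) + j + 1) ≤ ((q : ℝ) + 1) * ((j : ℝ) + 1) := by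
      nlinarith [mul_nonneg (Nat.cast_nonneg (α := ℝ) q) (Nat.cast_nonneg (α := ℝ) j)]
    have h3 : 4 * (((q : ℝ) + j + 1) * w ((q : ℤ) + j)) ≤
        4 * ((((q : ℝ) + 1) * ((j : ℝ) + 1)) * w ((q : ℤ) + j)) :=
      mul_le_mul_of_nonneg_left (mul_le_mul_of_nonneg_right h2 hwp.le) (by norm_num)
    linarith
  refine (Finset.sum_le_sum h1).trans ?_
  rw [← Finset.mul_sum]
  refine mul_le_mul_of_nonneg_left ?_ (by positivity)
  refine le_trans ?_ (hS (q + J))
  rw [Finset.sum_range_add (fun l => 1 / (((l : ℝ) + 1) * w l)) q J]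
  have : 0 ≤ ∑ x ∈ range q, 1 / (((x : ℝ) + 1) * w x) :=
    Finset.sum_nonneg (fun x _ => by have := hw x; positivity)
  linarith

include hw hw2 in
/-- The expected number of visits to a vertex is bounded. -/
theorem visits_bound {S0 : ℝ} (hS : ∀ J : ℕ, ∑ l ∈ range J, 1 / (((l : ℝ) + 1) * w l) ≤ S0)
    {x0 : V} {Ω : Type} [MeasurableSpace Ω] {μ : Measure Ω} {X : ℕ → Ω → V}
    (hX : IsChain (Pk w) x0 μ X) (p : V) (n : ℕ) :
    ∑ j ∈ range n, μ {ω | X j ω = p} ≤
      ENNReal.ofReal (piw w p * (4 * (((lev p).toNat : ℝ) + 1) * S0)) := by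
  have hl0 := lev_nonneg x0
  have hlp := lev_nonneg p
  set N' : ℤ := lev x0 + n + lev p + 2 with hN'
  obtain ⟨g, hg1, hg0, hgh, hgn, hgl, hgp⟩ := exists_gfun hw (-1) N' p (by omega) (by omega)
  set Dg := DD w N' g g with hDg
  -- energy lower bound
  have hcone := cone hw N' (N' - lev p).toNat g p (by omega) (fun j => w ((lev p) + j) / 2)
    (fun j => half_pos (hw _)) (fun j _ => ⟨by have := hw (lev p + j); linarith, by
      have := hw2 (lev p + j)
      linarith⟩) (fun x hx => hg0 x (Or.inr (by omega)))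
  rw [hg1, one_pow] at hcone
  have hq : (((lev p).toNat : ℤ)) = lev p := Int.toNat_of_nonneg hlp
  have hsum := cone_sum_le hw hS (lev p).toNat (N' - lev p).toNat
  rw [hq] at hsum
  have hD0 : 0 ≤ Dg := DD_self_nonneg hw N' g
  have hSD : 1 ≤ 4 * (((lev p).toNat : ℝ) + 1) * S0 * Dg :=
    hcone.trans (mul_le_mul_of_nonneg_right hsum hD0)
  have hDpos : 0 < Dg := by
    rcases hD0.lt_or_eq with h | h
    · exact h
    · rw [← h, mul_zero] at hSD
      norm_num at hSD
  -- Laplacian at p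
  have hLp : Lap w g p = - Dg := by
    have h1 := DD_parts w N' g g (fun x hx => hg0 x (Or.inr hx))
    have h2 : ∑ x ∈ box N', g x * Lap w g x = g p * Lap w g p := by
      refine Finset.sum_eq_single_of_mem p (mem_box.2 (by omega)) (fun x _ hxp => ?_)
      by_cases c : lev x < N'
      · rw [hgh x (by have := lev_nonneg x; omega) c hxp, mul_zero]
      · rw [hg0 x (Or.inr (by omega)), zero_mul]
    rw [h2, hg1, one_mul] at h1
    rw [hDg, h1, neg_neg]
  set F : V → ℝ := fun x => piw w p / Dg * g x with hF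
  have hpp := piw_pos hw p
  have hF0 : ∀ x, 0 ≤ F x := fun x => mul_nonneg (div_pos hpp hDpos).le (hgn x)
  have hFsum : ∀ x, lev x < N' → ∑ e ∈ dirs, cd w x (x + e) * F (x + e) =
      piw w x * (F x - if x = p then 1 else 0) := by
    intro x hx
    rw [Lap_eq]
    have : Lap w F x = piw w p / Dg * Lap w g x := Lap_const_mul w _ g x
    rw [this]
    by_cases c : x = p
    · subst c
      rw [hLp, if_pos rfl]
      field_simp
      ring
    · rw [if_neg c, hgh x (by have := lev_nonneg x; omega) hx c]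
      ring
  have key := hX.super hw (fun (s : ℕ) _ _ => s + 1) 0 (fun x s => lev x ≤ lev x0 + s)
    (fun x s => if s ≤ n then F x else 0) (fun x s => if s < n ∧ x = p then 1 else 0)
    (fun x s => by split_ifs; exacts [hF0 x, le_rfl]) (fun x s => by split_ifs <;> norm_num)
    (by simp) (fun x s hI e he => by
      have := lev_add_le (x := x) he
      push_cast
      omega) (fun x s hI => by
      by_cases c1 : s < n
      · have e1 : ∀ e ∈ dirs, cd w x (x + e) * (if s + 1 ≤ n then F (x + e) else 0) =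
            cd w x (x + e) * F (x + e) := fun e _ => by rw [if_pos (by omega)]
        rw [Finset.sum_congr rfl e1, hFsum x (by push_cast at hI; omega), if_pos c1.le]
        simp only [c1, true_and]
        exact le_rfl
      · have e1 : ∀ e ∈ dirs, cd w x (x + e) * (if s + 1 ≤ n then F (x + e) else 0) = 0 :=
          fun e _ => by rw [if_neg (by omega), mul_zero]
        have e2 : (if s < n ∧ x = p then (1 : ℝ) else 0) = 0 := if_neg (fun h => c1 h.1)
        rw [Finset.sum_congr rfl e1, Finset.sum_const_zero, e2, sub_zero]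
        refine mul_nonneg (piw_pos hw x).le ?_
        split_ifs
        exacts [hF0 x, le_rfl]) n
  have hst : ∀ (x : ℕ → V) (j : ℕ), st (fun (s : ℕ) (_ _ : V) => s + 1) 0 x j = j := by
    intro x j
    induction j with
    | zero => rfl
    | succ j ih => simp only [st, ih]
  refine le_trans ?_ (((le_add_left le_rfl).trans key).trans (ENNReal.ofReal_le_ofReal ?_))
  · refine Finset.sum_le_sum (fun j hj => ?_)
    have hms : MeasurableSet {ω | X j ω = p} := hX.meas j (measurableSet_singleton p)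
    rw [← lintegral_indicator_one hms]
    refine lintegral_mono (fun ω => ?_)
    rw [hst]
    by_cases hω : X j ω = p
    · rw [Set.indicator_of_mem (by exact hω), if_pos ⟨mem_range.1 hj, hω⟩]
      simp
    · rw [Set.indicator_of_notMem (by exact hω)]
      exact zero_le
  · rw [if_pos (Nat.zero_le n)]
    simp only [hF]
    rw [div_mul_eq_mul_div, div_le_iff₀ hDpos, mul_assoc]
    refine mul_le_mul_of_nonneg_left ((hgl x0).trans hSD) hpp.le

include hw hw2 in
/-- Transience. -/
theorem transient {S0 : ℝ} (hS : ∀ J : ℕ, ∑ l ∈ range J, 1 / (((l : ℝ) + 1) * w l) ≤ S0)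
    {x0 : V} {Ω : Type} [MeasurableSpace Ω] {μ : Measure Ω} {X : ℕ → Ω → V}
    (hX : IsChain (Pk w) x0 μ X) (p : V) : ∀ᵐ ω ∂μ, {n | X n ω = p}.Finite := by
  have hsum : ∑' j, μ {ω | X j ω = p} ≠ ∞ := by
    refine ne_top_of_le_ne_top ENNReal.ofReal_ne_top (?_ : _ ≤ ENNReal.ofReal
      (piw w p * (4 * (((lev p).toNat : ℝ) + 1) * S0)))
    rw [ENNReal.tsum_eq_iSup_nat]
    exact iSup_le (fun n => visits_bound hw hw2 hS hX p n)
  have h := measure_setOfPred_frequently_eq_zero (μ := μ) (p := fun n ω => X n ω = p) hsum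
  rw [ae_iff]
  refine le_antisymm ((measure_mono (fun ω hω => ?_)).trans h.le) zero_le
  simp only [Set.mem_ofPred_eq] at hω ⊢
  rw [Nat.frequently_atTop_iff_infinite]
  exact hω

end

end Pool.Agent.Lib.MP_e14847_pr
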